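import Pool.Agent.Work.MP_8c604c_gt.OM.Hur
import Pool.Agent.Work.MP_8c604c_gt.OM.S2
import Pool.Agent.Work.MP_8c604c_gt.O.Defs

-- merged part: Pool.Agent.Work.MP_8c604c_gt.OM.G0
section
/-!
The standard metric of the Cayley plane: its geodesics are circles of length `√2 π`, minimal up to half the length.
-/

set_option maxSynthPendingDepth 3

open Set Filter Topology Real
open scoped ContDiff RealInnerProductSpace

noncomputable section
namespace Pool.Agent.Work.MP_8c604c_gt.OM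

/-- The metric induced by the trace form. -/
def g0 : Met := fun _ => innerSL ℝ (E := J)

theorem g0_apply (p u w : J) : g0 p u w = ⟪u, w⟫ := rfl

theorem isMetric_g0 : IsMetric g0 :=
  ⟨fun _ _ => contDiffAt_const, fun _ _ u w => real_inner_comm w u,
    fun _ _ _ _ h => real_inner_self_pos.2 h⟩

theorem Pj_deriv {c : ℝ → J} (hm : ∀ t, c t ∈ CaP) {u : J} {s : ℝ} (hd : HasDerivAt c u s) :
    Pj (c s) u = u := by
  have h1 := (hasFDerivAt_sh (c s)).comp_hasDerivAt s hd
  have h2 : sh ∘ c = fun _ => 0 := funext fun t => (mem_CaP.1 (hm t)).1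
  rw [h2] at h1
  have h3 := hd.inner ℝ hd
  have h4 : (fun t => ⟪c t, c t⟫) = fun _ => 1 := funext fun t => inner_self_mem (hm t)
  rw [h4] at h3
  have h5 := h3.unique (hasDerivAt_const _ _)
  rw [real_inner_comm (c s)] at h5
  exact (Pj_eq_iff (hm s)).2 ⟨h1.unique (hasDerivAt_const _ _), by linarith⟩

theorem cr_cr_self {p v : J} (hp : p ∈ CaP) (hv : Pj p v = v) : cr v (cr v v) = ⟪v, v⟫ • v := by
  obtain ⟨A, hA, rfl⟩ := exists_aut hp
  obtain ⟨v, rfl⟩ := A.surjective v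
  rw [hA.Pj] at hv
  obtain ⟨y, z, rfl⟩ := Pj_e0_eq (A.injective hv)
  rw [← hA.cr, ← hA.cr, A.inner_map_map, ← map_smul, cr_self, map_smul, sh_mk, cr_mk, inner_mk, mk_smul,
    mk_smul]
  congr 2 <;> simp only [mul_zero, zero_mul, inner_zero_left, inner_zero_right, sub_zero, zero_sub,
    star_zero, zero_smul, smul_zero, add_zero, zero_add, star_mul, star_star, CA.inv_r, CA.inv_l]
  all_goals module

theorem cr_cr_nor {p v w : J} (hp : p ∈ CaP) (hv : Pj p v = v) (hw : Pj p w = 0) : cr p (cr v w) = 0 := by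
  obtain ⟨A, hA, rfl⟩ := exists_aut hp
  obtain ⟨v, rfl⟩ := A.surjective v
  obtain ⟨w, rfl⟩ := A.surjective w
  rw [hA.Pj] at hv hw
  obtain ⟨y, z, rfl⟩ := Pj_e0_eq (A.injective hv)
  obtain ⟨a, b, c, x, y', z', rfl⟩ := exists_mk w
  rw [map_eq_zero_iff A A.injective, Pj_e0, ← mk_zero, mk_inj] at hw
  obtain ⟨-, -, -, -, rfl, rfl⟩ := hw
  rw [← hA.cr, ← hA.cr, cr_mk, cr_e0]
  simp [mk_zero]

theorem g0_form {c : ℝ → J} (hc : IsUnitGeodesic g0 c) : ∃ w A B : J, ⟪c 0, w⟫ = 1 / 2 ∧ ⟪c 0, A⟫ = 1 / 2 ∧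
    ⟪c 0, B⟫ = 0 ∧ ∀ t, c t = w + cos (√2 * t) • A + sin (√2 * t) • B := by
  have hs := contDiff_infty_iff_deriv.1 hc.smooth
  set v := deriv c with hv
  set a := deriv v with ha
  have d1 : ∀ t, HasDerivAt c (v t) t := fun t => (hs.1 t).hasDerivAt
  have d2 : ∀ t, HasDerivAt v (a t) t := fun t => (hs.2.differentiable (by simp) t).hasDerivAt
  have tv : ∀ t, Pj (c t) (v t) = v t := fun t => Pj_deriv hc.mem (d1 t)
  have vv : ∀ t, ⟪v t, v t⟫ = 1 := hc.unit
  have na : ∀ t, Pj (c t) (a t) = 0 := fun t => by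
    have h1 := hc.el t _ ((tan_iff (hc.mem t)).2 (Pj_idem (hc.mem t) (a t)))
    have h2 : fderiv ℝ g0 (c t) = 0 := fderiv_const_apply _
    rw [h2] at h1
    have h3 := ((d2 t).inner ℝ (hasDerivAt_const t (Pj (c t) (a t)))).unique h1
    simp only [inner_zero_right, zero_add, zero_apply, mul_zero] at h3
    rwa [← Pj_idem (hc.mem t), ← Pj_symm, inner_self_eq_zero] at h3
  have ca : ∀ t, ⟪c t, a t⟫ = -1 := fun t => by
    have h1 := (d1 t).inner ℝ (d2 t)
    have h2 : (fun t => ⟪c t, v t⟫) = fun _ => 0 := funext fun t => ((Pj_eq_iff (hc.mem t)).1 (tv t)).2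
    rw [h2] at h1
    have := h1.unique (hasDerivAt_const _ _)
    linarith [vv t]
  have ea : ∀ t, a t = -c t - cr (c t) (cr (v t) (v t)) := fun t => by
    have h1 := (cr.hasFDerivAt.comp_hasDerivAt t (d1 t)).clm_apply (d2 t)
    have h2 : (fun t => (cr ∘ c) t (v t)) = fun _ => 0 :=
      funext fun t => ((Pj_eq_iff (hc.mem t)).1 (tv t)).1
    rw [h2] at h1
    have h3 := congrArg (cr (c t)) (h1.unique (hasDerivAt_const _ _))
    have h4 := na t
    rw [Pj_apply, ca] at h4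
    simp only [Function.comp_apply, map_add, map_zero] at h3
    linear_combination (norm := module) h4 + h3
  have d3 : ∀ t, HasDerivAt a ((-2 : ℝ) • v t) t := fun t => by
    have h1 := (d1 t).neg.sub ((cr.hasFDerivAt.comp_hasDerivAt t (d1 t)).clm_apply
      ((cr.hasFDerivAt.comp_hasDerivAt t (d2 t)).clm_apply (d2 t)))
    rw [funext ea]
    refine h1.congr_deriv ?_
    simp only [Function.comp_apply, map_add, cr_comm (a t), cr_cr_nor (hc.mem t) (tv t) (na t),
      cr_cr_self (hc.mem t) (tv t), vv]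
    module
  have hw : ∀ t, c t + (1 / 2 : ℝ) • a t = c 0 + (1 / 2 : ℝ) • a 0 := fun t =>
    is_const_of_deriv_eq_zero (f := fun t => c t + (1 / 2 : ℝ) • a t)
      (fun t => ((d1 t).add ((d3 t).const_smul (1 / 2 : ℝ))).differentiableAt)
      (fun t => ((d1 t).add ((d3 t).const_smul (1 / 2 : ℝ))).deriv.trans (by module)) t 0
  have s2 : √2 * √2 = 2 := mul_self_sqrt (by norm_num)
  have s0 : √2 ≠ 0 := by positivity
  set w := c 0 + (1 / 2 : ℝ) • a 0 with hw0
  set A := (-1 / 2 : ℝ) • a 0 with hA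
  set B := (√2)⁻¹ • v 0 with hB
  let f : ℝ → J := fun t => c t - (w + cos (√2 * t) • A + sin (√2 * t) • B)
  let f' : ℝ → J := fun t => v t - ((-sin (√2 * t) * √2) • A + (cos (√2 * t) * √2) • B)
  have l : ∀ t, HasDerivAt (fun t => √2 * t) √2 t := fun t => by
    simpa using (hasDerivAt_id t).const_mul √2
  have e1 : ∀ t, HasDerivAt f (f' t) t := fun t =>
    (d1 t).sub ((((l t).cos.smul_const A).const_add w).add ((l t).sin.smul_const B))
  have e2 : ∀ t, HasDerivAt f' ((-2 : ℝ) • f t) t := fun t => by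
    refine ((d2 t).sub ((((l t).sin.neg.mul_const √2).smul_const A).add
      (((l t).cos.mul_const √2).smul_const B))).congr_deriv ?_
    have h := hw t
    simp only [f, mul_assoc, neg_mul, s2]
    linear_combination (norm := module) (2 : ℝ) • h
  have e3 : ∀ t, HasDerivAt (fun t => 2 * ⟪f t, f t⟫ + ⟪f' t, f' t⟫) 0 t := fun t => by
    refine ((((e1 t).inner ℝ (e1 t)).const_mul 2).add ((e2 t).inner ℝ (e2 t))).congr_deriv ?_
    simp only [real_inner_smul_left, real_inner_smul_right, real_inner_comm (f t) (f' t)]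
    ring
  have f0 : f 0 = 0 := by
    simp only [f, mul_zero, cos_zero, sin_zero, hw0, hA]
    module
  have f0' : f' 0 = 0 := by
    simp only [f', mul_zero, cos_zero, sin_zero, hB, one_mul, smul_inv_smul₀ s0]
    module
  refine ⟨w, A, B, ?_, ?_, ?_, fun t => ?_⟩
  · rw [hw0, inner_add_right, real_inner_smul_right, ca, inner_self_mem (hc.mem 0)]
    norm_num
  · rw [hA, real_inner_smul_right, ca]
    norm_num
  · rw [hB, real_inner_smul_right, ((Pj_eq_iff (hc.mem 0)).1 (tv 0)).2, mul_zero]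
  · have h := is_const_of_deriv_eq_zero (fun t => (e3 t).differentiableAt) (fun t => (e3 t).deriv) t 0
    simp only [f0, f0', inner_zero_left, mul_zero, add_zero] at h
    have h1 := real_inner_self_nonneg (x := f t)
    have h2 := real_inner_self_nonneg (x := f' t)
    exact sub_eq_zero.1 (inner_self_eq_zero.1 (by linarith : ⟪f t, f t⟫ = 0))

theorem g0_per (c : ℝ → J) (hc : IsUnitGeodesic g0 c) (t : ℝ) : c (t + √2 * π) = c t := by
  obtain ⟨w, A, B, -, -, -, h⟩ := g0_form hc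
  have e : √2 * (t + √2 * π) = √2 * t + 2 * π := by
    rw [mul_add, ← mul_assoc, mul_self_sqrt (by norm_num)]
  rw [h, h t, e, cos_add_two_pi, sin_add_two_pi]

theorem g0_dist {γ : ℝ → J} {p y : J} (hγ : Joins γ p y) : arccos (2 * ⟪p, y⟫ - 1) ≤ √2 * len g0 γ := by
  have hp : p ∈ CaP := hγ.start ▸ hγ.mem 0
  have hs := contDiff_one_iff_deriv.1 hγ.smooth
  have d1 : ∀ s, HasDerivAt γ (deriv γ s) s := fun s => (hs.1 s).hasDerivAt
  have key : ∀ k ∈ Ioo (0 : ℝ) 1, arccos (k * (2 * ⟪p, y⟫ - 1)) - arccos k ≤ √2 * len g0 γ := by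
    intro k hk
    have hx : ∀ s, (k * (2 * ⟪p, γ s⟫ - 1)) ^ 2 ≤ k ^ 2 := fun s => by
      have h0 := inner_nonneg hp (hγ.mem s)
      have h1 := inner_le_one hp (hγ.mem s)
      rw [mul_pow]
      exact mul_le_of_le_one_right (sq_nonneg k) (by nlinarith)
    have hk2 : k ^ 2 < 1 := by nlinarith [hk.1, hk.2]
    have hd : ∀ s, HasDerivAt (fun s => arccos (k * (2 * ⟪p, γ s⟫ - 1)))
        (-(1 / √(1 - (k * (2 * ⟪p, γ s⟫ - 1)) ^ 2)) * (k * (2 * ⟪p, deriv γ s⟫))) s := fun s => by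
      have h1 : HasDerivAt (fun s => k * (2 * ⟪p, γ s⟫ - 1)) (k * (2 * ⟪p, deriv γ s⟫)) s := by
        simpa using ((((hasDerivAt_const s p).inner ℝ (d1 s)).const_mul 2).sub_const 1).const_mul k
      have h2 := (hx s).trans_lt hk2
      exact (hasDerivAt_arccos (fun e => by rw [e] at h2; norm_num at h2)
        (fun e => by rw [e] at h2; norm_num at h2)).comp s h1
    have hc : Continuous fun s => √2 * √(g0 (γ s) (deriv γ s) (deriv γ s)) :=
      continuous_const.mul (hs.2.inner hs.2).sqrt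
    have h := intervalIntegral.sub_le_integral_of_hasDeriv_right_of_le zero_le_one
      (fun s _ => (hd s).continuousAt.continuousWithinAt) (fun s _ => (hd s).hasDerivWithinAt)
      hc.integrableOn_Icc fun s _ => ?_
    · rw [intervalIntegral.integral_const_mul, hγ.start, hγ.stop, inner_self_mem hp] at h
      norm_num at h ⊢
      exact h
    have h0 : 0 < 1 - (k * (2 * ⟪p, γ s⟫ - 1)) ^ 2 := by linarith [hx s]
    have h1 := real_inner_mul_inner_self_le (Pj (γ s) p) (deriv γ s)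
    rw [inner_Pj_Pj (hγ.mem s) hp, Pj_symm, Pj_deriv hγ.mem (d1 s), real_inner_comm p (γ s)] at h1
    have h2 := real_inner_self_nonneg (x := deriv γ s)
    rw [g0_apply, ← sqrt_mul (by norm_num), neg_mul, one_div, inv_mul_eq_div, ← neg_div,
      div_le_iff₀ (sqrt_pos.2 h0), ← sqrt_mul (by positivity)]
    refine le_sqrt_of_sq_le ?_
    generalize ⟪p, deriv γ s⟫ = D at *
    generalize ⟪deriv γ s, deriv γ s⟫ = N at *
    generalize ⟪p, γ s⟫ = φ at *
    have h3 := mul_le_mul_of_nonneg_left h1 (sq_nonneg k)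
    nlinarith [mul_nonneg h2 (sub_nonneg.2 hk2.le)]
  have ht : Tendsto (fun k : ℝ => arccos (k * (2 * ⟪p, y⟫ - 1)) - arccos k) (𝓝[<] 1)
      (𝓝 (arccos (2 * ⟪p, y⟫ - 1))) := by
    have : Continuous fun k : ℝ => arccos (k * (2 * ⟪p, y⟫ - 1)) - arccos k :=
      (continuous_arccos.comp (continuous_id.mul continuous_const)).sub continuous_arccos
    simpa using (this.tendsto 1).mono_left nhdsWithin_le_nhds
  exact le_of_tendsto ht (mem_of_superset (Ioo_mem_nhdsLT one_pos) key)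

theorem g0_min (c : ℝ → J) (hc : IsUnitGeodesic g0 c) (t : ℝ) (ht : t ∈ Icc 0 (√2 * π / 2)) (γ : ℝ → J)
    (hγ : Joins γ (c 0) (c t)) : t ≤ len g0 γ := by
  obtain ⟨w, A, B, h1, h2, h3, h⟩ := g0_form hc
  have s0 : 0 < √2 := by positivity
  have s2 : √2 * √2 = 2 := mul_self_sqrt (by norm_num)
  have e : √2 * (√2 * π / 2) = π := by rw [← mul_div_assoc, ← mul_assoc, s2]; ring
  have k := g0_dist hγ
  rw [h t, inner_add_right, inner_add_right, real_inner_smul_right, real_inner_smul_right, h1, h2, h3,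
    show 2 * (1 / 2 + cos (√2 * t) * (1 / 2) + sin (√2 * t) * 0) - 1 = cos (√2 * t) by ring,
    arccos_cos (mul_nonneg s0.le ht.1) (e ▸ mul_le_mul_of_nonneg_left ht.2 s0.le)] at k
  exact le_of_mul_le_mul_left k s0

end Pool.Agent.Work.MP_8c604c_gt.OM
end
end

-- merged part: Pool.Agent.Work.MP_8c604c_gt.P.Mod
section
-- merged part: Pool.Agent.Work.MP_8c604c_gt.U.Abs
section
/-!
Abstract bridge: from the homogeneous model of a projective space to an embedded model.
-/

set_option maxSynthPendingDepth 3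
set_option linter.unusedSectionVars false

open Filter Topology Set
open scoped ContDiff LinearAlgebra.Projectivization

noncomputable section
namespace Pool.Agent.Work.MP_8c604c_gt.U

open OM.St

variable (K : Type) [DivisionRing K] {E W : Type} [NormedAddCommGroup E] [NormedSpace ℝ E] [Module K E]
  [NormedAddCommGroup W] [InnerProductSpace ℝ W]

structure UMetric (g : E → E →L[ℝ] E →L[ℝ] ℝ) : Prop where
  smooth : ContDiffOn ℝ ∞ g {0}ᶜ
  symm : ∀ z u w, z ≠ 0 → g z u w = g z w u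
  inv : ∀ (c : K) z u w, c ≠ 0 → z ≠ 0 → g (c • z) (c • u) (c • w) = g z u w
  vert : ∀ (c : K) z w, z ≠ 0 → g z (c • z) w = 0
  pos : ∀ z u, z ≠ 0 → (∀ c : K, u ≠ c • z) → 0 < g z u u

structure UGeo (g : E → E →L[ℝ] E →L[ℝ] ℝ) (z : ℝ → E) : Prop where
  smooth : ContDiff ℝ ∞ z
  ne : ∀ t, z t ≠ 0
  el : ∀ t η, HasDerivAt (fun s => g (z s) (deriv z s) η)
    (1 / 2 * fderiv ℝ g (z t) η (deriv z t) (deriv z t)) t
  unit : ∀ t, g (z t) (deriv z t) (deriv z t) = 1

def ulen (g : E → E →L[ℝ] E →L[ℝ] ℝ) (c : ℝ → E) : ℝ :=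
  ∫ t in (0 : ℝ)..1, √(g (c t) (deriv c t) (deriv c t))

structure UJoins (c : ℝ → E) (y y' : E) : Prop where
  smooth : ContDiff ℝ 1 c
  ne : ∀ s, c s ≠ 0
  start : c 0 = y
  stop : ∃ a : K, c 1 = a • y'

def UPull (fs : E → E → E → ℝ) (g : E → E →L[ℝ] E →L[ℝ] ℝ) (Ψ : ℙ K E → ℙ K E) (c : ℝ) : Prop :=
  ∀ z₀ : E, z₀ ≠ 0 → ∃ U : Set E, IsOpen U ∧ z₀ ∈ U ∧ ∃ F : E → E,
    ContDiffOn ℝ ∞ F U ∧ ∀ z ∈ U, ∃ (hz : z ≠ 0) (hF : F z ≠ 0),
      Ψ (Projectivization.mk K z hz) = Projectivization.mk K (F z) hF ∧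
      ∀ u w, g (F z) (fderiv ℝ F z u) (fderiv ℝ F z w) = c * fs z u w

/-- the rigidity statement upstairs -/
def URig (fs : E → E → E → ℝ) : Prop :=
  ∀ g : E → E →L[ℝ] E →L[ℝ] ℝ, UMetric K g → ∀ L : ℝ, 0 < L →
    (∀ z, UGeo g z → ∀ t, ∃ c : K, z (t + L) = c • z t) →
    (∀ z, UGeo g z → ∀ t ∈ Icc 0 (L / 2), ∀ c, UJoins K c (z 0) (z t) → t ≤ ulen g c) →
    ∃ (Ψ : ℙ K E → ℙ K E) (c : ℝ), Function.Bijective Ψ ∧ 0 < c ∧ UPull K fs g Ψ c

/-- the rigidity statement downstairs -/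
def DRig (S : Set W) : Prop :=
  ∀ (g : Met W), IsMetric S g → ∀ L : ℝ, 0 < L → (∀ c, IsUnitGeodesic S g c → ∀ t, c (t + L) = c t) →
    (∀ c, IsUnitGeodesic S g c → ∀ t ∈ Icc 0 (L / 2), ∀ γ, Joins S γ (c 0) (c t) → t ≤ len g γ) →
    ∃ (Ψ : W → W) (c : ℝ), BijOn Ψ S S ∧ 0 < c ∧ PullsBack S g Ψ c

/-- the data of the bridge -/
structure Brg {ι : Type} [Fintype ι] (S : Set W) (π : E → W) (fs : E → E → E → ℝ)
    (σ : ι → W →L[ℝ] E) (l : ι → E →L[ℝ] ℝ) : Prop where
  smooth : ∀ z, z ≠ 0 → ContDiffAt ℝ ∞ π z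
  mem : ∀ z, z ≠ 0 → π z ∈ S
  inv : ∀ (c : K) z, c ≠ 0 → π (c • z) = π z
  sec : ∀ p ∈ S, ∀ i, σ i p ≠ 0 → π (σ i p) = p
  cov : ∀ p ∈ S, ∑ i, l i (σ i p) = 1
  line : ∀ z, z ≠ 0 → ∀ i, ∃ a : K, σ i (π z) = a • z
  met : ∀ z, z ≠ 0 → ∀ u w, inner ℝ (fderiv ℝ π z u) (fderiv ℝ π z w) = 2 * fs z u w
  vert : ∀ (c : K) z, z ≠ 0 → fderiv ℝ π z (c • z) = 0
  ker : ∀ z u, z ≠ 0 → fderiv ℝ π z u = 0 → ∃ c : K, u = c • z

/-- pull-back of a family of forms -/
def pb (π : E → W) (g : Met W) : E → E →L[ℝ] E →L[ℝ] ℝ := fun z =>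
  ((ContinuousLinearMap.compL ℝ E W ℝ).flip (fderiv ℝ π z)).comp ((g (π z)).comp (fderiv ℝ π z))

theorem pb_apply (π : E → W) (g : Met W) (z u w : E) :
    pb π g z u w = g (π z) (fderiv ℝ π z u) (fderiv ℝ π z w) := rfl

theorem contDiffAt_pb {π : E → W} {g : Met W} {z : E} (hπ : ContDiffAt ℝ ∞ π z)
    (hg : ContDiffAt ℝ ∞ g (π z)) : ContDiffAt ℝ ∞ (pb π g) z := by
  have h1 : ContDiffAt ℝ ∞ (fderiv ℝ π) z := hπ.fderiv_right (by simp)
  exact (((ContinuousLinearMap.compL ℝ E W ℝ).flip.contDiff.contDiffAt.comp z h1)).clm_comp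
    ((hg.comp z hπ).clm_comp h1)

theorem fderiv_pb {π : E → W} {g : Met W} {z : E} (hπ : ContDiffAt ℝ ∞ π z)
    (hg : ContDiffAt ℝ ∞ g (π z)) (η u w : E) :
    fderiv ℝ (pb π g) z η u w =
      fderiv ℝ g (π z) (fderiv ℝ π z η) (fderiv ℝ π z u) (fderiv ℝ π z w) +
      g (π z) (fderiv ℝ (fderiv ℝ π) z η u) (fderiv ℝ π z w) +
      g (π z) (fderiv ℝ π z u) (fderiv ℝ (fderiv ℝ π) z η w) := by
  have h0 : HasFDerivAt π (fderiv ℝ π z) z := (hπ.differentiableAt (by simp)).hasFDerivAt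
  have h1 : HasFDerivAt (fderiv ℝ π) (fderiv ℝ (fderiv ℝ π) z) z :=
    ((hπ.fderiv_right (m := ∞) (by simp)).differentiableAt (by simp)).hasFDerivAt
  have h2 : HasFDerivAt (fun q => g (π q)) ((fderiv ℝ g (π z)).comp (fderiv ℝ π z)) z :=
    (hg.differentiableAt (by simp)).hasFDerivAt.comp z h0
  have h3 := ((ContinuousLinearMap.compL ℝ E W ℝ).flip.hasFDerivAt.comp z h1).clm_comp (h2.clm_comp h1)
  have h4 : fderiv ℝ (pb π g) z = _ := h3.fderiv
  rw [h4]
  simp
  ring

theorem deriv_cmp {π : E → W} {c : ℝ → E} {t : ℝ} (hπ : DifferentiableAt ℝ π (c t))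
    (hc : DifferentiableAt ℝ c t) : deriv (fun s => π (c s)) t = fderiv ℝ π (c t) (deriv c t) :=
  (hπ.hasFDerivAt.comp_hasDerivAt t hc.hasDerivAt).deriv

variable {K} {ι : Type} [Fintype ι] {S : Set W} {π : E → W} {fs : E → E → E → ℝ}
  {σ : ι → W →L[ℝ] E} {l : ι → E →L[ℝ] ℝ}

namespace Brg

theorem diff (B : Brg K S π fs σ l) {z : E} (hz : z ≠ 0) : DifferentiableAt ℝ π z :=
  (B.smooth z hz).differentiableAt (by simp)

theorem ex (B : Brg K S π fs σ l) {p : W} (hp : p ∈ S) : ∃ i, σ i p ≠ 0 := by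
  by_contra h
  push Not at h
  have := B.cov p hp
  simp [h] at this

theorem eq_of (B : Brg K S π fs σ l) {z z' : E} (hz : z ≠ 0) (hz' : z' ≠ 0) (h : π z' = π z) :
    ∃ c : K, z' = c • z := by
  obtain ⟨i, hi⟩ := B.ex (B.mem z' hz')
  obtain ⟨a, ha⟩ := B.line z hz i
  obtain ⟨b, hb⟩ := B.line z' hz' i
  have hb0 : b ≠ 0 := fun e => hi (by rw [hb, e, zero_smul])
  refine ⟨b⁻¹ * a, ?_⟩
  rw [mul_smul, ← ha, ← h, hb, smul_smul, inv_mul_cancel₀ hb0, one_smul]

variable [SMulCommClass ℝ K E] [ContinuousConstSMul K E]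

theorem fderiv_inv (B : Brg K S π fs σ l) {c : K} (hc : c ≠ 0) {z : E} (hz : z ≠ 0) (u : E) :
    fderiv ℝ π (c • z) (c • u) = fderiv ℝ π z u := by
  have h1 : HasFDerivAt (fun y : E => c • y) (c • ContinuousLinearMap.id ℝ E) z :=
    (hasFDerivAt_id z).const_smul c
  have h2 := (B.diff (smul_ne_zero hc hz)).hasFDerivAt.comp z h1
  have h3 : (π ∘ fun y : E => c • y) = π := funext fun y => B.inv c y hc
  rw [h3] at h2
  rw [h2.fderiv]
  rfl

theorem tan (B : Brg K S π fs σ l) {z : E} (hz : z ≠ 0) (u : E) : Tan S (π z) (fderiv ℝ π z u) := by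
  by_cases h : ∃ c : K, u = c • z
  · obtain ⟨c, rfl⟩ := h
    rw [B.vert c z hz]
    exact ⟨fun _ => π z, contDiff_const, fun _ => B.mem z hz, rfl, deriv_const _ _⟩
  · have hne : ∀ t : ℝ, z + t • u ≠ 0 := fun t e => by
      have ht : t ≠ 0 := fun e0 => hz (by simpa [e0] using e)
      have e1 : u = (-t⁻¹) • ((1 : K) • z) := by
        rw [one_smul, eq_neg_of_add_eq_zero_left e, smul_neg, neg_smul, neg_neg, smul_smul,
          inv_mul_cancel₀ ht, one_smul]
      refine h (B.ker z u hz ?_)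
      rw [e1, map_smul, B.vert 1 z hz, smul_zero]
    have hc : ContDiff ℝ ∞ fun t : ℝ => z + t • u := contDiff_const.add (contDiff_id.smul contDiff_const)
    refine ⟨fun t => π (z + t • u), contDiff_iff_contDiffAt.2 fun t =>
      (B.smooth _ (hne t)).comp t hc.contDiffAt, fun t => B.mem _ (hne t), by simp, ?_⟩
    rw [deriv_cmp (c := fun t : ℝ => z + t • u) (B.diff (hne 0)) (hc.differentiable (by simp) 0)]
    have : deriv (fun t : ℝ => z + t • u) 0 = u := by
      simpa using (((hasDerivAt_id (0 : ℝ)).smul_const u).const_add z).deriv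
    rw [this]
    simp

/-- two maps that agree on `S` near `p` have the same derivative on tangent vectors -/
theorem tan_congr {W' : Type} [NormedAddCommGroup W'] [NormedSpace ℝ W'] {f f' : W → W'} {p u : W}
    (hu : Tan S p u) (hf : DifferentiableAt ℝ f p) (hf' : DifferentiableAt ℝ f' p)
    (h : ∀ᶠ q in 𝓝 p, q ∈ S → f q = f' q) : fderiv ℝ f p u = fderiv ℝ f' p u := by
  obtain ⟨c, h1, h2, rfl, rfl⟩ := hu
  have hc : DifferentiableAt ℝ c 0 := h1.differentiable (by simp) 0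
  rw [← (hf.hasFDerivAt.comp_hasDerivAt 0 hc.hasDerivAt).deriv,
    ← (hf'.hasFDerivAt.comp_hasDerivAt 0 hc.hasDerivAt).deriv]
  exact Filter.EventuallyEq.deriv_eq ((hc.continuousAt.eventually h).mono fun t ht => ht (h2 t))

theorem tan_sec (B : Brg K S π fs σ l) {p u : W} (hu : Tan S p u) {i : ι} (hi : σ i p ≠ 0) :
    fderiv ℝ π (σ i p) (σ i u) = u := by
  have h1 := (B.diff hi).hasFDerivAt.comp p (σ i).hasFDerivAt
  have h2 := tan_congr hu h1.differentiableAt differentiableAt_id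
    (((σ i).continuous.continuousAt.eventually_ne hi).mono fun q hq hS => B.sec q hS i hq)
  rw [h1.fderiv, fderiv_id] at h2
  exact h2

theorem tan_surj (B : Brg K S π fs σ l) {z : E} (hz : z ≠ 0) {η : W} (hη : Tan S (π z) η) :
    ∃ u, fderiv ℝ π z u = η := by
  obtain ⟨i, hi⟩ := B.ex (B.mem z hz)
  obtain ⟨a, ha⟩ := B.line z hz i
  have ha0 : a ≠ 0 := fun e => hi (by rw [ha, e, zero_smul])
  refine ⟨a⁻¹ • σ i η, ?_⟩
  rw [← B.fderiv_inv ha0 hz, smul_smul, mul_inv_cancel₀ ha0, one_smul, ← ha, B.tan_sec hη hi]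

theorem umetric (B : Brg K S π fs σ l) {g : Met W} (hg : IsMetric S g) : UMetric K (pb π g) where
  smooth z hz := (contDiffAt_pb (B.smooth z hz) (hg.smooth _ (B.mem z hz))).contDiffWithinAt
  symm z u w hz := hg.symm _ (B.mem z hz) _ _
  inv c z u w hc hz := by
    rw [pb_apply, pb_apply, B.inv c z hc, B.fderiv_inv hc hz, B.fderiv_inv hc hz]
  vert c z w hz := by rw [pb_apply, B.vert c z hz, map_zero, zero_apply]
  pos z u hz hu := hg.pos _ (B.mem z hz) _ (B.tan hz u) fun e => by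
    obtain ⟨c, hc⟩ := B.ker z u hz e
    exact hu c hc

theorem geo (B : Brg K S π fs σ l) {g : Met W} (hg : IsMetric S g) {z : ℝ → E}
    (hz : UGeo (pb π g) z) : IsUnitGeodesic S g fun t => π (z t) := by
  have hzd : ∀ t, DifferentiableAt ℝ z t := fun t => hz.smooth.differentiable (by simp) t
  have hd : ∀ t, deriv (fun t => π (z t)) t = fderiv ℝ π (z t) (deriv z t) := fun t =>
    deriv_cmp (B.diff (hz.ne t)) (hzd t)
  have hs : ContDiff ℝ ∞ fun t => π (z t) := contDiff_iff_contDiffAt.2 fun t =>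
    (B.smooth _ (hz.ne t)).comp t hz.smooth.contDiffAt
  refine ⟨hs, fun t => B.mem _ (hz.ne t), fun t η hη => ?_, fun t => by rw [hd]; exact hz.unit t⟩
  obtain ⟨u, rfl⟩ := B.tan_surj (hz.ne t) hη
  have hm := B.mem _ (hz.ne t)
  have k1 := hz.el t u
  rw [fderiv_pb (B.smooth _ (hz.ne t)) (hg.smooth _ hm)] at k1
  have hA : DifferentiableAt ℝ (fun s => g (π (z s)) (deriv (fun t => π (z t)) s)) t :=
    (((hg.smooth _ hm).differentiableAt (by simp)).comp t (hs.differentiable (by simp) t)).clm_apply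
      ((hs.iterate_deriv 1).differentiable (by simp) t)
  have hD : HasDerivAt (fun s => fderiv ℝ π (z s) u) (fderiv ℝ (fderiv ℝ π) (z t) (deriv z t) u) t := by
    have := ((((B.smooth _ (hz.ne t)).fderiv_right (m := ∞) (by simp)).differentiableAt
      (by simp)).hasFDerivAt.comp_hasDerivAt t (hzd t).hasDerivAt).clm_apply (hasDerivAt_const t u)
    simpa using this
  have k2 := hA.hasDerivAt.clm_apply hD
  have k3 := hA.hasDerivAt.clm_apply (hasDerivAt_const t (fderiv ℝ π (z t) u))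
  have k4 := k2.unique (k1.congr_of_eventuallyEq (Eventually.of_forall fun s => by
    simp only [pb_apply, hd]))
  have sy : fderiv ℝ (fderiv ℝ π) (z t) (deriv z t) u = fderiv ℝ (fderiv ℝ π) (z t) u (deriv z t) :=
    ((B.smooth _ (hz.ne t)).isSymmSndFDerivAt (by
      rw [minSmoothness_of_isRCLikeNormedField]; exact WithTop.coe_le_coe.2 (le_top (a := (2 : ℕ∞))))).eq _ _
  refine k3.congr_deriv ?_
  rw [sy, hd, hg.symm _ hm (fderiv ℝ (fderiv ℝ π) (z t) u (deriv z t))] at k4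
  rw [hd, map_zero]
  linarith

theorem joins (B : Brg K S π fs σ l) {c : ℝ → E} {y y' : E} (hc : UJoins K c y y') :
    Joins S (fun t => π (c t)) (π y) (π y') := by
  refine ⟨contDiff_iff_contDiffAt.2 fun t =>
    ((B.smooth _ (hc.ne t)).of_le (by simp)).comp t hc.smooth.contDiffAt, fun t => B.mem _ (hc.ne t),
    congrArg π hc.start, ?_⟩
  obtain ⟨a, ha⟩ := hc.stop
  have : a ≠ 0 := fun e => hc.ne 1 (by rw [ha, e, zero_smul])
  rw [ha, B.inv a y' this]

theorem len_eq (B : Brg K S π fs σ l) (g : Met W) {c : ℝ → E} {y y' : E} (hc : UJoins K c y y') :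
    len g (fun t => π (c t)) = ulen (pb π g) c := by
  unfold len ulen
  refine intervalIntegral.integral_congr fun t _ => ?_
  simp only [pb_apply, deriv_cmp (B.diff (hc.ne t)) (hc.smooth.differentiable (by simp) t)]

theorem pi_rep (B : Brg K S π fs σ l) {z : E} (hz : z ≠ 0) :
    π (Projectivization.mk K z hz).rep = π z := by
  obtain ⟨a, ha⟩ := Projectivization.exists_smul_eq_mk_rep K z hz
  rw [← ha, Units.smul_def, B.inv _ _ a.ne_zero]

theorem mk_eq (B : Brg K S π fs σ l) {z z' : E} (hz : z ≠ 0) (hz' : z' ≠ 0) (h : π z' = π z) :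
    Projectivization.mk K z' hz' = Projectivization.mk K z hz := by
  obtain ⟨c, hc⟩ := B.eq_of hz hz' h
  exact (Projectivization.mk_eq_mk_iff' K _ _ hz' hz).2 ⟨c, hc.symm⟩

/-- a map on `E` that is smooth off `0` and constant on lines extends smoothly along `S` -/
theorem exists_ext (B : Brg K S π fs σ l) {G : E → W} (hG : ∀ z, z ≠ 0 → ContDiffAt ℝ ∞ G z)
    (hi : ∀ z z', z ≠ 0 → z' ≠ 0 → π z' = π z → G z' = G z) :
    ∃ Ψ : W → W, (∀ p ∈ S, ContDiffAt ℝ ∞ Ψ p) ∧ ∀ z, z ≠ 0 → Ψ (π z) = G z := by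
  set ε : ℝ := 1 / (Fintype.card ι + 1) with hε
  have ε0 : 0 < ε := by positivity
  let φ : ι → W → ℝ := fun i q => expNegInvGlue (l i (σ i q) - ε)
  have φs : ∀ i, ContDiff ℝ ∞ (φ i) := fun i =>
    expNegInvGlue.contDiff.comp (((l i).contDiff.comp (σ i).contDiff).sub contDiff_const)
  have φp : ∀ p ∈ S, 0 < ∑ i, φ i p := fun p hp => by
    have : ∃ i, ε < l i (σ i p) := by
      by_contra h
      push Not at h
      have h1 := Finset.sum_le_card_nsmul Finset.univ _ _ fun i _ => h i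
      rw [B.cov p hp, Finset.card_univ, nsmul_eq_mul, hε, mul_one_div,
        le_div_iff₀ (by positivity)] at h1
      linarith
    obtain ⟨i, h⟩ := this
    exact Finset.sum_pos' (fun j _ => expNegInvGlue.nonneg _)
      ⟨i, Finset.mem_univ _, expNegInvGlue.pos_of_pos (sub_pos.2 h)⟩
  refine ⟨fun q => (∑ i, φ i q)⁻¹ • ∑ i, φ i q • G (σ i q), fun p hp => ?_, fun z hz => ?_⟩
  · refine ((ContDiffAt.sum fun i _ => (φs i).contDiffAt).inv (φp p hp).ne').smul
      (ContDiffAt.sum fun i _ => ?_)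
    by_cases h : σ i p = 0
    · refine (contDiffAt_const (c := (0 : W))).congr_of_eventuallyEq ?_
      have h1 : ∀ᶠ q in 𝓝 p, l i (σ i q) < ε :=
        ((l i).continuous.comp (σ i).continuous).continuousAt.eventually_lt continuousAt_const
          (by simpa [h] using ε0)
      refine h1.mono fun q hq => ?_
      simp only [φ, expNegInvGlue.zero_of_nonpos (sub_nonpos.2 hq.le), zero_smul]
    · exact (φs i).contDiffAt.smul ((hG _ h).comp p (σ i).contDiff.contDiffAt)
  · have hp := B.mem z hz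
    have : ∀ i, φ i (π z) • G (σ i (π z)) = φ i (π z) • G z := fun i => by
      by_cases h : σ i (π z) = 0
      · simp only [φ, h, map_zero, expNegInvGlue.zero_of_nonpos (sub_nonpos.2 ε0.le), zero_smul]
      · rw [hi z _ hz h (B.sec _ hp i h)]
    simp only [this]
    rw [← Finset.sum_smul, smul_smul, inv_mul_cancel₀ (φp _ hp).ne', one_smul]

theorem rig (B : Brg K S π fs σ l) (H : URig K fs) : DRig S := by
  classical
  intro g hg L hL hper hmin
  obtain ⟨Ψ, c, hb, hc, hP⟩ := H (pb π g) (B.umetric hg) L hL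
    (fun z hz t => B.eq_of (hz.ne t) (hz.ne _) (hper _ (B.geo hg hz) t))
    (fun z hz t ht γ hγ => (hmin _ (B.geo hg hz) t ht _ (B.joins hγ)).trans_eq (B.len_eq g hγ))
  let G : E → W := fun z => if h : z = 0 then 0 else π (Ψ (Projectivization.mk K z h)).rep
  have hG : ∀ z (h : z ≠ 0), G z = π (Ψ (Projectivization.mk K z h)).rep := fun z h => dif_neg h
  have loc : ∀ z, z ≠ 0 → ∃ F : E → E, ContDiffAt ℝ ∞ F z ∧ F z ≠ 0 ∧ G =ᶠ[𝓝 z] (fun y => π (F y)) ∧
      ∀ u w, pb π g (F z) (fderiv ℝ F z u) (fderiv ℝ F z w) = c * fs z u w := fun z hz => by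
    obtain ⟨U, hU, h0, F, hF, h⟩ := hP z hz
    obtain ⟨_, h2, _, h4⟩ := h z h0
    refine ⟨F, hF.contDiffAt (hU.mem_nhds h0), h2, Filter.mem_of_superset (hU.mem_nhds h0) fun y hy => ?_, h4⟩
    obtain ⟨k1, k2, k3, _⟩ := h y hy
    show G y = π (F y)
    rw [hG y k1, k3, B.pi_rep]
  have Gs : ∀ z, z ≠ 0 → ContDiffAt ℝ ∞ G z := fun z hz => by
    obtain ⟨F, h1, h2, h3, _⟩ := loc z hz
    exact ((B.smooth _ h2).comp z h1).congr_of_eventuallyEq h3
  obtain ⟨Φ, hΦ, e⟩ := B.exists_ext Gs fun z z' hz hz' h => by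
    rw [hG z hz, hG z' hz', B.mk_eq hz hz' h]
  have sur : ∀ p ∈ S, ∃ z, z ≠ 0 ∧ π z = p := fun p hp => by
    obtain ⟨i, hi⟩ := B.ex hp
    exact ⟨_, hi, B.sec p hp i hi⟩
  refine ⟨Φ, c / 2, ⟨fun p hp => ?_, fun p hp q hq h => ?_, fun p hp => ?_⟩, half_pos hc,
    fun p hp => ⟨hΦ p hp, fun u w hu hw => ?_⟩⟩
  · obtain ⟨z, hz, rfl⟩ := sur p hp
    rw [e z hz, hG z hz]
    exact B.mem _ (Projectivization.rep_nonzero _)
  · obtain ⟨z, hz, rfl⟩ := sur p hp
    obtain ⟨y, hy, rfl⟩ := sur q hq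
    rw [e z hz, e y hy, hG z hz, hG y hy] at h
    have h1 := B.mk_eq (Projectivization.rep_nonzero _) (Projectivization.rep_nonzero _) h
    rw [Projectivization.mk_rep, Projectivization.mk_rep] at h1
    rw [← B.pi_rep hz, hb.1 h1, B.pi_rep hy]
  · obtain ⟨z, hz, rfl⟩ := sur p hp
    obtain ⟨x, hx⟩ := hb.2 (Projectivization.mk K z hz)
    refine ⟨π x.rep, B.mem _ x.rep_nonzero, ?_⟩
    rw [e _ x.rep_nonzero, hG _ x.rep_nonzero, x.mk_rep, hx, B.pi_rep]
  · obtain ⟨i, hi⟩ := B.ex hp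
    obtain ⟨F, h1, h2, h3, h4⟩ := loc _ hi
    have d1 := ((Gs _ hi).differentiableAt (by simp)).hasFDerivAt.comp p (σ i).hasFDerivAt
    have d2 : fderiv ℝ G (σ i p) = (fderiv ℝ π (F (σ i p))).comp (fderiv ℝ F (σ i p)) := by
      rw [h3.fderiv_eq]
      exact ((B.diff h2).hasFDerivAt.comp _ (h1.differentiableAt (by simp)).hasFDerivAt).fderiv
    have d3 : ∀ v, Tan S p v →
        fderiv ℝ Φ p v = fderiv ℝ π (F (σ i p)) (fderiv ℝ F (σ i p) (σ i v)) := fun v hv => by
      rw [tan_congr hv ((hΦ p hp).differentiableAt (by simp)) d1.differentiableAt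
        (((σ i).continuous.continuousAt.eventually_ne hi).mono fun q hq hS => by
          rw [Function.comp_apply, ← e _ hq, B.sec q hS i hq]), d1.fderiv, d2]
      rfl
    have d4 : Φ p = π (F (σ i p)) := by
      rw [← h3.eq_of_nhds, ← e _ hi, B.sec p hp i hi]
    have d5 := B.met _ hi (σ i u) (σ i w)
    rw [B.tan_sec hu hi, B.tan_sec hw hi] at d5
    rw [d3 u hu, d3 w hw, d4, ← pb_apply, h4, d5]
    ring

end Brg

end Pool.Agent.Work.MP_8c604c_gt.U
end
end

-- merged part: Pool.Agent.Work.MP_8c604c_gt.U.Prj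
section
/-!
The projector model of the projective space of an associative division algebra inside the octonions.
-/

set_option maxSynthPendingDepth 3
set_option linter.unusedSectionVars false

open Filter Topology Set
open scoped ContDiff

noncomputable section
namespace Pool.Agent.Work.MP_8c604c_gt.U

open OM.St

variable {K : Type} [NormedDivisionRing K] [StarRing K] [NormedAlgebra ℝ K] [StarModule ℝ K]
  [FiniteDimensional ℝ K] {V : Type} [NormedAddCommGroup V] [InnerProductSpace ℝ V] [FiniteDimensional ℝ V]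

/-- operations on the ambient algebra -/
structure Ops (V : Type) where
  P : V → Prop
  mul : V → V → V
  st : V → V
  one : V

/-- `K` as a subalgebra of the ambient algebra -/
structure Emb (d : Ops V) (e : K →L[ℝ] V) (p : V →L[ℝ] K) (r : K →L[ℝ] ℝ) : Prop where
  pe : ∀ a, p (e a) = a
  ep : ∀ x, d.P x → e (p x) = x
  ink : ∀ a, d.P (e a)
  mul : ∀ a b, d.mul (e a) (e b) = e (a * b)
  st : ∀ a, d.st (e a) = e (star a)
  one : e 1 = d.one
  inn : ∀ a b, inner ℝ (e a) (e b) = r (a * star b)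
  comm : ∀ a b, r (a * b) = r (b * a)
  rst : ∀ a, star a = (2 * r a) • (1 : K) - a
  r1 : r 1 = 1

abbrev EK (K : Type) (n : ℕ) : Type := PiLp 2 fun _ : Fin (n + 1) => K

abbrev MV (V : Type) (n : ℕ) : Type := PiLp 2 fun _ : Fin (n + 1) × Fin (n + 1) => V

def KG (d : Ops V) (n : ℕ) : Set (MV V n) :=
  {X | (∀ i j, d.P (X (i, j))) ∧ (∀ i j, X (j, i) = d.st (X (i, j))) ∧
    (∀ i j, ∑ k, d.mul (X (i, k)) (X (k, j)) = X (i, j)) ∧ ∑ i, X (i, i) = d.one}

variable {n : ℕ} {d : Ops V}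

/-- the Hermitian form -/
def hh (a b : EK K n) : K := ∑ i, a i * star (b i)

def nB (r : K →L[ℝ] ℝ) : EK K n →L[ℝ] EK K n →L[ℝ] ℝ :=
  LinearMap.toContinuousBilinearMap (LinearMap.mk₂ ℝ (fun a b => r (hh a b))
    (fun a a' b => by simp [hh, add_mul, Finset.sum_add_distrib])
    (fun c a b => by simp [hh, Finset.mul_sum])
    (fun a b b' => by simp [hh, mul_add, Finset.sum_add_distrib])
    fun c a b => by simp [hh, Finset.mul_sum])

def mB (e : K →L[ℝ] V) : EK K n →L[ℝ] EK K n →L[ℝ] MV V n :=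
  LinearMap.toContinuousBilinearMap (LinearMap.mk₂ ℝ
    (fun a b => WithLp.toLp 2 fun ij => e (star (a ij.1) * b ij.2))
    (fun a a' b => PiLp.ext fun ij => by simp [add_mul])
    (fun c a b => PiLp.ext fun ij => by simp)
    (fun a b b' => PiLp.ext fun ij => by simp [mul_add])
    fun c a b => PiLp.ext fun ij => by simp)

theorem nB_apply (r : K →L[ℝ] ℝ) (a b : EK K n) : nB r a b = r (hh a b) := rfl

theorem mB_apply (e : K →L[ℝ] V) (a b : EK K n) (i j : Fin (n + 1)) :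
    mB e a b (i, j) = e (star (a i) * b j) := rfl

/-- the projector on the line of `z` -/
def prj (e : K →L[ℝ] V) (r : K →L[ℝ] ℝ) (z : EK K n) : MV V n := (nB r z z)⁻¹ • mB e z z

/-- the rows of a matrix -/
def row (p : V →L[ℝ] K) (i : Fin (n + 1)) : MV V n →L[ℝ] EK K n :=
  LinearMap.toContinuousLinearMap
    { toFun := fun X => WithLp.toLp 2 fun j => p (X (i, j))
      map_add' := fun X Y => PiLp.ext fun j => by simp
      map_smul' := fun c X => PiLp.ext fun j => by simp }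

theorem row_apply (p : V →L[ℝ] K) (i j : Fin (n + 1)) (X : MV V n) : row p i X j = p (X (i, j)) := rfl

def crd (r : K →L[ℝ] ℝ) (i : Fin (n + 1)) : EK K n →L[ℝ] ℝ :=
  r.comp (PiLp.proj 2 (fun _ : Fin (n + 1) => K) i)

/-- the standard metric upstairs -/
def fsK (r : K →L[ℝ] ℝ) (z u w : EK K n) : ℝ :=
  (r (hh z z) * r (hh u w) - r (hh u z * star (hh w z))) / r (hh z z) ^ 2

theorem star_hh (a b : EK K n) : star (hh a b) = hh b a := by
  simp [hh]

theorem hh_smul (c : K) (a b : EK K n) : hh (c • a) b = c * hh a b := by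
  simp [hh, Finset.mul_sum, mul_assoc]

theorem hh_sub (a a' b : EK K n) : hh (a - a') b = hh a b - hh a' b := by
  simp [hh, sub_mul]

variable {e : K →L[ℝ] V} {p : V →L[ℝ] K} {r : K →L[ℝ] ℝ}

namespace Emb

theorem r_star (A : Emb d e p r) (a : K) : r (star a) = r a := by
  rw [A.rst, map_sub, map_smul, A.r1, smul_eq_mul]
  ring

theorem real (A : Emb d e p r) {a : K} (h : star a = a) : a = r a • (1 : K) := by
  have h1 := A.rst a
  rw [h, eq_sub_iff_add_eq, ← two_smul ℝ, mul_smul] at h1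
  exact smul_right_injective K two_ne_zero h1

theorem nn (A : Emb d e p r) (a : K) : 0 ≤ r (a * star a) := by
  rw [← A.inn]
  exact real_inner_self_nonneg

theorem eq_zero (A : Emb d e p r) {a : K} (h : r (a * star a) = 0) : a = 0 := by
  rw [← A.inn, inner_self_eq_zero] at h
  rw [← A.pe a, h, map_zero]

theorem hh_eq_zero (A : Emb d e p r) {z : EK K n} (h : r (hh z z) = 0) : z = 0 := by
  rw [hh, map_sum, Finset.sum_eq_zero_iff_of_nonneg fun i _ => A.nn _] at h
  exact PiLp.ext fun i => A.eq_zero (h i (Finset.mem_univ i))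

theorem hh_self (A : Emb d e p r) (z : EK K n) : hh z z = r (hh z z) • (1 : K) := A.real (star_hh z z)

theorem star_mul_self (A : Emb d e p r) (a : K) : star a * a = a * star a := by
  rw [A.real (a := star a * a) (by simp), A.real (a := a * star a) (by simp), A.comm]

theorem inner_mB (A : Emb d e p r) (a b c f : EK K n) :
    inner ℝ (mB e a b) (mB e c f) = r (hh c a * hh b f) := by
  rw [PiLp.inner_apply, Fintype.sum_prod_type, hh, hh, Finset.sum_mul_sum, map_sum]
  refine Finset.sum_congr rfl fun i _ => ?_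
  rw [map_sum]
  refine Finset.sum_congr rfl fun j _ => ?_
  rw [mB_apply, mB_apply, A.inn, star_mul, star_star, ← mul_assoc, A.comm]
  simp only [mul_assoc]

theorem hasFDerivAt (A : Emb d e p r) {z : EK K n} (hz : z ≠ 0) (u : EK K n) :
    fderiv ℝ (prj e r) z u = (r (hh z z))⁻¹ • (mB e z u + mB e u z) -
      (2 * r (hh u z) / r (hh z z) ^ 2) • mB e z z := by
  have h0 : nB r z z ≠ 0 := fun h => hz (A.hh_eq_zero h)
  have h1 : HasFDerivAt (fun y => nB r y y) _ z := (nB (n := n) r).hasFDerivAt.clm_apply (hasFDerivAt_id z)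
  have h2 := (mB (n := n) e).hasFDerivAt.clm_apply (hasFDerivAt_id z)
  have h3 : fderiv ℝ (prj e r) z = _ :=
    (((hasDerivAt_inv h0).comp_hasFDerivAt (f := fun y => nB r y y) z h1).smul h2).fderiv
  have h4 : r (hh z u) = r (hh u z) := by rw [← star_hh, A.r_star]
  rw [h3]
  simp [nB_apply, h4]
  rw [sub_eq_add_neg, ← neg_smul]
  congr 2
  field_simp
  ring

theorem met (A : Emb d e p r) {z : EK K n} (hz : z ≠ 0) (u w : EK K n) :
    inner ℝ (fderiv ℝ (prj e r) z u) (fderiv ℝ (prj e r) z w) = 2 * fsK r z u w := by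
  have h0 : r (hh z z) ≠ 0 := fun h => hz (A.hh_eq_zero h)
  have h1 : ∀ a, r (hh z z * a) = r (hh z z) * r a := fun a => by
    conv_lhs => rw [A.hh_self, smul_mul_assoc, one_mul, map_smul, smul_eq_mul]
  have h2 : ∀ a, r (a * hh z z) = r (hh z z) * r a := fun a => by rw [A.comm, h1]
  have h3 : ∀ a b : EK K n, r (hh b a) = r (hh a b) := fun a b => by rw [← star_hh, A.r_star]
  have h4 : r (hh u z * star (hh w z)) = 2 * r (hh w z) * r (hh u z) - r (hh u z * hh w z) := by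
    rw [A.rst, mul_sub, mul_smul_comm, mul_one, map_sub, map_smul, smul_eq_mul]
  have h5 : r (hh z u * hh z w) = r (hh u z * hh w z) := by
    rw [← A.r_star, star_mul, star_hh, star_hh, A.comm]
  rw [A.hasFDerivAt hz, A.hasFDerivAt hz, fsK, h4]
  simp only [inner_sub_left, inner_sub_right, real_inner_smul_left, real_inner_smul_right, inner_add_left,
    inner_add_right, A.inner_mB, h1, h2, h3 u z, h3 w z, h3 u w, h5, A.comm (hh w z) (hh u z)]
  field_simp
  ring

theorem prj_apply (z : EK K n) (i j : Fin (n + 1)) :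
    prj e r z (i, j) = e ((r (hh z z))⁻¹ • (star (z i) * z j)) := by
  rw [map_smul]
  rfl

theorem mem_KP (A : Emb d e p r) {X : MV V n} {x : Fin (n + 1) → Fin (n + 1) → K}
    (h : ∀ i j, X (i, j) = e (x i j)) : X ∈ KG d n ↔
      (∀ i j, x j i = star (x i j)) ∧ (∀ i j, ∑ k, x i k * x k j = x i j) ∧ ∑ i, x i i = 1 := by
  have inj : ∀ {a b}, e a = e b ↔ a = b := fun {a b} =>
    ⟨fun h => by rw [← A.pe a, h, A.pe], fun h => by rw [h]⟩
  simp only [KG, mem_ofPred_eq, h, A.ink, A.mul, A.st, ← A.one, ← map_sum, inj, implies_true, true_and]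

theorem prj_alg (A : Emb d e p r) {z : EK K n} (hz : z ≠ 0) {y : Fin (n + 1) → Fin (n + 1) → K}
    (hy : ∀ i j, y i j = (r (hh z z))⁻¹ • (star (z i) * z j)) :
    (∀ i j, y j i = star (y i j)) ∧ (∀ i j, ∑ k, y i k * y k j = y i j) ∧ ∑ i, y i i = 1 := by
  have h0 : r (hh z z) ≠ 0 := fun h => hz (A.hh_eq_zero h)
  refine ⟨fun i j => by simp [hy], fun i j => ?_, ?_⟩
  · have : ∀ k, y i k * y k j = ((r (hh z z))⁻¹ * (r (hh z z))⁻¹) •
        (star (z i) * (z k * star (z k)) * z j) := fun k => by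
      simp only [hy, smul_mul_smul_comm, mul_assoc]
    simp only [this]
    rw [← Finset.smul_sum, ← Finset.sum_mul, ← Finset.mul_sum, ← hh, hy]
    conv_lhs => rw [A.hh_self]
    rw [map_smul, A.r1, smul_eq_mul, mul_one, mul_smul_comm, mul_one, smul_mul_assoc, smul_smul,
      inv_mul_cancel_right₀ h0]
  · simp only [hy, A.star_mul_self]
    rw [← Finset.smul_sum, ← hh]
    conv_lhs => rw [A.hh_self]
    rw [map_smul, A.r1, smul_eq_mul, mul_one, smul_smul, inv_mul_cancel₀ h0, one_smul]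

theorem sec (A : Emb d e p r) {X : MV V n} (hX : X ∈ KG d n) (i : Fin (n + 1)) (hi : row p i X ≠ 0) :
    prj e r (row p i X) = X := by
  obtain ⟨x, hx0⟩ : ∃ x : Fin (n + 1) → Fin (n + 1) → K, ∀ i j, p (X (i, j)) = x i j :=
    ⟨fun j k => _, fun _ _ => rfl⟩
  have hx : ∀ i j, X (i, j) = e (x i j) := fun i j => by rw [← hx0, A.ep _ (hX.1 i j)]
  obtain ⟨x1, x2, x3⟩ := (A.mem_KP hx).1 hX
  obtain ⟨y, hy⟩ : ∃ y : Fin (n + 1) → Fin (n + 1) → K, ∀ j k,
      y j k = (r (hh (row p i X) (row p i X)))⁻¹ • (star (row p i X j) * row p i X k) :=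
    ⟨fun j k => _, fun _ _ => rfl⟩
  obtain ⟨y1, y2, y3⟩ := A.prj_alg hi hy
  have xy : ∀ j k, ∑ l, x j l * y l k = y j k := fun j k => by
    have : ∀ l, x j l * y l k = (r (hh (row p i X) (row p i X)))⁻¹ • (x j l * x l i * x i k) := fun l => by
      rw [hy, mul_smul_comm, x1 i l, mul_assoc, row_apply, row_apply, hx0, hx0]
    simp only [this]
    rw [← Finset.smul_sum, ← Finset.sum_mul, x2, x1 i j, hy, row_apply, row_apply, hx0, hx0]
  have yx : ∀ j k, ∑ l, y j l * x l k = y j k := fun j k => by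
    rw [y1 k j, ← xy k j, star_sum]
    exact Finset.sum_congr rfl fun l _ => by rw [star_mul, ← y1, ← x1]
  have h1 : ∑ j, ∑ k, r ((x j k - y j k) * star (x j k - y j k)) = 0 := by
    have : ∀ j, ∑ k, r ((x j k - y j k) * star (x j k - y j k)) = r (x j j - y j j) := fun j => by
      rw [← map_sum]
      simp only [star_sub, ← x1, ← y1, sub_mul, mul_sub, Finset.sum_sub_distrib, x2, y2, xy, yx, sub_self,
        sub_zero]
    simp only [this]
    rw [← map_sum, Finset.sum_sub_distrib, x3, y3, sub_self, map_zero]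
  rw [Finset.sum_eq_zero_iff_of_nonneg fun j _ => Finset.sum_nonneg fun k _ => A.nn _] at h1
  refine PiLp.ext fun ⟨j, k⟩ => ?_
  have h2 := (Finset.sum_eq_zero_iff_of_nonneg fun k _ => A.nn _).1 (h1 j (Finset.mem_univ _)) k
    (Finset.mem_univ _)
  rw [prj_apply, ← hy, hx j k, ← sub_eq_zero.1 (A.eq_zero h2)]

theorem fsK_self (A : Emb d e p r) {z : EK K n} (hz : z ≠ 0) (u : EK K n) :
    fsK r z u u = r (hh (u - ((r (hh z z))⁻¹ • hh u z) • z) (u - ((r (hh z z))⁻¹ • hh u z) • z)) /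
      r (hh z z) := by
  have h0 : r (hh z z) ≠ 0 := fun h => hz (A.hh_eq_zero h)
  have h1 : hh (u - ((r (hh z z))⁻¹ • hh u z) • z) z = 0 := by
    rw [hh_sub, hh_smul, smul_mul_assoc]
    conv_lhs => rw [A.hh_self z]
    rw [map_smul, A.r1, smul_eq_mul, mul_one, mul_smul_comm, mul_one, smul_smul, inv_mul_cancel₀ h0,
      one_smul, sub_self]
  have h2 : hh z (u - ((r (hh z z))⁻¹ • hh u z) • z) = 0 := by rw [← star_hh, h1, star_zero]
  rw [hh_sub, hh_smul, h2, mul_zero, sub_zero, ← A.r_star (hh u (_ - _)), star_hh, hh_sub, hh_smul, fsK,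
    star_hh, smul_mul_assoc, map_sub, map_smul, smul_eq_mul]
  field_simp

theorem brg (A : Emb d e p r) : Brg K (KG d n) (prj e r) (fsK r) (row p) (crd r) where
  smooth z hz := (((nB (n := n) r).contDiff.clm_apply contDiff_id).contDiffAt.inv
    fun h => hz (A.hh_eq_zero h)).smul ((mB (n := n) e).contDiff.clm_apply contDiff_id).contDiffAt
  mem z hz := (A.mem_KP (prj_apply z)).2 (A.prj_alg hz fun _ _ => rfl)
  inv c z hc := PiLp.ext fun ⟨i, j⟩ => by
    obtain ⟨ρ, h0, h1⟩ : ∃ ρ : ℝ, ρ ≠ 0 ∧ c * star c = ρ • (1 : K) :=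
      ⟨_, fun h => hc (A.eq_zero h), A.real (by simp)⟩
    have h2 : r (hh (c • z) (c • z)) = ρ * r (hh z z) := by
      rw [hh_smul, ← star_hh, hh_smul, star_mul, star_hh, A.comm, mul_assoc, A.star_mul_self, h1,
        mul_smul_comm, mul_one, map_smul, smul_eq_mul]
    rw [prj_apply, prj_apply, h2, PiLp.smul_apply, PiLp.smul_apply, smul_eq_mul, smul_eq_mul, star_mul,
      mul_assoc, ← mul_assoc (star c), A.star_mul_self, h1, smul_mul_assoc, one_mul, mul_smul_comm,
      smul_smul, mul_inv, mul_comm _ (r (hh z z))⁻¹, inv_mul_cancel_right₀ h0]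
  sec X hX i hi := A.sec hX i hi
  cov X hX := by
    show ∑ i, r (p (X (i, i))) = 1
    rw [← map_sum, ← map_sum, hX.2.2.2, ← A.one, A.pe, A.r1]
  line z _ i := ⟨(r (hh z z))⁻¹ • star (z i), PiLp.ext fun j => by
    rw [row_apply, prj_apply, A.pe, PiLp.smul_apply, smul_eq_mul, smul_mul_assoc]⟩
  met z hz u w := A.met hz u w
  vert c z hz := by
    have h0 : r (hh z z) ≠ 0 := fun h => hz (A.hh_eq_zero h)
    have h1 : (r (hh z z))⁻¹ • hh (c • z) z = c := by
      rw [hh_smul]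
      conv_lhs => rw [A.hh_self z]
      rw [map_smul, A.r1, smul_eq_mul, mul_one, mul_smul_comm, mul_one, smul_smul, inv_mul_cancel₀ h0,
        one_smul]
    rw [← inner_self_eq_zero (𝕜 := ℝ), A.met hz, A.fsK_self hz, h1, sub_self]
    simp [hh]
  ker z u hz h := by
    have h0 : r (hh z z) ≠ 0 := fun h => hz (A.hh_eq_zero h)
    have h1 := A.met hz u u
    rw [h, inner_zero_left, A.fsK_self hz] at h1
    exact ⟨_, sub_eq_zero.1 (A.hh_eq_zero (by
      simpa only [zero_eq_mul, two_ne_zero, false_or, div_eq_zero_iff, h0, or_false] using h1))⟩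

end Emb

end Pool.Agent.Work.MP_8c604c_gt.U
end
end

-- merged part: Pool.Agent.Work.MP_8c604c_gt.P.Mod
section
/-!
A compact set with affine charts is the fixed set of a smooth retraction; the projective spaces.
-/

set_option maxSynthPendingDepth 3
set_option linter.unusedSectionVars false

open Set Filter Topology MeasureTheory
open scoped ContDiff

noncomputable section
namespace Pool.Agent.Work.MP_8c604c_gt.P

open O

section
variable {E : Type} [NormedAddCommGroup E] [InnerProductSpace ℝ E] [FiniteDimensional ℝ E]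

theorem exists_retr {ι : Type} {S : Set E} {s : ι → E → E} {l : ι → E →L[ℝ] ℝ} {c : ℝ} (hc : 0 < c)
    (h1 : ∀ i, ContDiffOn ℝ ∞ (s i) {z | l i z ≠ 0}) (h2 : ∀ i z, l i z ≠ 0 → s i z ∈ S)
    (h3 : ∀ i, ∀ z ∈ S, l i z ≠ 0 → s i z = z) (T : Finset ι) :
    ∃ (r : E → E) (U : Set E), ContDiff ℝ ∞ r ∧ IsOpen U ∧ (∀ z ∈ S, r z = z) ∧ (∀ z ∈ U, r z ∈ S) ∧
      ∀ z ∈ S, ∀ i ∈ T, c < l i z → z ∈ U := by
  classical
  induction T using Finset.induction_on with
  | empty => exact ⟨id, ∅, contDiff_id, isOpen_empty, fun _ _ => rfl, fun _ h => h.elim, by simp⟩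
  | insert k T _ ih =>
    obtain ⟨r, U, a1, a2, a3, a4, a5⟩ := ih
    let t : E → E := fun z => z + Real.smoothTransition (2 / c * l k z - 1) • (s k z - z)
    have t0 : ∀ z, l k z < c / 2 → t z = z := fun z hz => by
      have : 2 / c * l k z - 1 ≤ 0 := by
        rw [div_mul_eq_mul_div, sub_nonpos, div_le_one hc]
        linarith
      simp only [t, Real.smoothTransition.zero_of_nonpos this, zero_smul, add_zero]
    have t1 : ∀ z, c < l k z → t z ∈ S := fun z hz => by
      have : 1 ≤ 2 / c * l k z - 1 := by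
        rw [div_mul_eq_mul_div, le_sub_iff_add_le, le_div_iff₀ hc]
        linarith
      simp only [t, Real.smoothTransition.one_of_one_le this, one_smul, add_sub_cancel]
      exact h2 k z (hc.trans hz).ne'
    have t2 : ∀ z ∈ S, t z = z := fun z hz => by
      by_cases h : l k z = 0
      · exact t0 z (by rw [h]; positivity)
      · simp only [t, h3 k z hz h, sub_self, smul_zero, add_zero]
    have t3 : ContDiff ℝ ∞ t := contDiff_iff_contDiffAt.2 fun z => by
      by_cases h : l k z = 0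
      · exact contDiffAt_id.congr_of_eventuallyEq (((l k).continuous.continuousAt.eventually_lt
          continuousAt_const (show l k z < c / 2 by rw [h]; positivity)).mono t0)
      · exact contDiffAt_id.add ((Real.smoothTransition.contDiff.comp
          ((contDiff_const.mul (l k).contDiff).sub contDiff_const)).contDiffAt.smul
          (((h1 k).contDiffAt ((isOpen_ne_fun (l k).continuous continuous_const).mem_nhds h)).sub
            contDiffAt_id))
    refine ⟨t ∘ r, U ∪ {z | c < l k (r z)}, t3.comp a1,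
      a2.union (isOpen_lt continuous_const ((l k).continuous.comp a1.continuous)),
      fun z hz => by rw [Function.comp_apply, a3 z hz, t2 z hz], ?_, fun z hz i hi h => ?_⟩
    · rintro z (hz | hz)
      · rw [Function.comp_apply, t2 _ (a4 z hz)]
        exact a4 z hz
      · exact t1 _ hz
    · rcases Finset.mem_insert.1 hi with rfl | hi
      · exact Or.inr (by rwa [mem_ofPred_eq, a3 z hz])
      · exact Or.inl (a5 z hz i hi h)

theorem exists_model {d N : ℕ} {S : Set E} (hS : IsCompact S) {χ : Fin (N + 1) → RF d → E}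
    {ρ : Fin (N + 1) → E → RF d} {l : Fin (N + 1) → E →L[ℝ] ℝ} (h1 : ∀ i, ContDiff ℝ ∞ (χ i))
    (h2 : ∀ i, ContDiffOn ℝ ∞ (ρ i) {z | l i z ≠ 0}) (h3 : ∀ i a, χ i a ∈ S) (h4 : ∀ i a, l i (χ i a) ≠ 0)
    (h5 : ∀ i a, ρ i (χ i a) = a) (h6 : ∀ i, ∀ z ∈ S, l i z ≠ 0 → χ i (ρ i z) = z)
    (h7 : ∀ z ∈ S, ∑ i, l i z = 1) (h8 : ∀ i, ∀ᵐ a, l 0 (χ i a) ≠ 0) (h9 : 2 ≤ d) :
    ∃ μ : Model E d, μ.M = S := by
  have hc : (0 : ℝ) < 1 / (N + 2) := by positivity
  obtain ⟨r, U, a1, a2, a3, a4, a5⟩ := exists_retr (s := fun i z => χ i (ρ i z)) hc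
    (fun i => (h1 i).comp_contDiffOn (h2 i)) (fun i z _ => h3 i _) h6 Finset.univ
  have hx : ∀ z ∈ S, ∃ i, 1 / ((N : ℝ) + 2) < l i z := fun z hz => by
    by_contra! k
    have := Finset.sum_le_sum fun i (_ : i ∈ Finset.univ) => k i
    rw [h7 z hz, Finset.sum_const, Finset.card_univ, Fintype.card_fin, nsmul_eq_mul, mul_one_div,
      one_le_div (by positivity)] at this
    push_cast at this
    linarith
  have hU : ∀ z ∈ S, z ∈ U := fun z hz => (hx z hz).elim fun i hi => a5 z hz i (Finset.mem_univ _) hi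
  have hM : {z | z ∈ U ∧ r z = z} = S :=
    Set.ext fun z => ⟨fun h => h.2 ▸ a4 z h.1, fun h => ⟨hU z h, a3 z h⟩⟩
  exact ⟨⟨U, r, a2, a1.contDiffOn, fun z hz => hU _ (a4 z hz), fun z hz => a3 _ (a4 z hz), hM ▸ hS, N, χ, ρ,
    fun i => U ∩ {z | l i z ≠ 0}, h1, fun i => a2.inter (isOpen_ne_fun (l i).continuous continuous_const),
    fun _ => inter_subset_left, fun i => (h2 i).mono inter_subset_right, fun i a => ⟨hU _ (h3 i a), h4 i a⟩,
    fun i a => a3 _ (h3 i a), h5, fun i z hz e => h6 i z (e ▸ a4 z hz.1) hz.2,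
    fun z hz e => (hx z (e ▸ a4 z hz)).imp fun i hi => ⟨hz, (hc.trans hi).ne'⟩,
    fun i => (h8 i).mono fun a ha => ⟨hU _ (h3 i a), ha⟩, h9⟩, hM⟩

theorem push_model {F : Type} [NormedAddCommGroup F] [InnerProductSpace ℝ F] {d : ℕ} (μ : Model F d)
    (j : F →L[ℝ] E) (π : E →L[ℝ] F) (h : ∀ x, π (j x) = x) : ∃ ν : Model E d, ν.M = j '' μ.M := by
  have hM : {z | z ∈ π ⁻¹' μ.U ∧ j (μ.r (π z)) = z} = j '' μ.M := Set.ext fun z =>
    ⟨fun k => ⟨_, ⟨μ.maps _ k.1, μ.idem _ k.1⟩, k.2⟩, fun ⟨y, k, e⟩ => by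
      subst e
      exact ⟨by rw [mem_preimage, h]; exact k.1, by rw [h, k.2]⟩⟩
  have hf : ∀ z, j (μ.r (π z)) = z → μ.r (π z) = π z := fun z e => by rw [← h (μ.r _), e]
  exact ⟨⟨π ⁻¹' μ.U, fun z => j (μ.r (π z)), μ.isOpen.preimage π.continuous,
    j.contDiff.comp_contDiffOn (μ.smooth.comp π.contDiff.contDiffOn fun _ k => k),
    fun z hz => by rw [mem_preimage, h]; exact μ.maps _ hz, fun z hz => by rw [h, μ.idem _ hz],
    hM ▸ μ.compact.image j.continuous, μ.N, fun i a => j (μ.χ i a), fun i z => μ.ρ i (π z),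
    fun i => π ⁻¹' μ.W i, fun i => j.contDiff.comp (μ.χ_smooth i),
    fun i => (μ.W_open i).preimage π.continuous, fun i _ k => μ.W_sub i k,
    fun i => (μ.ρ_smooth i).comp π.contDiff.contDiffOn fun _ k => k,
    fun i a => by rw [mem_preimage, h]; exact μ.χ_mem i a, fun i a => by rw [h, μ.χ_fix],
    fun i a => by rw [h, μ.ρχ], fun i z hz e => by rw [μ.χρ i _ hz (hf z e), ← hf z e, e],
    fun z hz e => μ.cover _ hz (hf z e),
    fun i => (μ.null i).mono fun a ha => by rw [mem_preimage, h]; exact ha, μ.two⟩, hM⟩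

end

open U

variable {K : Type} [NormedDivisionRing K] [StarRing K] [NormedAlgebra ℝ K] [StarModule ℝ K]
  [FiniteDimensional ℝ K] {V : Type} [NormedAddCommGroup V] [InnerProductSpace ℝ V] [FiniteDimensional ℝ V]
  {n : ℕ} {o : Ops V} {e : K →L[ℝ] V} {p : V →L[ℝ] K} {r : K →L[ℝ] ℝ}

theorem model_KG (A : Emb o e p r) (hn : 2 ≤ n) : ∃ d, ∃ μ : Model (MV V n) d, μ.M = KG o n := by
  have B := A.brg (n := n)
  have := FiniteDimensional.proper_real (EK K n)
  let φ : RF (Module.finrank ℝ (Fin n → K)) ≃L[ℝ] (Fin n → K) :=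
    ContinuousLinearEquiv.ofFinrankEq finrank_euclideanSpace_fin
  let ins : Fin (n + 1) → (Fin n → K) → EK K n := fun i b => WithLp.toLp 2 (i.insertNth 1 b)
  have i1 : ∀ i b, ins i b i = 1 := fun i b => Fin.insertNth_apply_same (α := fun _ => K) i 1 b
  have i2 : ∀ i b j, ins i b (i.succAbove j) = b j := fun i b j =>
    Fin.insertNth_apply_succAbove (α := fun _ => K) i 1 b j
  have i0 : ∀ i b, ins i b ≠ 0 := fun i b h => one_ne_zero ((i1 i b).symm.trans (congrArg (· i) h))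
  have i3 : ∀ i, ContDiff ℝ ∞ (ins i) := fun i => (contDiff_piLp 2).2 fun k => by
    refine Fin.succAboveCases i ?_ (fun j => ?_) k
    · simp only [i1]
      exact contDiff_const
    · simp only [i2]
      exact contDiff_apply ℝ K j
  have hl : ∀ i (X : MV V n), ((crd r i).comp (row p i)) X = r (p (X (i, i))) := fun _ _ => rfl
  have hz : ∀ z : EK K n, z ≠ 0 → ∀ i, z i ≠ 0 → ((crd r i).comp (row p i)) (prj e r z) ≠ 0 :=
    fun z h i k => by
      rw [hl, Emb.prj_apply, A.pe, map_smul, A.star_mul_self]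
      exact mul_ne_zero (inv_ne_zero fun h' => h (A.hh_eq_zero h')) fun h' => k (A.eq_zero h')
  refine ⟨_, exists_model (χ := fun i a => prj e r (ins i (φ a)))
    (ρ := fun i X => φ.symm fun j => (r (p (X (i, i))))⁻¹ • row p i X (i.succAbove j))
    (l := fun i => (crd r i).comp (row p i)) ?_ (fun i => contDiff_iff_contDiffAt.2 fun a =>
      ContDiffAt.comp (g := prj e r) a (B.smooth _ (i0 _ _)) ((i3 i).comp φ.contDiff).contDiffAt) (fun i => ?_)
    (fun i a => B.mem _ (i0 _ _)) (fun i a => hz _ (i0 _ _) i (by rw [i1]; exact one_ne_zero))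
    (fun i a => ?_) (fun i X hX h => ?_) B.cov (fun i => ?_) ?_⟩
  · have h1 : KG o n = prj e r '' Metric.sphere 0 1 := Set.ext fun X => ⟨fun hX => by
        obtain ⟨i, hi⟩ := B.ex hX
        refine ⟨‖row p i X‖⁻¹ • row p i X, by simp [norm_smul, hi], ?_⟩
        rw [← one_smul K (‖row p i X‖⁻¹ • row p i X), smul_comm, ← smul_assoc, B.inv, B.sec X hX i hi]
        exact smul_ne_zero (inv_ne_zero (norm_ne_zero_iff.2 hi)) one_ne_zero,
      fun ⟨z, h, k⟩ => k ▸ B.mem z (ne_zero_of_mem_unit_sphere ⟨z, h⟩)⟩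
    rw [h1]
    exact (isCompact_sphere _ _).image_of_continuousOn fun z h =>
      (B.smooth z (ne_zero_of_mem_unit_sphere ⟨z, h⟩)).continuousAt.continuousWithinAt
  · exact φ.symm.contDiff.comp_contDiffOn (contDiffOn_pi.2 fun j =>
      (((crd r i).comp (row p i)).contDiff.contDiffOn.inv fun _ h => h).smul
        ((PiLp.proj 2 (fun _ : Fin (n + 1) => K) (i.succAbove j)).comp (row p i)).contDiff.contDiffOn)
  · rw [φ.symm_apply_eq]
    funext j
    have h0 : r (hh (ins i (φ a)) (ins i (φ a))) ≠ 0 := fun h' => i0 _ _ (A.hh_eq_zero h')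
    rw [row_apply, Emb.prj_apply, Emb.prj_apply, A.pe, A.pe, i1, i2, star_one, one_mul, one_mul, map_smul, A.r1,
      smul_eq_mul, mul_one, inv_inv, smul_inv_smul₀ h0]
  · have h0 : r (p (X (i, i))) ≠ 0 := h
    have h1 : p (X (i, i)) = r (p (X (i, i))) • (1 : K) := A.real (by
      rw [← A.pe (star _), ← A.st, A.ep _ (hX.1 i i), ← hX.2.1 i i])
    have h2 : ins i (fun j => (r (p (X (i, i))))⁻¹ • row p i X (i.succAbove j)) =
        ((r (p (X (i, i))))⁻¹ • (1 : K)) • row p i X := PiLp.ext fun k => by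
      rw [smul_assoc, one_smul, PiLp.smul_apply]
      refine Fin.succAboveCases i ?_ (fun j => i2 _ _ j) k
      rw [i1, row_apply, eq_inv_smul_iff₀ h0, ← h1]
    rw [φ.apply_symm_apply, h2, B.inv _ _ (smul_ne_zero (inv_ne_zero h0) one_ne_zero)]
    exact B.sec X hX i fun k => h (by rw [ContinuousLinearMap.comp_apply, k, map_zero])
  · rcases eq_or_ne 0 i with rfl | hi
    · exact Eventually.of_forall fun a => hz _ (i0 _ _) 0 (by rw [i1]; exact one_ne_zero)
    obtain ⟨j, hj⟩ := Fin.exists_succAbove_eq hi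
    have h1 := Measure.addHaar_submodule (volume : Measure (RF (Module.finrank ℝ (Fin n → K))))
      (LinearMap.ker ((LinearMap.proj j).comp φ.toLinearEquiv.toLinearMap)) fun k => by
        have h2 : φ.symm (fun _ => 1) ∈ LinearMap.ker ((LinearMap.proj j).comp φ.toLinearEquiv.toLinearMap) :=
          k ▸ Submodule.mem_top
        simp at h2
    filter_upwards [measure_eq_zero_iff_ae_notMem.1 h1] with a ha
    exact hz _ (i0 _ _) 0 (by rw [← hj, i2]; exact ha)
  · rw [Module.finrank_pi_fintype, Finset.sum_const, Finset.card_univ, Fintype.card_fin, smul_eq_mul]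
    exact hn.trans (Nat.le_mul_of_pos_right n Module.finrank_pos)

end Pool.Agent.Work.MP_8c604c_gt.P
end
end
end
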