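import Pool.Agent.Work.MP_8c604c_gt.ODE
import Pool.Agent.Work.MP_8c604c_gt.O.Defs
import Pool.Agent.Work.MP_8c604c_gt.OM.Hur
import Pool.Agent.Work.MP_8c604c_gt.O.Jac
import Pool.Agent.Work.MP_8c604c_gt.OB.Lp
import Pool.Agent.Work.MP_8c604c_gt.P.Mod

-- merged part: Pool.Agent.Work.MP_8c604c_gt.OM.MT
section
-- merged part: Pool.Agent.Work.MP_8c604c_gt.O.Flow
section
/-!
Flows of fields tangent to the fixed set of a retraction.
-/

set_option maxSynthPendingDepth 3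
set_option linter.unusedSectionVars false

open Set Filter Topology MeasureTheory
open scoped ContDiff Manifold

noncomputable section
namespace Pool.Agent.Work.MP_8c604c_gt.O

variable {V : Type} [NormedAddCommGroup V] [NormedSpace ℝ V]

/-- A solution that starts on the fixed set stays there. -/
theorem flow_stay {U S : Set V} (hU : IsOpen U) {R Y : V → V} (hR : ContDiffOn ℝ ∞ R U)
    (hY : ContDiff ℝ ∞ Y) (hS : IsClosed S) (hSU : S ⊆ U) (h1 : ∀ x ∈ S, R x = x)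
    (h2 : ∀ x ∈ U, R x ∈ S) (h3 : ∀ x ∈ S, fderiv ℝ R x (Y x) = Y x) {c : ℝ → V}
    (hc : ∀ t, HasDerivAt c (Y (c t)) t) (h0 : c 0 ∈ S) (t : ℝ) : c t ∈ S := by
  have hcc : Continuous c := continuous_iff_continuousAt.2 fun t => (hc t).continuousAt
  have hcl : IsClopen (c ⁻¹' S) := by
    refine ⟨hS.preimage hcc, isOpen_iff_mem_nhds.2 fun t₀ ht₀ => ?_⟩
    have hU0 : U ∈ 𝓝 (c t₀) := hU.mem_nhds (hSU ht₀)
    have hH : ContDiffAt ℝ 1 (fun x => Y x - fderiv ℝ R x (Y x)) (c t₀) :=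
      (hY.contDiffAt.of_le (by simp)).sub
        (((hR.contDiffAt hU0).fderiv_right (m := 1) (by norm_cast)).clm_apply
          (hY.contDiffAt.of_le (by simp)))
    obtain ⟨K, s, hs, hK⟩ := hH.exists_lipschitzOnWith
    have e1 : ∀ᶠ t in 𝓝 t₀, c t ∈ U := hcc.continuousAt.eventually hU0
    have e2 : ∀ᶠ t in 𝓝 t₀, c t ∈ s := hcc.continuousAt.eventually hs
    have e3 : ∀ᶠ t in 𝓝 t₀, R (c t) ∈ s := by
      have := ((hR.contDiffAt hU0).continuousAt.comp hcc.continuousAt)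
      refine this.eventually ?_
      rwa [Function.comp_apply, h1 _ ht₀]
    have key := ODE_solution_unique_of_eventually (K := K) (t₀ := t₀)
      (v := fun t e => Y (e + R (c t)) - fderiv ℝ R (e + R (c t)) (Y (e + R (c t))))
      (s := fun t => {e | e + R (c t) ∈ s}) (f := fun t => c t - R (c t)) (g := fun _ => 0)
      (Eventually.of_forall fun t => LipschitzOnWith.of_dist_le_mul fun a ha b hb => by
        simpa using hK.dist_le_mul _ ha _ hb) ?_ ?_ (by simp [h1 _ ht₀])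
    · filter_upwards [key, e1] with t h4 h5
      have := h2 _ h5
      rwa [← sub_eq_zero.1 h4] at this
    · filter_upwards [e1, e2] with t h4 h5
      simp only [sub_add_cancel, mem_setOf_eq]
      exact ⟨(hc t).sub (((hR.contDiffAt (hU.mem_nhds h4)).differentiableAt
        (by simp)).hasFDerivAt.comp_hasDerivAt t (hc t)), h5⟩
    · filter_upwards [e1, e3] with t h4 h5
      simp only [zero_add, mem_setOf_eq, h3 _ (h2 _ h4), sub_self]
      exact ⟨hasDerivAt_const _ _, h5⟩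
  have := hcl.eq_univ ⟨0, h0⟩
  exact (this ▸ mem_univ t : t ∈ c ⁻¹' S)

variable [FiniteDimensional ℝ V]

/-- A cut-off of a field near a compact set. -/
theorem flow_cut {U K : Set V} (hU : IsOpen U) (hK : IsCompact K) (hKU : K ⊆ U) {X : V → V}
    (hX : ContDiffOn ℝ ∞ X U) : ∃ (γ : V → ℝ) (C : Set V), IsCompact C ∧
      (ContDiff ℝ ∞ fun x => γ x • X x) ∧ (∀ x ∉ C, γ x = 0) ∧ ∀ x ∈ K, γ x = 1 := by
  have := FiniteDimensional.proper_real V
  obtain ⟨C, hC, h1, h2⟩ := exists_compact_between hK hU hKU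
  obtain ⟨f, f0, f1, -⟩ := exists_contMDiffMap_zero_one_of_isClosed (n := ⊤) 𝓘(ℝ, V)
    (s := (interior C)ᶜ) (t := K) isOpen_interior.isClosed_compl hK.isClosed
    (disjoint_compl_left_iff_subset.2 h1)
  have hf : ContDiff ℝ ∞ f := f.contMDiff.contDiff
  have h0 : ∀ x ∉ C, f x = 0 := fun x hx => f0 fun h => hx (interior_subset h)
  refine ⟨f, C, hC, contDiff_iff_contDiffAt.2 fun x => ?_, h0, fun x hx => f1 hx⟩
  by_cases h : x ∈ U
  · exact hf.contDiffAt.smul (hX.contDiffAt (hU.mem_nhds h))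
  · refine (contDiffAt_const (c := (0 : V))).congr_of_eventuallyEq ?_
    filter_upwards [hC.isClosed.isOpen_compl.mem_nhds fun h' => h (h2 h')] with y hy
    rw [h0 y hy, zero_smul]

/-- The flow of a field with compact support. -/
theorem flow_compact {Y : V → V} (hY : ContDiff ℝ ∞ Y) {C : Set V} (hC : IsCompact C)
    (h0 : ∀ x ∉ C, Y x = 0) : ∃ φ : ℝ → V → V, ContDiff ℝ ∞ (fun p : ℝ × V => φ p.1 p.2) ∧
      (∀ x, φ 0 x = x) ∧ ∀ t x, HasDerivAt (fun s => φ s x) (Y (φ t x)) t := by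
  have := FiniteDimensional.proper_real V
  let e := toEuclidean (E := V)
  have hN : ContDiff ℝ ∞ fun x => ‖e x‖ ^ 2 := (contDiff_norm_sq ℝ).comp e.contDiff
  obtain ⟨A, hA⟩ := hC.exists_bound_of_continuousOn hN.continuous.continuousOn
  have hF : ContDiff ℝ ∞ fun x => (‖e x‖ ^ 2 - (A + 1)) * Real.smoothTransition (‖e x‖ ^ 2 - (A + 1)) :=
    (hN.sub contDiff_const).mul (Real.smoothTransition.contDiff.comp (hN.sub contDiff_const))
  refine (exists_flow isOpen_univ hY.contDiffOn hF.contDiffOn (fun x _ => ?_)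
    fun R => ?_).imp fun φ h => ⟨contDiffOn_univ.1 (by simpa using h.1), fun x => h.2.1 x trivial,
      fun t x => h.2.2.2 t x trivial⟩
  · by_cases hx : x ∈ C
    · have h1 : (fun x => (‖e x‖ ^ 2 - (A + 1)) * Real.smoothTransition (‖e x‖ ^ 2 - (A + 1)))
          =ᶠ[𝓝 x] fun _ => 0 := by
        filter_upwards [hN.continuous.continuousAt.eventually_lt (continuousAt_const (y := A + 1))
          (((le_abs_self _).trans (hA x hx)).trans_lt (lt_add_one A))] with y hy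
        rw [Real.smoothTransition.zero_of_nonpos (by linarith), mul_zero]
      rw [h1.fderiv_eq]
      simp
    · rw [h0 x hx, map_zero]
  · refine Metric.isCompact_of_isClosed_isBounded
      (by simpa using isClosed_le hF.continuous continuous_const) ?_
    have h1 : IsCompact (e.symm '' Metric.closedBall 0 √(A + 1 + max R 1)) :=
      (isCompact_closedBall _ _).image e.symm.continuous
    refine h1.isBounded.subset fun x hx => ⟨e x, ?_, e.symm_apply_apply x⟩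
    rw [mem_closedBall_zero_iff]
    refine Real.le_sqrt_of_sq_le (le_of_not_gt fun h => ?_)
    have h2 := hx.2
    rw [Real.smoothTransition.one_of_one_le (by linarith [le_max_right R 1]), mul_one] at h2
    linarith [le_max_left R 1]

end Pool.Agent.Work.MP_8c604c_gt.O
end
end

-- merged part: Pool.Agent.Work.MP_8c604c_gt.O.GeoEx
section
/-!
Existence of the geodesic flow.
-/

set_option maxSynthPendingDepth 3
set_option linter.unusedSectionVars false

open Set Filter Topology MeasureTheory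
open scoped ContDiff

noncomputable section
namespace Pool.Agent.Work.MP_8c604c_gt.O

open Model

variable {E : Type} [NormedAddCommGroup E] [InnerProductSpace ℝ E] [FiniteDimensional ℝ E] {d : ℕ}
  {μ : Model E d}

/-- The force term of the Euler-Lagrange equation. -/
def geFrc (g : Met E) (z h : E) : E →L[ℝ] ℝ :=
  (1 / 2 : ℝ) • ((fderiv ℝ g z).flip h).flip h - fderiv ℝ g z h h

theorem geFrc_apply (g : Met E) (z h η : E) :
    geFrc g z h η = 1 / 2 * fderiv ℝ g z η h h - fderiv ℝ g z h h η := rfl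

/-- The acceleration of a geodesic. -/
def geAcc (μ : Model E d) (g : Met E) (z h : E) : E :=
  (μ.GG g z).inverse (geFrc g z h + (inL E (fderiv ℝ μ.P z h h)).comp (μ.Q z))

/-- The geodesic vector field. -/
def geX (μ : Model E d) (g : Met E) (x : E × E) : E × E := (x.2, geAcc μ g x.1 x.2)

theorem geAcc_scale (g : Met E) (r : ℝ) (z u : E) :
    geAcc μ g z (r • u) = r • r • geAcc μ g z u := by
  rw [geAcc, geAcc, ← map_smul, ← map_smul]
  congr 1
  ext η
  simp only [add_apply, geFrc_apply, map_smul, smul_apply, smul_eq_mul,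
    ContinuousLinearMap.comp_apply]
  ring

namespace IsMetric
variable {g : Met E} (h : IsMetric μ g)
include h

theorem ge_inv {z : E} (hz : z ∈ μ.U) : (μ.GG g z).IsInvertible := by
  have h1 : Function.Injective (μ.GG g z).toLinearMap := by
    refine (injective_iff_map_eq_zero _).2 fun u hu => by_contra fun h0 => ?_
    have h2 := h.GG_pos hz h0
    rw [show μ.GG g z u = 0 from hu] at h2
    exact lt_irrefl _ h2
  have h2 : Module.finrank ℝ E = Module.finrank ℝ (E →L[ℝ] ℝ) :=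
    Subspace.dual_finrank_eq.symm.trans LinearMap.toContinuousLinearMap.finrank_eq
  exact ⟨ContinuousLinearEquiv.ofBijective (μ.GG g z) (LinearMap.ker_eq_bot.2 h1)
    (LinearMap.range_eq_top.2
      ((LinearMap.injective_iff_surjective_of_finrank_eq_finrank h2).1 h1)), rfl⟩

theorem geFrc_vert {z u η : E} (hz : z ∈ μ.M) (hu : μ.P z u = u) (hη : μ.P z η = 0) :
    geFrc g z u η = 0 := by
  rw [geFrc_apply, h.fderiv_inv hz.1 η, h.fderiv_inv hz.1 u, hz.2, hη, hu, fderiv_P_symm hz.1 u η,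
    h.symm z (fderiv ℝ μ.P z η u) u hz.1]
  simp only [map_zero, zero_apply]
  ring

theorem geAcc_def {z : E} (hz : z ∈ μ.U) (u η : E) :
    g z (geAcc μ g z u) η + inner ℝ (μ.Q z (geAcc μ g z u)) (μ.Q z η) =
      geFrc g z u η + inner ℝ (fderiv ℝ μ.P z u u) (μ.Q z η) :=
  congrArg (fun L => L η) ((h.ge_inv hz).self_apply_inverse
    (geFrc g z u + (inL E (fderiv ℝ μ.P z u u)).comp (μ.Q z)))

theorem geAcc_Q {z u : E} (hz : z ∈ μ.M) (hu : μ.P z u = u) :
    μ.Q z (geAcc μ g z u) = fderiv ℝ μ.P z u u := by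
  have h0 : μ.P z (μ.Q z (geAcc μ g z u) - fderiv ℝ μ.P z u u) = 0 := by
    rw [map_sub, P_Q hz, P_fderiv_P hz hu hu, sub_zero]
  have h1 := h.geAcc_def hz.1 u (μ.Q z (geAcc μ g z u) - fderiv ℝ μ.P z u u)
  rw [h.vert' hz.1 h0, h.geFrc_vert hz hu h0, Q_of_P h0, zero_add, zero_add, ← sub_eq_zero,
    ← inner_sub_left] at h1
  exact sub_eq_zero.1 (inner_self_eq_zero.1 h1)

theorem geAcc_g {z u : E} (hz : z ∈ μ.M) (hu : μ.P z u = u) (η : E) :
    g z (geAcc μ g z u) η = geFrc g z u η := by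
  have h1 := h.geAcc_def hz.1 u η
  rw [h.geAcc_Q hz hu] at h1
  exact add_right_cancel h1

theorem geAcc_uniq {z u a : E} (hz : z ∈ μ.M) (hu : μ.P z u = u)
    (h1 : ∀ η, g z a η = geFrc g z u η) (h2 : μ.Q z a = fderiv ℝ μ.P z u u) :
    a = geAcc μ g z u := by
  refine sub_eq_zero.1 (h.eq_zero_of_tan hz.1 (Q_eq_zero.1 ?_) ?_)
  · rw [map_sub, h2, h.geAcc_Q hz hu, sub_self]
  · rw [map_sub (g z), sub_apply, h1, h.geAcc_g hz hu, sub_self]

theorem geX_tan {x : E × E} (hx : x ∈ μ.TM) : μ.DR x (geX μ g x) = geX μ g x := by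
  rw [DR_apply hx.1.1]
  refine Prod.ext hx.2 ?_
  change fderiv ℝ μ.P x.1 x.2 x.2 + μ.P x.1 (geAcc μ g x.1 x.2) = geAcc μ g x.1 x.2
  rw [← h.geAcc_Q hx.1 hx.2, add_comm, P_add_Q]

theorem ge_hasDerivAt {z u w : ℝ → E} {z' u' w' : E} {t : ℝ} (h0 : z t ∈ μ.U)
    (hz : HasDerivAt z z' t) (hu : HasDerivAt u u' t) (hw : HasDerivAt w w' t) :
    HasDerivAt (fun s => g (z s) (u s) (w s))
      (fderiv ℝ g (z t) z' (u t) (w t) + g (z t) u' (w t) + g (z t) (u t) w') t := by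
  have h1 : HasDerivAt (fun s => g (z s)) (fderiv ℝ g (z t) z') t :=
    (h.hasFDerivAt h0).comp_hasDerivAt t hz
  exact (h1.clm_apply hu).clm_apply hw

theorem contDiffOn_geX : ContDiffOn ℝ ∞ (geX μ g) μ.UU := by
  have hm : MapsTo (Prod.fst : E × E → E) μ.UU μ.U := fun _ hx => hx
  have hD : ContDiffOn ℝ ∞ (fun x : E × E => fderiv ℝ g x.1) μ.UU :=
    (h.smooth.fderiv_of_isOpen μ.isOpen (by simp)).comp contDiffOn_fst hm
  have hP : ContDiffOn ℝ ∞ (fun x : E × E => fderiv ℝ μ.P x.1) μ.UU :=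
    (contDiffOn_P.fderiv_of_isOpen μ.isOpen (by simp)).comp contDiffOn_fst hm
  have h1 : ContDiffOn ℝ ∞ (fun x : E × E => geFrc g x.1 x.2 +
      (inL E (fderiv ℝ μ.P x.1 x.2 x.2)).comp (μ.Q x.1)) μ.UU := by
    refine contDiffOn_clm_apply.2 fun η => ?_
    simp only [add_apply, geFrc_apply, ContinuousLinearMap.comp_apply, inL_apply]
    exact ((contDiffOn_const.mul (((hD.clm_apply contDiffOn_const).clm_apply
      contDiffOn_snd).clm_apply contDiffOn_snd)).sub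
      (((hD.clm_apply contDiffOn_snd).clm_apply contDiffOn_snd).clm_apply contDiffOn_const)).add
      (((hP.clm_apply contDiffOn_snd).clm_apply contDiffOn_snd).inner ℝ
        ((contDiffOn_Q.comp contDiffOn_fst hm).clm_apply contDiffOn_const))
  have h2 : ContDiffOn ℝ ∞ (fun x : E × E => (μ.GG g x.1).inverse) μ.UU :=
    fun x hx => ContDiffAt.comp_contDiffWithinAt (f := fun x : E × E => μ.GG g x.1) x
      (h.ge_inv hx).contDiffAt_map_inverse ((h.contDiffOn_GG.comp contDiffOn_fst hm) x hx)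
  exact contDiffOn_snd.prodMk (h2.clm_apply h1)

section Conservation
variable {c : ℝ → E × E} {t a : ℝ} (h0 : c t ∈ μ.TM)

omit h in
theorem ge_fst {v : E × E} (hc : HasDerivAt c v t) : HasDerivAt (fun s => (c s).1) v.1 t :=
  (ContinuousLinearMap.fst ℝ E E).hasFDerivAt.comp_hasDerivAt t hc

omit h in
theorem ge_snd {v : E × E} (hc : HasDerivAt c v t) : HasDerivAt (fun s => (c s).2) v.2 t :=
  (ContinuousLinearMap.snd ℝ E E).hasFDerivAt.comp_hasDerivAt t hc

include h0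

theorem ge_el (hc : HasDerivAt c (geX μ g (c t)) t) (η : E) :
    HasDerivAt (fun s => g (c s).1 (c s).2 η)
      (1 / 2 * fderiv ℝ g (c t).1 η (c t).2 (c t).2) t := by
  refine (h.ge_hasDerivAt h0.1.1 (ge_fst hc) (ge_snd hc) (hasDerivAt_const t η)).congr_deriv ?_
  simp only [geX, map_zero, h.geAcc_g h0.1 h0.2, geFrc_apply]
  ring

theorem ge_energy (hc : HasDerivAt c (a • geX μ g (c t)) t) :
    HasDerivAt (fun s => g (c s).1 (c s).2 (c s).2) 0 t := by
  refine (h.ge_hasDerivAt h0.1.1 (ge_fst hc) (ge_snd hc) (ge_snd hc)).congr_deriv ?_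
  rw [h.symm _ (c t).2 (a • geX μ g (c t)).2 h0.1.1]
  simp only [geX, Prod.smul_fst, Prod.smul_snd, map_smul, smul_apply, smul_eq_mul,
    h.geAcc_g h0.1 h0.2, geFrc_apply]
  ring

end Conservation

omit h in
theorem ge_sc {c : ℝ → E × E} (m : ℝ) {t : ℝ} (hc : HasDerivAt c (geX μ g (c (m * t))) (m * t)) :
    HasDerivAt (fun s => sc m (c (m * s))) (geX μ g (sc m (c (m * t)))) t := by
  have h1 : HasDerivAt (fun s => m * s) m t := by simpa using (hasDerivAt_id t).const_mul m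
  refine (((ge_fst hc).scomp t h1).prodMk (((ge_snd hc).scomp t h1).const_smul m)).congr_deriv ?_
  simp only [geX, sc, geAcc_scale]

theorem ge_unique {c c' : ℝ → E × E} (hc : ∀ t, (c t).1 ∈ μ.U ∧ HasDerivAt c (geX μ g (c t)) t)
    (hc' : ∀ t, (c' t).1 ∈ μ.U ∧ HasDerivAt c' (geX μ g (c' t)) t) (h0 : c 0 = c' 0) (t : ℝ) :
    c t = c' t :=
  ode_unique μ.isOpen_UU (h.contDiffOn_geX.of_le (by simp)) (a := -(|t| + 1)) (b := |t| + 1)
    (abs_lt.1 (by rw [abs_zero]; positivity)) (fun s _ => hc s) (fun s _ => hc' s) h0 t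
    (abs_lt.1 (lt_add_one _))

theorem ge_flow : ∃ φ : ℝ → E × E → E × E,
    ContDiffOn ℝ ∞ (fun p : ℝ × E × E => φ p.1 p.2) {p | p.2 ∈ μ.UU} ∧
    (∀ x, x.1 ∈ μ.U → φ 0 x = μ.R x) ∧ (∀ t x, x.1 ∈ μ.U → φ t x ∈ μ.TM) ∧
    ∀ t x, x.1 ∈ μ.U → HasDerivAt (fun s => φ s x) (geX μ g (φ t x)) t := by
  obtain ⟨γ, C, hC, hY, c0, c1⟩ := flow_cut μ.isOpen_UU (h.isCompact_ball 1)
    (fun x hx => hx.1.1.1) h.contDiffOn_geX
  obtain ⟨Φ, p1, p2, p3⟩ := flow_compact hY hC fun x hx => by rw [c0 x hx, zero_smul]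
  have k1 : ∀ y ∈ μ.TM, ∀ t, Φ t y ∈ μ.TM := fun y hy t =>
    flow_stay (c := fun s => Φ s y) μ.isOpen_UU contDiffOn_R hY μ.isClosed_TM (fun x hx => hx.1.1)
      (fun x hx => R_of_TM hx) (fun x hx => R_mem hx) (fun x hx => by
        change μ.DR x _ = _
        rw [map_smul, h.geX_tan hx]) (fun s => p3 s y) (by simpa only [p2] using hy) t
  have k2 : ∀ y ∈ μ.TM, spd g y ≤ 1 → ∀ t, HasDerivAt (fun s => Φ s y) (geX μ g (Φ t y)) t := by
    intro y hy h1 t
    have e1 := fun s => h.ge_energy (c := fun s => Φ s y) (k1 y hy s) (p3 s y)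
    have e2 := is_const_of_deriv_eq_zero (fun s => (e1 s).differentiableAt)
      (fun s => (e1 s).deriv) t 0
    simp only [p2] at e2
    have e3 := p3 t y
    rwa [c1 _ ⟨k1 y hy t, (congrArg Real.sqrt e2).trans_le h1⟩, one_smul] at e3
  set m : E × E → ℝ := fun x => √(1 + g x.1 x.2 x.2) with hm
  have m0 : ∀ x : E × E, x.1 ∈ μ.U → 0 < 1 + g x.1 x.2 x.2 := fun x hx => by
    linarith [h.nonneg hx x.2]
  have m1 : ∀ x : E × E, x.1 ∈ μ.U → 0 < m x := fun x hx => Real.sqrt_pos.2 (m0 x hx)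
  have m2 : ContDiffOn ℝ ∞ m μ.UU :=
    (contDiffOn_const.add (((h.smooth.comp contDiffOn_fst fun _ hx => hx).clm_apply
      contDiffOn_snd).clm_apply contDiffOn_snd)).sqrt fun x hx => (m0 x hx).ne'
  have m3 : ∀ (a : ℝ), ∀ y ∈ μ.TM, sc a y ∈ μ.TM := fun a y hy => ⟨hy.1, by simp [sc, hy.2]⟩
  have m4 : ∀ x : E × E, x.1 ∈ μ.U → spd g (sc (m x)⁻¹ (μ.R x)) ≤ 1 := fun x hx => by
    rw [spd_sc (inv_pos.2 (m1 x hx)).le, h.spd_R hx, inv_mul_le_one₀ (m1 x hx)]
    exact Real.sqrt_le_sqrt (by linarith)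
  refine ⟨fun t x => sc (m x) (Φ (m x * t) (sc (m x)⁻¹ (μ.R x))), ?_, fun x hx => ?_,
    fun t x hx => m3 _ _ (k1 _ (m3 _ _ (R_mem hx)) _),
    fun t x hx => ge_sc (c := fun s => Φ s _) _ (k2 _ (m3 _ _ (R_mem hx)) (m4 x hx) _)⟩
  · have a1 : ContDiffOn ℝ ∞ (fun p : ℝ × E × E => m p.2) {p | p.2 ∈ μ.UU} :=
      m2.comp contDiffOn_snd fun _ hp => hp
    have a2 : ContDiffOn ℝ ∞ (fun p : ℝ × E × E => μ.R p.2) {p | p.2 ∈ μ.UU} :=
      contDiffOn_R.comp contDiffOn_snd fun _ hp => hp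
    have a3 := p1.comp_contDiffOn ((a1.mul contDiffOn_fst).prodMk
      (a2.fst.prodMk ((a1.inv fun p hp => (m1 _ hp).ne').smul a2.snd)))
    exact a3.fst.prodMk (a1.smul a3.snd)
  · simp only [mul_zero, p2, sc_sc, mul_inv_cancel₀ (m1 x hx).ne', sc_one]

/-- A solution of the Euler-Lagrange equation in `M` solves the geodesic equation. -/
theorem ge_acc_of_el {c c' : ℝ → E} {c'' : E} {t : ℝ} (h0 : ∀ᶠ s in 𝓝 t, (c s, c' s) ∈ μ.TM)
    (h1 : HasDerivAt c (c' t) t) (h2 : HasDerivAt c' c'' t)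
    (hel : ∀ η, HasDerivAt (fun s => g (c s) (c' s) η)
      (1 / 2 * fderiv ℝ g (c t) η (c' t) (c' t)) t) :
    HasDerivAt (fun s => (c s, c' s)) (geX μ g (c t, c' t)) t := by
  have h3 := h0.self_of_nhds
  refine h1.prodMk (h2.congr_deriv (h.geAcc_uniq h3.1 h3.2 (fun η => ?_) ?_))
  · have h5 := (h.ge_hasDerivAt h3.1.1 h1 h2 (hasDerivAt_const t η)).unique (hel η)
    rw [geFrc_apply, ← h5, map_zero]
    ring
  · have h4 := (((hasFDerivAt_P h3.1.1).comp_hasDerivAt t h1).clm_apply h2).unique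
      (h2.congr_of_eventuallyEq (h0.mono fun s hs => hs.2))
    rw [Q_apply, sub_eq_iff_eq_add]
    exact h4.symm

theorem exists_geo : Nonempty (Geo μ g) := by
  obtain ⟨φ, hs, h0, hm, hd⟩ := h.ge_flow
  have hφ : ∀ x : E × E, x.1 ∈ μ.U → ∀ t, (φ t x).1 ∈ μ.U ∧
      HasDerivAt (fun s => φ s x) (geX μ g (φ t x)) t := fun x hx t => ⟨(hm t x hx).1.1, hd t x hx⟩
  refine ⟨⟨φ, hs, h0, fun t x hx => (hm t x hx).1, fun t x hx => (hm t x hx).2,
    fun s t x hx => ?_, fun t x hx => ?_, fun t x hx => ge_fst (hd t x hx),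
    fun t x η hx => h.ge_el (c := fun s => φ s x) (hm t x hx) (hd t x hx) η,
    fun r t x hx => ?_, fun c a b t₀ ht₀ hc hc0 hel t ht => ?_⟩⟩
  · exact h.ge_unique (c := fun s => φ (s + t) x)
      (fun s => ⟨(hm _ x hx).1.1, (hd (s + t) x hx).comp_add_const s t⟩) (hφ _ (hm t x hx).1.1)
      (by rw [zero_add, h0 _ (hm t x hx).1.1, R_of_TM (hm t x hx)]) s
  · have h2 := fun s => h.ge_energy (c := fun s => φ s x) (a := 1) (hm s x hx)
      (by rw [one_smul]; exact hd s x hx)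
    have h1 := is_const_of_deriv_eq_zero (fun s => (h2 s).differentiableAt)
      (fun s => (h2 s).deriv) t 0
    rw [h1, h0 x hx]
    exact h.inv _ _ _ hx
  · exact h.ge_unique (hφ (sc r x) hx) (c' := fun s => sc r (φ (r * s) x))
      (fun s => ⟨(hm _ x hx).1.1, ge_sc (c := fun s => φ s x) r (hd _ x hx)⟩)
      (by rw [h0 (sc r x) hx, mul_zero, h0 _ hx, R_sc]) t
  · have hc' : ContDiffOn ℝ ∞ (deriv c) (Ioo a b) := hc.deriv_of_isOpen isOpen_Ioo (by simp)
    have d1 : ∀ s ∈ Ioo a b, HasDerivAt c (deriv c s) s := fun s hs =>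
      ((hc.contDiffAt (isOpen_Ioo.mem_nhds hs)).differentiableAt (by simp)).hasDerivAt
    have d2 : ∀ s ∈ Ioo a b, (c s, deriv c s) ∈ μ.TM := fun s hs =>
      ⟨hc0 s hs, tan_of_curve (d1 s hs) (eventually_of_mem (isOpen_Ioo.mem_nhds hs) hc0)⟩
    have hx : (c t₀, deriv c t₀).1 ∈ μ.U := (hc0 t₀ ht₀).1
    have h1 := ode_unique μ.isOpen_UU (h.contDiffOn_geX.of_le (by simp)) ht₀
      (c := fun s => (c s, deriv c s)) (c' := fun s => φ (s - t₀) (c t₀, deriv c t₀))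
      (fun s hs => ⟨(hc0 s hs).1, h.ge_acc_of_el (eventually_of_mem (isOpen_Ioo.mem_nhds hs) d2)
        (d1 s hs) ((hc'.contDiffAt (isOpen_Ioo.mem_nhds hs)).differentiableAt (by simp)).hasDerivAt
        (hel s hs)⟩)
      (fun s _ => ⟨(hm _ _ hx).1.1, (hd (s - t₀) _ hx).comp_sub_const s t₀⟩)
      (by rw [sub_self, h0 _ hx, R_of_TM (d2 t₀ ht₀)]) t ht
    exact congrArg Prod.fst h1

end IsMetric

end Pool.Agent.Work.MP_8c604c_gt.O
end
end

-- merged part: Pool.Agent.Work.MP_8c604c_gt.OC.Amb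
section
/-!
From a metric along the Cayley plane to its pull-back by the retraction.
-/

set_option maxSynthPendingDepth 3

open Set Filter Topology Real
open scoped ContDiff

noncomputable section
namespace Pool.Agent.Work.MP_8c604c_gt.O

open Model

variable {E : Type} [NormedAddCommGroup E] [InnerProductSpace ℝ E] [FiniteDimensional ℝ E] {d : ℕ}
  {μ : Model E d} {g : Met E}

theorem IsMetric.scale (hg : IsMetric μ g) {a : ℝ} (ha : 0 < a) : IsMetric μ (a • g) where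
  smooth := hg.smooth.const_smul a
  symm z u w hz := by simp [hg.symm z u w hz]
  inv z u w hz := by simp [hg.inv z u w hz]
  pos z u hz hu := by simpa using mul_pos ha (hg.pos z u hz hu)

theorem IsUnitGeodesic.scale (hg : IsMetric μ g) {k : ℝ} (hk : 0 < k) {z : ℝ → E}
    (hz : IsUnitGeodesic μ (k ^ 2 • g) z) : IsUnitGeodesic μ g fun t => z (k * t) := by
  have hd : ∀ t, deriv (fun t => z (k * t)) t = k • deriv z (k * t) := fun t =>
    deriv_comp_mul_left k z t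
  refine ⟨hz.smooth.comp (contDiff_const.mul contDiff_id), fun t => hz.mem _, fun t η => ?_,
    fun t => ?_⟩
  · have h1 := ((hz.el (k * t) η).comp t ((hasDerivAt_id t).const_mul k)).const_mul k⁻¹
    have h2 : fderiv ℝ (k ^ 2 • g) (z (k * t)) = k ^ 2 • fderiv ℝ g (z (k * t)) :=
      fderiv_const_smul ((hg.contDiffAt (hz.mem _).1).differentiableAt (by simp)) _
    rw [h2] at h1
    simp only [hd]
    refine (h1.congr_deriv ?_).congr_of_eventuallyEq (Eventually.of_forall fun s => ?_)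
    · simp only [map_smul, smul_apply, smul_eq_mul]
      field_simp
    · simp only [Function.comp_def, map_smul, Pi.smul_apply, smul_apply, smul_eq_mul]
      field_simp
  · have h1 := hz.unit (k * t)
    rw [hd]
    simp only [map_smul, Pi.smul_apply, smul_apply, smul_eq_mul] at h1 ⊢
    linarith only [h1]

theorem len_scale {k : ℝ} (hk : 0 < k) (c : ℝ → E) : len (k ^ 2 • g) c = k * len g c := by
  unfold len
  rw [← intervalIntegral.integral_const_mul]
  refine intervalIntegral.integral_congr fun t _ => ?_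
  simp only [Pi.smul_apply, smul_apply, smul_eq_mul]
  rw [Real.sqrt_mul (sq_nonneg k), Real.sqrt_sq hk.le]

theorem IsMetric.exists_bl (hg : IsMetric μ g) {L : ℝ} (hL : 0 < L)
    (hper : ∀ z, IsUnitGeodesic μ g z → ∀ t, z (t + L) = z t)
    (hmin : ∀ z, IsUnitGeodesic μ g z → ∀ t ∈ Icc 0 (L / 2), ∀ c, Joins μ c (z 0) (z t) → t ≤ len g c) :
    ∃ G : Geo μ ((π / L) ^ 2 • g), Bl _ G := by
  have hk : 0 < π / L := div_pos pi_pos hL
  have hg' : IsMetric μ ((π / L) ^ 2 • g) := hg.scale (by positivity)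
  obtain ⟨G⟩ := hg'.exists_geo
  refine ⟨G, hg', fun x hx t => ?_, fun x hx t ht c hc => ?_⟩
  · have hc := hper _ ((G.isUnitGeodesic_Z hg' hx).scale hg hk) (t / (π / L))
    rwa [show π / L * (t / (π / L) + L) = t + π by field_simp,
      show π / L * (t / (π / L)) = t by field_simp] at hc
  · have h1 := hmin _ ((G.isUnitGeodesic_Z hg' hx).scale hg hk) (t / (π / L))
      ⟨div_nonneg ht.1 hk.le, by
        rw [div_le_iff₀ hk, show L / 2 * (π / L) = π / 2 by field_simp]; exact ht.2⟩ c (by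
        rw [show π / L * (t / (π / L)) = t by field_simp, mul_zero, G.Z_zero hx]
        exact ⟨hc.smooth, hc.mem, hc.start.trans (μ.idem _ hx.1).symm, hc.stop⟩)
    rw [len_scale hk]
    rwa [div_le_iff₀ hk, mul_comm] at h1

/-- The pull-back by the retraction. -/
def Model.up (μ : Model E d) (g : Met E) : Met E := fun z => (g (μ.r z)).bilinearComp (μ.P z) (μ.P z)

theorem up_apply (z u w : E) : μ.up g z u w = g (μ.r z) (μ.P z u) (μ.P z w) := rfl

theorem up_tan {z u w : E} (hz : z ∈ μ.M) (hu : μ.P z u = u) (hw : μ.P z w = w) :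
    μ.up g z u w = g z u w := by
  rw [up_apply, hz.2, hu, hw]

theorem contDiffOn_up (h1 : ∀ p ∈ μ.M, ContDiffAt ℝ ∞ g p) : ContDiffOn ℝ ∞ (μ.up g) μ.U := by
  have k : ContDiffOn ℝ ∞ (fun z => g (μ.r z)) μ.U := fun z hz =>
    ((h1 _ (r_mem hz)).comp z (contDiffAt_r hz)).contDiffWithinAt
  exact contDiffOn_clm_apply.2 fun u => contDiffOn_clm_apply.2 fun w =>
    (k.clm_apply (contDiffOn_P.clm_apply contDiffOn_const)).clm_apply
      (contDiffOn_P.clm_apply contDiffOn_const)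

theorem isMetric_up (h1 : ∀ p ∈ μ.M, ContDiffAt ℝ ∞ g p) (h2 : ∀ p ∈ μ.M, ∀ u w, g p u w = g p w u)
    (h3 : ∀ p ∈ μ.M, ∀ u, μ.P p u = u → u ≠ 0 → 0 < g p u u) : IsMetric μ (μ.up g) where
  smooth := contDiffOn_up h1
  symm z u w hz := h2 _ (r_mem hz) _ _
  inv z u w hz := by rw [up_apply, up_apply, μ.idem z hz, P_P hz, P_P hz]
  pos z u hz hu := h3 _ (r_mem hz) _ (P_P hz u) hu

theorem el_down (h1 : ∀ p ∈ μ.M, ContDiffAt ℝ ∞ g p) (h2 : ∀ p ∈ μ.M, ∀ u w, g p u w = g p w u)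
    {z : ℝ → E} (hz : IsUnitGeodesic μ (μ.up g) z) (t : ℝ) {η : E} (hη : μ.P (z t) η = η) :
    HasDerivAt (fun s => g (z s) (deriv z s) η)
      (1 / 2 * fderiv ℝ g (z t) η (deriv z t) (deriv z t)) t := by
  have d1 : ∀ s, HasDerivAt z (deriv z s) s := fun s => (hz.smooth.differentiable (by simp) s).hasDerivAt
  have tn : ∀ s, μ.P (z s) (deriv z s) = deriv z s := fun s => tan_of_curve (d1 s) (.of_forall hz.mem)
  have d2 := ((contDiff_infty_iff_deriv.1 hz.smooth).2.differentiable (by simp) t).hasDerivAt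
  have hM := hz.mem t
  have dg := ((h1 _ hM).differentiableAt (by simp)).hasFDerivAt
  have a1 := (dg.comp_hasDerivAt t (d1 t)).clm_apply d2
  have a2 := ((hasFDerivAt_P hM.1).comp_hasDerivAt t (d1 t)).clm_apply (hasDerivAt_const t η)
  have a3 := (a1.clm_apply a2).unique ((hz.el t η).congr_of_eventuallyEq (.of_forall fun s => by
    simp only [Function.comp_apply, up_apply, (hz.mem s).2, tn]))
  have h0 := fun v => (hasFDerivAt_P hM.1).clm_apply (hasFDerivAt_const v (z t))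
  have dg' : HasFDerivAt g (fderiv ℝ g (z t)) (μ.r (z t)) := hM.2.symm ▸ dg
  have b1 := ((dg'.comp (z t) (hasFDerivAt_r hM.1)).clm_apply (h0 (deriv z t))).clm_apply (h0 (deriv z t))
  have du := (((contDiffOn_up h1).contDiffAt (μ.isOpen.mem_nhds hM.1)).differentiableAt
    (by simp)).hasFDerivAt
  have b2 := congrArg (fun L => L η) (((du.clm_apply (hasFDerivAt_const (deriv z t) _)).clm_apply
    (hasFDerivAt_const (deriv z t) _)).unique b1)
  refine (a1.clm_apply (hasDerivAt_const t η)).congr_deriv ?_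
  simp [hM.2, hη, tn] at a3 b2 ⊢
  rw [h2 _ hM (fderiv ℝ μ.P (z t) η (deriv z t)), fderiv_P_symm hM.1 η] at b2
  linarith only [a3, b2]

end O

namespace OM

open O.Model

theorem tan_P {p u : J} (hp : p ∈ model.M) : Tan p u ↔ model.P p u = u := by
  constructor
  · rintro ⟨c, hc, hm, rfl, rfl⟩
    exact tan_of_curve (hc.differentiable (by simp) 0).hasDerivAt (.of_forall fun s => model_M ▸ hm s)
  · intro h
    obtain ⟨i, a, rfl⟩ := exists_chart hp
    obtain ⟨b, rfl⟩ := (O.Model.tan_iff i a u).1 h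
    refine ⟨fun s => model.χ i (a + s • b), (model.χ_smooth i).comp (by fun_prop),
      fun s => model_M ▸ χ_M i _, by simp, ?_⟩
    exact (O.jac_curve (hasFDerivAt_χ i a).differentiableAt (O.jac_line a b) (by simp)).deriv

theorem exists_bl {g : Met} (hg : IsMetric g) {L : ℝ} (hL : 0 < L)
    (hper : ∀ c, IsUnitGeodesic g c → ∀ t, c (t + L) = c t)
    (hmin : ∀ c, IsUnitGeodesic g c → ∀ t ∈ Icc 0 (L / 2), ∀ γ, Joins γ (c 0) (c t) → t ≤ len g γ) :
    ∃ G : O.Geo model ((π / L) ^ 2 • model.up g), O.Bl _ G := by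
  have h1 : ∀ p ∈ model.M, ContDiffAt ℝ ∞ g p := model_M ▸ hg.smooth
  have h2 : ∀ p ∈ model.M, ∀ u w, g p u w = g p w u := model_M ▸ hg.symm
  have key : ∀ z, O.IsUnitGeodesic model (model.up g) z → IsUnitGeodesic g z := fun z hz =>
    ⟨hz.smooth, model_M ▸ hz.mem, fun t η hη => O.el_down h1 h2 hz t ((tan_P (hz.mem t)).1 hη), fun t => by
      have tn := tan_of_curve (hz.smooth.differentiable (by simp) t).hasDerivAt (.of_forall hz.mem)
      rw [← O.up_tan (hz.mem t) tn tn, hz.unit]⟩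
  refine (O.isMetric_up h1 h2 fun p hp u hu => hg.pos p (model_M ▸ hp) u ((tan_P hp).2 hu)).exists_bl hL
    (fun z hz => hper z (key z hz)) fun z hz t ht c hc => ?_
  refine (hmin z (key z hz) t ht (model.r ∘ c) ⟨contDiff_iff_contDiffAt.2 fun s =>
    ((contDiffAt_r (hc.mem s)).of_le (by simp)).comp s hc.smooth.contDiffAt, fun s => model_M ▸ r_mem (hc.mem s),
    hc.start.trans (hz.mem 0).2, hc.stop.trans (hz.mem t).2⟩).trans_eq ?_
  refine intervalIntegral.integral_congr fun s _ => ?_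
  simp only [((hasFDerivAt_r (hc.mem s)).comp_hasDerivAt s
    (hc.smooth.differentiable one_ne_zero s).hasDerivAt).deriv]
  rfl

end Pool.Agent.Work.MP_8c604c_gt.OM
end
end

-- merged part: Pool.Agent.Work.MP_8c604c_gt.OM.MT
section
/-!
The cohomology of the Cayley plane: cells of dimension 0, 8, 16; two lines meet in one point.
-/

set_option maxSynthPendingDepth 3
set_option maxHeartbeats 400000

open Set Topology Pool.Agent.Work.MP_849ab0_ag.G
open scoped RealInnerProductSpace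

noncomputable section
namespace Pool.Agent.Work.MP_8c604c_gt.OM

open T

section General
variable {X : Type} [TopologicalSpace X] {U Z Z₁ U₂ Z₂ : Set X} {d : ℤ}

theorem mt_res_inj (h1 : U \ Z₁ = U₂) (h2 : U₂ \ Z₂ = U \ Z) (v : Van d U Z₁) {a : H U Z}
    (k : IsDeg d a) (e : pull id U₂ Z₂ a = 0) : a = 0 := by
  obtain ⟨y, rfl⟩ := (exact_supp_res h1 h2 a).1 e
  rw [← isDeg_iff.1 k, ← pull_prj, v.eq_zero (isDeg_prj d y), map_zero]

theorem mt_of_res (h1 : U \ Z₁ = U₂) (h2 : U₂ \ Z₂ = U \ Z) {c : H U Z}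
    (h : Gen d (pull id U₂ Z₂ c)) (hZ : IsZ c) (hd : IsDeg d c) (v : Van d U Z₁) : Gen d c where
  isZ := hZ
  deg := hd
  ne e := h.ne (by rw [e, map_zero])
  int a ha k := (h.int _ (ha.pul _ _ _) (k.pull _ _ _)).imp fun m e => sub_eq_zero.1
    (mt_res_inj h1 h2 v (k.sub (hd.smul _)) (by rw [map_sub, map_smul, e, sub_self]))
  span a k := (h.span _ (k.pull _ _ _)).imp fun m e => sub_eq_zero.1
    (mt_res_inj h1 h2 v (k.sub (hd.smul _)) (by rw [map_sub, map_smul, e, sub_self]))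

theorem mt_tf_res (h1 : U \ Z₁ = U₂) (h2 : U₂ \ Z₂ = U \ Z) (a : Tf d U₂ Z₂) (v : Van d U Z₁) :
    Tf d U Z := fun x hx e => by
  obtain ⟨y, rfl⟩ := (TZ.exact_supp_res h1 h2 x).1 (a _ (hx.pull _ _ _) (by rw [cc_pull, e, map_zero]))
  rw [← TZ.isDeg_iff.1 hx, ← TZ.pull_prj, v ℤ _ (TZ.isDeg_prj d y), map_zero]

theorem mt_dd (U Z : Set X) : (U \ Z) \ univ = U \ univ := by simp

variable {A : Type} [NormedAddCommGroup A] [NormedSpace ℝ A] [FiniteDimensional ℝ A]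

theorem mt_tf_loc : Tf d (univ : Set A) {0} := by
  have h : Tf d (univ : Set (Fin (Module.finrank ℝ A) → ℝ)) {0} := fun b _ e => by
    obtain ⟨m, rfl⟩ := (TZ.fib_orR (R := ℤ) _).gen b
    rw [cc_zsmul, cc_orR] at e
    have : (m : ℂ) = 0 := (smul_eq_zero.1 e).resolve_right (orR_ne_zero _)
    rw [Int.cast_eq_zero.1 this, zero_smul]
  exact h.pul (zb_lin (Module.finBasis ℝ A).equivFun)

theorem mt_van_univ (hq : d ≠ 0) : Van d (univ : Set A) univ :=
  have := FiniteDimensional.proper_real A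
  van_contr (F := fun z => z.2 • z.1) (x₀ := 0) (.of_continuous (by fun_prop) _)
    (fun _ _ _ _ => trivial) trivial (by simp) (by simp) hq

end General

theorem zb_iso (A : J ≃ₗᵢ[ℝ] J) {U Z U' Z' : Set J} (hU : ∀ x, x ∈ U ↔ A x ∈ U')
    (hZ : ∀ x ∈ U, x ∈ Z ↔ A x ∈ Z') : ZB A U Z U' Z' :=
  .of_inv (s := A.symm) (.of_mem (.of_continuous A.continuous _) (fun x => (hU x).1) fun x k => (hZ x k).2)
    (.of_mem (.of_continuous A.symm.continuous _) (fun y k => (hU _).2 (by rwa [A.apply_symm_apply]))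
      fun y k h => by
        have := (hZ _ ((hU _).2 (by rwa [A.apply_symm_apply]))).1 h
        rwa [A.apply_symm_apply] at this)
    (fun x _ => A.symm_apply_apply x) fun y _ => A.apply_symm_apply y

/-- The chart at `e0`. -/
def ch (v : O × O) : J := kap e0 (mk 0 0 0 0 v.1 v.2)

/-- Its inverse. -/
def ich (z : J) : O × O := ((d0 z)⁻¹ • x1 z, (d0 z)⁻¹ • x2 z)

theorem continuous_ch : Continuous ch :=
  (contDiff_kap' (n := 0) contDiff_const (contDiff_mk contDiff_const contDiff_const contDiff_const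
    contDiff_const contDiff_fst contDiff_snd)).continuous

theorem continuousOn_ich : ContinuousOn ich {z | d0 z ≠ 0} :=
  ((d0.continuous.continuousOn.inv₀ fun _ h => h).smul x1.continuous.continuousOn).prodMk
    ((d0.continuous.continuousOn.inv₀ fun _ h => h).smul x2.continuous.continuousOn)

theorem ch_mem (v : O × O) : ch v ∈ CaP := kap_mem e0_mem (Pj_e0 ..)

theorem ch_den (v : O × O) : (1 + (⟪v.1, v.1⟫ + ⟪v.2, v.2⟫))⁻¹ ≠ 0 := by
  have := real_inner_self_nonneg (x := v.1)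
  have := real_inner_self_nonneg (x := v.2)
  exact inv_ne_zero (by linarith)

theorem d0_ch (v : O × O) : d0 (ch v) ≠ 0 := by
  rw [ch, kap_e0, map_smul, d0_mk, smul_eq_mul, mul_one]
  exact ch_den v

theorem d1_ch (v : O × O) : d1 (ch v) = 0 ↔ v.2 = 0 := by
  rw [ch, kap_e0, map_smul, d1_mk, smul_eq_mul, mul_eq_zero, or_iff_right (ch_den v), inner_self_eq_zero]

theorem d2_ch (v : O × O) : d2 (ch v) = 0 ↔ v.1 = 0 := by
  rw [ch, kap_e0, map_smul, d2_mk, smul_eq_mul, mul_eq_zero, or_iff_right (ch_den v), inner_self_eq_zero]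

theorem ich_ch (v : O × O) : ich (ch v) = v := by
  rw [ich, ch, kap_e0, map_smul, map_smul, map_smul, d0_mk, x1_mk, x2_mk, smul_eq_mul, mul_one,
    inv_smul_smul₀ (ch_den v), inv_smul_smul₀ (ch_den v)]

theorem ch_ich {z : J} (hz : z ∈ CaP) (h : d0 z ≠ 0) : ch (ich z) = z := by
  have k := kap_eq e0_mem hz (by rwa [inner_e0])
  obtain ⟨a, b, c, x, y, z, rfl⟩ := exists_mk z
  rw [inner_e0, Pj_e0, mk_smul, mul_zero, smul_zero] at k
  exact k

theorem ch_zero : ch 0 = e0 := by simp [ch, mk_zero, kap, sh]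

theorem ch_eq {v : O × O} : ch v = e0 ↔ v = 0 :=
  ⟨fun h => by rw [← ich_ch v, h, ← ch_zero, ich_ch], fun h => by rw [h, ch_zero]⟩

theorem eq_e0 {z : J} (hz : z ∈ CaP) : z = e0 ↔ d1 z = 0 ∧ d2 z = 0 := by
  refine ⟨fun h => by simp [h, e0], fun h => eq_of_inner_eq_one e0_mem hz ?_⟩
  have := (mem_CaP.1 hz).2
  simp only [tr, add_apply, h.1, h.2, add_zero] at this
  rw [inner_e0, this]

theorem isOpen_d0 : IsOpen {z : J | d0 z ≠ 0} := isOpen_ne_fun d0.continuous continuous_const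

theorem d0_e0 : d0 e0 ≠ 0 := by simp [e0]

/-- charts of closed subsets -/
theorem zb_sub_ch {B : Type} [TopologicalSpace B] {ι : B → O × O} {π : O × O → B} (hι : Continuous ι)
    (hπ : Continuous π) (e : ∀ b, π (ι b) = b) {S : Set J} (hS : IsClosed S) (hM : S ⊆ CaP)
    (h : ∀ v, ch v ∈ S ↔ ι (π v) = v) {Z : Set B} {Z' : Set J} (hZ : ∀ b, ch (ι b) ∈ Z' ↔ b ∈ Z) :
    ZB (fun b => ch (ι b)) univ Z (S ∩ {z | d0 z ≠ 0}) Z' := by
  have k : ∀ z ∈ S ∩ {z | d0 z ≠ 0}, ch (ι (π (ich z))) = z := fun z hz => by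
    rw [(h _).1 (by rw [ch_ich (hM hz.1) hz.2]; exact hz.1), ch_ich (hM hz.1) hz.2]
  exact .of_inv (s := fun z => π (ich z))
    (.of_mem (.of_continuous (continuous_ch.comp hι) _)
      (fun b _ => ⟨(h _).2 (by rw [e]), d0_ch _⟩) fun b _ => (hZ b).1)
    (ok_of (hS.isLocallyClosed.inter isOpen_d0.isLocallyClosed)
      (hπ.comp_continuousOn (continuousOn_ich.mono inter_subset_right)) (mapsTo_univ _ _)
      fun z hz hz' => k z hz ▸ (hZ _).2 hz')
    (fun b _ => by rw [ich_ch, e]) k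

theorem zb_sub_pt {B : Type} [TopologicalSpace B] [Zero B] {ι : B → O × O} {π : O × O → B}
    (hι : Continuous ι) (hπ : Continuous π) (e : ∀ b, π (ι b) = b) (e0' : ι 0 = 0) {S : Set J}
    (hS : IsClosed S) (hM : S ⊆ CaP) (h : ∀ v, ch v ∈ S ↔ ι (π v) = v) :
    ZB (fun b => ch (ι b)) univ {0} S {e0} :=
  (zb_sub_ch hι hπ e hS hM h (Z' := {e0}) fun b => ch_eq.trans
    ⟨fun k => by rw [mem_singleton_iff, ← e b, k, ← e0', e], fun k => by rw [k, e0']⟩).comp
    (.excision_open isOpen_d0 (.of_isClosed isClosed_singleton _) fun _ _ k => k ▸ d0_e0) fun _ _ => rfl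

theorem zb_pt : ZB ch univ {0} CaP {e0} :=
  zb_sub_pt (ι := id) (π := id) continuous_id continuous_id (fun _ => rfl) rfl isClosed_CaP subset_rfl
    fun v => iff_of_true (ch_mem v) rfl

/-- The line given by a linear form. -/
def Lz (f : J →L[ℝ] ℝ) : Set J := CaP ∩ {z | f z = 0}

theorem isClosed_Lz (f : J →L[ℝ] ℝ) : IsClosed (Lz f) :=
  isClosed_CaP.inter (isClosed_eq f.continuous continuous_const)

theorem ch_L1 (v : O × O) : ch v ∈ Lz d1 ↔ ((v.1, 0) : O × O) = v :=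
  (and_iff_right (ch_mem v)).trans ((d1_ch v).trans ⟨fun h => Prod.ext rfl h.symm, fun h => by rw [← h]⟩)

theorem ch_L2 (v : O × O) : ch v ∈ Lz d2 ↔ ((0, v.2) : O × O) = v :=
  (and_iff_right (ch_mem v)).trans ((d2_ch v).trans ⟨fun h => Prod.ext h.symm rfl, fun h => by rw [← h]⟩)

theorem zb_l1 : ZB (fun y : O => ch (y, 0)) univ {0} (Lz d1) {e0} :=
  zb_sub_pt (ι := fun y => (y, 0)) (π := Prod.fst) (by fun_prop) continuous_fst (fun _ => rfl) rfl
    (isClosed_Lz _) inter_subset_left ch_L1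

theorem zb_l2 : ZB (fun z : O => ch (0, z)) univ {0} (Lz d2) {e0} :=
  zb_sub_pt (ι := fun z => (0, z)) (π := Prod.snd) (by fun_prop) continuous_snd (fun _ => rfl) rfl
    (isClosed_Lz _) inter_subset_left ch_L2

theorem d0_cyc (z : J) : d0 (cyc z) = d1 z := by
  obtain ⟨a, b, c, x, y, z, rfl⟩ := exists_mk z
  simp [cyc_mk]

theorem d1_cyc (z : J) : d1 (cyc z) = d2 z := by
  obtain ⟨a, b, c, x, y, z, rfl⟩ := exists_mk z
  simp [cyc_mk]

theorem d2_cyc (z : J) : d2 (cyc z) = d0 z := by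
  obtain ⟨a, b, c, x, y, z, rfl⟩ := exists_mk z
  simp [cyc_mk]

variable {q : ℤ}

theorem van_C0 (hq : q ≠ 0) : Van q (CaP ∩ {z | d0 z ≠ 0}) univ :=
  (mt_van_univ hq).of_pul (zb_sub_ch (ι := id) (π := id) continuous_id continuous_id (fun _ => rfl)
    isClosed_CaP subset_rfl (fun v => iff_of_true (ch_mem v) rfl) fun _ => Iff.rfl)

theorem van_C1 (hq : q ≠ 0) : Van q (CaP \ {z | d1 z = 0}) univ :=
  (van_C0 hq).pul (zb_iso cyc (fun z => and_congr isAut_cyc.mem_iff.symm (by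
    rw [mem_ofPred_eq, mem_ofPred_eq, d0_cyc])) fun _ _ => Iff.rfl)

theorem van_C2 (hq : q ≠ 0) : Van q (CaP \ {z | d2 z = 0}) univ :=
  (van_C1 hq).pul (zb_iso cyc (fun z => and_congr isAut_cyc.mem_iff.symm (by
    rw [mem_ofPred_eq, mem_ofPred_eq, d1_cyc])) fun _ _ => Iff.rfl)

theorem van_L2p (hq : q ≠ 0) : Van q (Lz d2 \ {e0}) univ := by
  have h : Van q (Lz d1 ∩ {z | d0 z ≠ 0}) univ :=
    (mt_van_univ hq).of_pul (zb_sub_ch (ι := fun y : O => (y, 0)) (π := Prod.fst) (by fun_prop)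
      continuous_fst (fun _ => rfl) (isClosed_Lz _) inter_subset_left ch_L1 fun _ => Iff.rfl)
  refine h.pul (zb_iso cyc (fun z => ?_) fun _ _ => Iff.rfl)
  simp only [Lz, mem_diff, mem_inter_iff, mem_ofPred_eq, isAut_cyc.mem_iff, d0_cyc, d1_cyc,
    mem_singleton_iff]
  exact and_congr_right fun k => not_congr ((eq_e0 k.1).trans (and_iff_left k.2))

theorem van_L1p (hq : q ≠ 0) : Van q (Lz d1 \ {e0}) univ := by
  have h : Van q (Lz d2 ∩ {z | d0 z ≠ 0}) univ :=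
    (mt_van_univ hq).of_pul (zb_sub_ch (ι := fun y : O => (0, y)) (π := Prod.snd) (by fun_prop)
      continuous_snd (fun _ => rfl) (isClosed_Lz _) inter_subset_left ch_L2 fun _ => Iff.rfl)
  refine h.pul (zb_iso (cyc.trans cyc) (fun z => ?_) fun _ _ => Iff.rfl)
  simp only [Lz, mem_diff, mem_inter_iff, mem_ofPred_eq, LinearIsometryEquiv.trans_apply,
    isAut_cyc.mem_iff, d0_cyc, d1_cyc, d2_cyc, mem_singleton_iff]
  exact and_congr_right fun k => not_congr ((eq_e0 k.1).trans (and_iff_right k.2))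

theorem zb_L02 : ZB cyc (Lz d0) univ (Lz d2) univ :=
  zb_iso cyc (fun z => and_congr isAut_cyc.mem_iff.symm (by rw [mem_ofPred_eq, mem_ofPred_eq, d2_cyc]))
    fun _ _ => Iff.rfl

/-- The complement of a point retracts onto the opposite line. -/
theorem zb_ret : ZB id (Lz d0) univ (CaP \ {e0}) univ := by
  let F : J × ℝ → J := fun p => ((1 - p.2) ^ 2 * d0 p.1 + d1 p.1 + d2 p.1)⁻¹ •
    mk ((1 - p.2) ^ 2 * d0 p.1) (d1 p.1) (d2 p.1) (x0 p.1) ((1 - p.2) • x1 p.1) ((1 - p.2) • x2 p.1)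
  have hp : ∀ z ∈ CaP \ {e0}, 0 < d1 z + d2 z ∧ 0 ≤ d0 z := fun z hz => by
    have h1 := inner_le_one e0_mem hz.1
    have h2 : ⟪e0, z⟫ ≠ 1 := fun e => hz.2 (eq_of_inner_eq_one e0_mem hz.1 e)
    have h3 := (mem_CaP.1 hz.1).2
    have h4 := inner_nonneg e0_mem hz.1
    rw [inner_e0] at h1 h2 h4
    simp only [tr, add_apply] at h3
    exact ⟨by linarith [lt_of_le_of_ne h1 h2], h4⟩
  have hd : ∀ z ∈ CaP \ {e0}, ∀ t : ℝ, 0 < (1 - t) ^ 2 * d0 z + d1 z + d2 z := fun z hz t => by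
    have := mul_nonneg (sq_nonneg (1 - t)) (hp z hz).2
    linarith [(hp z hz).1]
  have hm : ∀ z ∈ CaP \ {e0}, ∀ t : ℝ, F (z, t) ∈ CaP \ {e0} := fun z hz t => by
    have h0 := hd z hz t
    have h1 := (hp z hz).1
    obtain ⟨a, b, c, x, y, z, rfl⟩ := exists_mk z
    obtain ⟨⟨k0, k1, k2, k3, k4, k5⟩, -⟩ := mk_mem.1 hz.1
    simp only [F, d0_mk, d1_mk, d2_mk, x0_mk, x1_mk, x2_mk] at h0 h1 ⊢
    have h2 : sh (mk ((1 - t) ^ 2 * a) b c x ((1 - t) • y) ((1 - t) • z)) = 0 := by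
      rw [sh_mk, ← mk_zero, mk_inj]
      simp only [real_inner_smul_left, real_inner_smul_right, smul_mul_assoc, mul_smul_comm, star_smul,
        star_trivial, k3, k4, k5, ← k0, ← k1, ← k2]
      refine ⟨by ring, by ring, by ring, by module, by module, by module⟩
    have h3 : ((1 - t) ^ 2 * a + b + c)⁻¹ • mk ((1 - t) ^ 2 * a) b c x ((1 - t) • y) ((1 - t) • z) ∈ CaP := by
      rw [mem_CaP, sh_smul, h2, smul_zero, map_smul, tr_mk, smul_eq_mul, inv_mul_cancel₀ h0.ne']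
      exact ⟨rfl, rfl⟩
    refine ⟨h3, fun e => ?_⟩
    obtain ⟨e1, e2⟩ := (eq_e0 h3).1 e
    simp only [map_smul, d1_mk, d2_mk, smul_eq_mul, mul_eq_zero, inv_eq_zero, h0.ne', false_or] at e1 e2
    linarith only [h1, e1, e2]
  have hs : Lz d0 ⊆ CaP \ {e0} := fun z hz => ⟨hz.1, fun e => d0_e0 (e ▸ hz.2)⟩
  refine .retract hs (fun _ _ => Iff.rfl) (F := F) (.of_continuousAt fun p hp' => ?_)
    (fun z hz t _ => hm z hz t) (fun z hz t _ => ⟨(hm z (hs hz) t).1, ?_⟩) (fun _ _ _ _ _ => trivial)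
    (fun z hz => ?_) fun z hz => ⟨(hm z hz 1).1, ?_⟩
  · have c1 : Continuous fun p : J × ℝ => (1 - p.2) ^ 2 * d0 p.1 + d1 p.1 + d2 p.1 := by fun_prop
    have c2 : Continuous fun p : J × ℝ => mk ((1 - p.2) ^ 2 * d0 p.1) (d1 p.1) (d2 p.1) (x0 p.1)
        ((1 - p.2) • x1 p.1) ((1 - p.2) • x2 p.1) :=
      continuous_mk (by fun_prop) (by fun_prop) (by fun_prop) (by fun_prop) (by fun_prop) (by fun_prop)
    exact (c1.continuousAt.inv₀ (hd _ hp'.1 _).ne').smul c2.continuousAt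
  · have : d0 z = 0 := hz.2
    simp [F, this]
  · have h3 := (mem_CaP.1 hz.1).2
    simp only [tr, add_apply] at h3
    simp [F, h3, mk_eta]
  · simp [F]

theorem finrank_OO : Module.finrank ℝ (O × O) = 16 := by rw [Module.finrank_prod, finrank_O]

theorem van_pt (hq : q ≠ 16) : Van q CaP {e0} :=
  (van_loc (by rw [finrank_OO]; exact_mod_cast hq)).of_pul zb_pt

theorem van_Mp (h0 : q ≠ 0) (h8 : q ≠ 8) : Van q (CaP \ {e0}) univ :=
  ((Van.mid rfl (mt_dd _ _) ((van_loc (by rw [finrank_O]; exact_mod_cast h8)).of_pul zb_l2)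
    (van_L2p h0)).pul zb_L02).of_pul zb_ret

theorem tf_Mp : Tf 8 (CaP \ {e0}) univ :=
  ((Tf.mid rfl (mt_dd _ _) (mt_tf_loc.of_pul zb_l2) (van_L2p (by norm_num))
    (van_L2p (by norm_num))).pul zb_L02).of_pul zb_ret

theorem exists_gen8 : ∃ y : H CaP univ, Gen 8 y ∧ Gen 8 (pull id (Lz d0) univ y) := by
  obtain ⟨ω, h1⟩ := exists_gen O
  rw [finrank_O] at h1
  obtain ⟨ω', h2, -⟩ := h1.exists_pul zb_l2
  have h3 := (h2.supp' rfl (mt_dd _ _) (van_L2p (by norm_num)) (van_L2p (by norm_num))).pul zb_L02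
  obtain ⟨a, h4, -⟩ := h3.exists_pul zb_ret
  obtain ⟨y, y1, y2, y3⟩ := Van.extend rfl (mt_dd CaP {e0}) (van_pt (by norm_num)) h4.isZ h4.deg
  refine ⟨y, mt_of_res rfl (mt_dd _ _) (y3 ▸ h4) y1 y2 (van_pt (by norm_num)), ?_⟩
  have h5 := h4.pul zb_ret
  rwa [← y3, pull_pull' (F := id) zb_ret.ok (.id sdiff_subset fun _ _ _ => trivial) fun _ _ => rfl] at h5

theorem ok_Lz (f : J →L[ℝ] ℝ) : Ok id (Lz f) univ CaP univ := .id inter_subset_left fun _ _ _ => trivial

theorem gen_res {A : J ≃ₗᵢ[ℝ] J} (hA : IsAut A) {f : J →L[ℝ] ℝ} (hf : ∀ z, d0 (A z) = f z)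
    {y : H CaP univ} (hy : Gen 8 y) : Gen 8 (pull id (Lz f) univ y) := by
  obtain ⟨y0, h1, h2⟩ := exists_gen8
  have z1 : ZB A CaP univ CaP univ := zb_iso A (fun _ => hA.mem_iff.symm) fun _ _ => Iff.rfl
  have z2 : ZB A (Lz f) univ (Lz d0) univ :=
    zb_iso A (fun z => and_congr hA.mem_iff.symm (by rw [mem_ofPred_eq, mem_ofPred_eq, hf]))
      fun _ _ => Iff.rfl
  have h3 := h2.pul z2
  rw [pull_pull' (F := A) z2.ok (ok_Lz _) fun _ _ => rfl,
    ← pull_pull' (F := A) (ok_Lz f) z1.ok fun _ _ => rfl] at h3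
  rcases (h1.pul z1).eq_or hy with e | e
  · rwa [e]
  · rw [e, map_neg]
    exact h3.neg

theorem gen_line {f : J →L[ℝ] ℝ} {S : Set J} {c : H CaP S} (hZ : IsZ c) (hd : IsDeg 8 c)
    (hS : ∀ z ∈ Lz f, z ∈ S → z = e0) (v : Van 7 (Lz f \ {e0}) univ)
    (h : Gen 8 (pull id (Lz f) univ (pull id CaP univ c))) : Gen 8 (pull id (Lz f) {e0} c) := by
  refine Gen.of_supp rfl (mt_dd _ _) ?_ (hZ.pul _ _ _) (hd.pull _ _ _) fun _ => v.eq_zero
  have o1 : Ok id CaP univ CaP S := .id subset_rfl fun _ _ _ => trivial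
  have o2 : Ok id (Lz f) univ (Lz f) {e0} := .id subset_rfl fun _ _ _ => trivial
  have o3 : Ok id (Lz f) {e0} CaP S := .id inter_subset_left hS
  rw [pull_pull' (F := id) (ok_Lz f) o1 fun _ _ => rfl] at h
  rwa [pull_pull' (F := id) o2 o3 fun _ _ => rfl]

/-- the product of two local generators -/
theorem gen_prod {ω ω' : H (univ : Set O) {0}} (h : Gen 8 ω) (h' : Gen 8 ω') :
    Gen 16 (cup (univ : Set (O × O)) {0} (pull Prod.fst univ {v | v.1 = 0} ω)
      (pull Prod.snd univ {v | v.2 = 0} ω')) := by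
  let e : O ≃ₗ[ℝ] (Fin 4 → ℂ) := LinearEquiv.ofFinrankEq _ _ (by
    rw [finrank_O, Module.finrank_pi_fintype]
    simp)
  let E := (e.prodCongr e).trans (LinearEquiv.sumArrowLequivProdArrow _ _ ℝ ℂ).symm
  have g := zb_lin E
  have oe := zb_lin e
  have p1 : Ok (Prod.fst : O × O → _) univ {x | x.1 = 0} univ {0} :=
    .of_mem (.of_continuous continuous_fst _) (fun _ _ => trivial) fun _ _ h => h
  have p2 : Ok (Prod.snd : O × O → _) univ {x | x.2 = 0} univ {0} :=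
    .of_mem (.of_continuous continuous_snd _) (fun _ _ => trivial) fun _ _ h => h
  have r : ∀ k : Fin 4 → Fin 4 ⊕ Fin 4,
      Ok (fun v : _ → ℂ => v ∘ Equiv.refl _ ∘ k) univ {v | v ∘ Equiv.refl _ ∘ k = 0} univ {0} :=
    fun k => .of_mem (.of_continuous (by fun_prop) _) (fun _ _ => trivial) fun _ _ h => h
  have r1 : Ok E univ {x | x.1 = 0} univ {v | v ∘ Equiv.refl _ ∘ Sum.inl = 0} :=
    .of_mem g.ok.ext (fun _ _ => trivial) fun _ _ h => e.map_eq_zero_iff.1 h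
  have r2 : Ok E univ {x | x.2 = 0} univ {v | v ∘ Equiv.refl _ ∘ Sum.inr = 0} :=
    .of_mem g.ok.ext (fun _ _ => trivial) fun _ _ h => e.map_eq_zero_iff.1 h
  have k := (gen_orient _).pul g
  rw [orient_sum (Equiv.refl _), pull_cup' g.ok r1 r2 (fun _ _ a b => Prod.ext a b)
    (cupOK fun _ _ a b => funext (Sum.rec (congrFun a) (congrFun b))),
    pull_pull' (F := fun x => e x.1) r1 (r _) fun _ _ => rfl,
    pull_pull' (F := fun x => e x.2) r2 (r _) fun _ _ => rfl,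
    ← pull_pull' p1 oe.ok fun _ _ => rfl, ← pull_pull' p2 oe.ok fun _ _ => rfl,
    show (2 * Fintype.card (Fin 4 ⊕ Fin 4) : ℤ) = 16 by simp] at k
  have k0 := (gen_orient (Fin 4)).pul oe
  rw [show (2 * Fintype.card (Fin 4) : ℤ) = 8 by simp] at k0
  rcases k0.eq_or h with rfl | rfl <;> rcases k0.eq_or h' with rfl | rfl
  · exact k
  all_goals simp only [map_neg, LinearMap.neg_apply, neg_neg]
  exacts [k.neg, k.neg, k]

theorem gen_sq {y : H CaP univ} (hy : Gen 8 y) : Gen 16 (y ^ 2) := by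
  obtain ⟨c1, a1, b1, e1⟩ := Van.lift rfl (mt_dd CaP {z | d1 z = 0}) (van_C1 (by norm_num)) hy.isZ hy.deg
  obtain ⟨c2, a2, b2, e2⟩ := Van.lift rfl (mt_dd CaP {z | d2 z = 0}) (van_C2 (by norm_num)) hy.isZ hy.deg
  have g1 := (gen_line (f := d2) a1 b1 (fun z k k' => (eq_e0 k.1).2 ⟨k', k.2⟩) (van_L2p (by norm_num))
    (e1 ▸ gen_res (isAut_cyc.trans isAut_cyc) (fun z => by
      rw [LinearIsometryEquiv.trans_apply, d0_cyc, d1_cyc]) hy)).pul zb_l2
  have g2 := (gen_line (f := d1) a2 b2 (fun z k k' => (eq_e0 k.1).2 ⟨k.2, k'⟩) (van_L1p (by norm_num))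
    (e2 ▸ gen_res isAut_cyc d0_cyc hy)).pul zb_l1
  have o1 : Ok ch univ {v | v.2 = 0} CaP {z | d1 z = 0} :=
    .of_mem (.of_continuous continuous_ch _) (fun v _ => ch_mem v) fun v _ => (d1_ch v).1
  have o2 : Ok ch univ {v | v.1 = 0} CaP {z | d2 z = 0} :=
    .of_mem (.of_continuous continuous_ch _) (fun v _ => ch_mem v) fun v _ => (d2_ch v).1
  have p1 : Ok (Prod.fst : O × O → _) univ {x | x.1 = 0} univ {0} :=
    .of_mem (.of_continuous continuous_fst _) (fun _ _ => trivial) fun _ _ h => h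
  have p2 : Ok (Prod.snd : O × O → _) univ {x | x.2 = 0} univ {0} :=
    .of_mem (.of_continuous continuous_snd _) (fun _ _ => trivial) fun _ _ h => h
  have s1 : Ok (fun y : O => ((y, 0) : O × O)) univ {0} univ {x | x.1 = 0} :=
    .of_mem (.of_continuous (by fun_prop) _) (fun _ _ => trivial) fun _ _ h => h
  have s2 : Ok (fun y : O => ((0, y) : O × O)) univ {0} univ {x | x.2 = 0} :=
    .of_mem (.of_continuous (by fun_prop) _) (fun _ _ => trivial) fun _ _ h => h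
  have z1 : ZB (Prod.fst : O × O → _) univ {x | x.1 = 0} univ {0} :=
    .of_section p1 s1 (fun _ _ => rfl) (F := fun p => (p.1.1, p.2 • p.1.2)) (.of_continuous (by fun_prop) _)
      (fun _ _ _ _ => trivial) (fun _ _ _ _ h => h) (by simp) (by simp)
  have z2 : ZB (Prod.snd : O × O → _) univ {x | x.2 = 0} univ {0} :=
    .of_section p2 s2 (fun _ _ => rfl) (F := fun p => (p.2 • p.1.1, p.1.2)) (.of_continuous (by fun_prop) _)
      (fun _ _ _ _ => trivial) (fun _ _ _ _ h => h) (by simp) (by simp)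
  obtain ⟨ω1, w1⟩ := z2.bij.2 (pull ch univ {v | v.2 = 0} c1)
  obtain ⟨ω2, w2⟩ := z1.bij.2 (pull ch univ {v | v.1 = 0} c2)
  rw [pull_pull' (F := fun z => ch (0, z)) zb_l2.ok
    (.id inter_subset_left fun z k k' => (eq_e0 k.1).2 ⟨k', k.2⟩) fun _ _ => rfl,
    ← pull_pull' s2 o1 fun _ _ => rfl, ← w1, pull_pull' (F := id) s2 p2 fun _ _ => rfl, pull_id] at g1
  rw [pull_pull' (F := fun z => ch (z, 0)) zb_l1.ok
    (.id inter_subset_left fun z k k' => (eq_e0 k.1).2 ⟨k.2, k'⟩) fun _ _ => rfl,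
    ← pull_pull' s1 o2 fun _ _ => rfl, ← w2, pull_pull' (F := id) s1 p1 fun _ _ => rfl, pull_id] at g2
  have ck : CupOK CaP {z | d2 z = 0} CaP {z | d1 z = 0} CaP {e0} :=
    cupOK fun z k a b => (eq_e0 k).2 ⟨b, a⟩
  have g := gen_prod g2 g1
  rw [w1, w2, ← pull_cup' zb_pt.ok o2 o1 (fun _ _ a b => Prod.ext a b) ck] at g
  have g' := (g.of_pul zb_pt).supp' rfl (mt_dd _ _) (van_Mp (by norm_num) (by norm_num))
    (van_Mp (by norm_num) (by norm_num))
  have u : ∀ {Z : Set J}, Ok id CaP univ CaP Z := .id subset_rfl fun _ _ _ => trivial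
  rwa [res_cup u u u (cupOK fun _ _ _ _ => trivial) ck, e1, e2, ← mulH, ← sq] at g'

theorem isConnected_CaP : IsConnected CaP := by
  have h : CaP = ⋃ i, range (chi (pm i)) := Set.ext fun z => ⟨fun hz => by
      obtain ⟨i, hi⟩ := ret_cover hz
      exact mem_iUnion.2 ⟨i, _, chi_rho (isAut_pm i) hz hi⟩,
    fun hz => by
      obtain ⟨i, a, rfl⟩ := mem_iUnion.1 hz
      exact chi_mem (isAut_pm i) a⟩
  have hp : mk (1 / 3) (1 / 3) (1 / 3) ((1 / 3 : ℝ) • 1) ((1 / 3 : ℝ) • 1) ((1 / 3 : ℝ) • 1) ∈ CaP := by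
    simp only [mk_mem, real_inner_smul_left, real_inner_smul_right, CA.one_one, smul_mul_assoc,
      mul_smul_comm, mul_one, star_smul, star_trivial, CA.star_one', and_self, true_and]
    norm_num
  refine ⟨⟨e0, e0_mem⟩, ?_⟩
  rw [h]
  refine isPreconnected_iUnion ⟨_, mem_iInter.2 fun i => ⟨_, chi_rho (isAut_pm i) hp ?_⟩⟩
    fun i => isPreconnected_range (contDiff_chi (n := 0) _).continuous
  fin_cases i <;> simp [pm, cyc_mk]

theorem exists_MT (X : OT.Mf J) (h : X.M = CaP) : Nonempty (OT.MT X) := by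
  obtain ⟨M, U, r, tp, _, _, _, _, _, _, _, _⟩ := X
  subst h
  obtain ⟨y, hy, -⟩ := exists_gen8
  refine ⟨⟨y, isConnected_CaP, hy, gen_sq hy, fun q h0 h8 h16 => ?_, ?_, ?_, fun p hp => ?_⟩⟩
  · exact Van.mid rfl (mt_dd _ _) (van_pt h16) (van_Mp h0 h8)
  · exact mt_tf_res rfl (mt_dd _ _) tf_Mp (van_pt (by norm_num))
  · exact Tf.mid rfl (mt_dd _ _) (mt_tf_loc.of_pul zb_pt) (van_Mp (by norm_num) (by norm_num))
      (van_Mp (by norm_num) (by norm_num))
  · obtain ⟨A, hA, rfl⟩ := exists_aut hp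
    exact (van_Mp (by norm_num) (by norm_num)).of_pul (zb_iso A (fun z => and_congr hA.mem_iff.symm
      (not_congr A.injective.eq_iff.symm)) fun _ _ => Iff.rfl)

end Pool.Agent.Work.MP_8c604c_gt.OM
end
end
end

-- merged part: Pool.Agent.Work.MP_8c604c_gt.P.Bm
section
/-!
Metrics whose geodesics minimise exactly up to `D`: distance along geodesics, conjugate points, Hopf-Rinow.
The proofs are those of `O/Dist`, `O/NC`, `O/Log`, `O/HR`, `O/Link`, without the periodicity hypothesis.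
-/

set_option maxSynthPendingDepth 3
set_option linter.unusedSectionVars false

open Set Filter Topology MeasureTheory
open scoped ContDiff

noncomputable section
namespace Pool.Agent.Work.MP_8c604c_gt.P

open O O.Model

variable {E : Type} [NormedAddCommGroup E] [InnerProductSpace ℝ E] [FiniteDimensional ℝ E] {d : ℕ}
  {μ : Model E d} {g : Met E}

/-- Geodesics minimise up to `D`. -/
structure Bm (g : Met E) (G : Geo μ g) (D : ℝ) : Prop where
  met : IsMetric μ g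
  pos : 0 < D
  min : ∀ x ∈ μ.OO, D ≤ dd μ g x.1 (G.Z D x)

namespace Bm
variable {G : Geo μ g} {D : ℝ} (B : Bm g G D)
include B

theorem dist_dd_Z {x : E × E} (hx : x ∈ μ.OO) {s t : ℝ} (_h0 : s ≤ t) (hst : t - s ≤ D) :
    t - s ≤ dd μ g (G.Z s x) (G.Z t x) := by
  have h1 := B.min _ (G.psi_mem B.met s hx)
  rw [G.Z_add _ _ hx] at h1
  have h2 := B.met.dd_triangle (G.Z_U s hx) (G.Z_U t hx) (G.Z_U (D + s) hx)
  have h3 := B.met.dd_Z_le G hx t (D + s)
  rw [abs_of_nonneg (by linarith)] at h3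
  have h4 : (G.psi s x).1 = G.Z s x := rfl
  rw [h4] at h1
  linarith

theorem dd_Z {x : E × E} (hx : x ∈ μ.OO) {s t : ℝ} (hst : |t - s| ≤ D) :
    dd μ g (G.Z s x) (G.Z t x) = |t - s| := by
  refine le_antisymm (B.met.dd_Z_le G hx s t) ?_
  rcases le_total s t with h | h
  · rw [abs_of_nonneg (by linarith only [h])] at hst ⊢
    exact B.dist_dd_Z hx h hst
  · rw [abs_sub_comm, abs_of_nonneg (by linarith)] at hst ⊢
    rw [dd_symm]
    exact B.dist_dd_Z hx h hst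

theorem dd_Z_zero {x : E × E} (hx : x ∈ μ.OO) {t : ℝ} (ht : |t| ≤ D) :
    dd μ g x.1 (G.Z t x) = |t| := by
  have := B.dd_Z hx (s := 0) (t := t) (by rwa [sub_zero])
  rwa [G.Z_zero hx, dd_r_left hx.1, sub_zero] at this

theorem dd_ex {q u : E} (hq : q ∈ μ.U) (hu : √(g q u u) ≤ D) :
    dd μ g q (G.ex q u) = √(g q u u) := by
  by_cases h : μ.P q u = 0
  · rw [G.ex_congr hq (h.trans (map_zero _).symm), G.ex_zero hq, dd_r_right _ hq, dd_self hq,
      B.met.vert hq h, Real.sqrt_zero]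
  · have hx : (q, u) ∈ μ.OO := ⟨hq, h⟩
    have h1 : |spd g (q, u)| = √(g q u u) := abs_of_nonneg (Real.sqrt_nonneg _)
    have h2 := B.dd_Z_zero hx (h1.trans_le hu)
    rwa [← G.ex_eq_Z B.met hx, h1] at h2

/-- First variation at a point of maximal distance. -/
theorem orth {x : E × E} (hx : x ∈ μ.TT) {q : ℝ → E} {a : E} (hq : HasDerivAt q a 0)
    (h0 : q 0 = x.1) (hd : ∀ᶠ τ in 𝓝 (0 : ℝ), dd μ g (q τ) (G.Z D x) = D) :
    g x.1 a x.2 = 0 := by
  have ho := TT_OO hx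
  have key : ∀ k : ℝ, 1 ≤ √(g x.1 (k • a - vel g x) (k • a - vel g x)) := by
    intro k
    refine le_of_forall_pos_le_add fun η hη => ?_
    have hk : HasDerivAt (fun ε : ℝ => k * ε) k 0 := by simpa using (hasDerivAt_id 0).const_mul k
    have h1 : HasDerivAt (fun ε : ℝ => q (k * ε)) (k • a) 0 :=
      HasDerivAt.scomp_of_eq 0 hq hk (by simp)
    have h2 := G.hasDerivAt_Z B.met 0 ho
    rw [G.psi_zero' hx] at h2
    have h3 := B.met.dd_local ho.1 h1 h2 (by simpa using h0) (G.Z_zero' hx) hη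
    have h4 : ∀ᶠ ε in 𝓝 (0 : ℝ), q (k * ε) ∈ μ.U :=
      h1.continuousAt.eventually (μ.isOpen.mem_nhds (by simpa [h0] using ho.1))
    have ht : Tendsto (fun ε : ℝ => k * ε) (𝓝 0) (𝓝 0) := by
      simpa using hk.continuousAt.tendsto
    have h5 : ∀ᶠ ε in 𝓝[>] (0 : ℝ), ε ∈ Ioo 0 D :=
      Ioo_mem_nhdsGT B.pos
    obtain ⟨ε, e3, e5, e4, e6⟩ := (h3.and (h5.and
      ((h4.and (ht.eventually hd)).filter_mono nhdsWithin_le_nhds))).exists
    have e7 := B.met.dd_triangle e4 (G.Z_U ε ho) (G.Z_U D ho)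
    have e8 := B.met.dd_Z_le G ho ε D
    rw [abs_of_nonneg (by linarith [e5.2])] at e8
    refine le_of_mul_le_mul_left ?_ e5.1
    linarith
  have hv : g x.1 a (vel g x) = 0 := by
    refine dist_quad (B.met.nonneg ho.1 a) fun k => ?_
    have h1 := Real.one_le_sqrt.1 (key k)
    simp only [map_sub, map_smul, sub_apply, smul_apply,
      smul_eq_mul, B.met.vel_unit ho, B.met.symm x.1 (vel g x) a ho.1] at h1
    linarith
  rw [B.met.snd_eq ho, map_smul, hv, smul_zero]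

/-- Two geodesics from the same point that meet at a time `r < D` coincide. -/
theorem Z_inj {x x' : E × E} (hx : x ∈ μ.TT) (hx' : x' ∈ μ.TT) (e0 : x'.1 = x.1) {r : ℝ}
    (hr : r ∈ Ioo 0 D) (e : G.Z r x = G.Z r x') : vel g x = vel g x' := by
  have ho := TT_OO hx
  have ho' := TT_OO hx'
  have hv : vel g (G.psi r x) = vel g (G.psi r x') := by
    by_contra hv
    have h1 := B.met.corner G (G.psi_TT B.met r ho') (G.psi_TT B.met r ho) e hv hr.1 (sub_pos.2 hr.2)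
    have h2 := B.dist_dd_Z ho (s := 0) (t := D) (by linarith [hr.1, hr.2]) (by linarith)
    rw [G.Z_add _ _ ho', G.Z_add _ _ ho, neg_add_cancel, sub_add_cancel, G.Z_zero' hx', e0] at h1
    rw [G.Z_zero' hx] at h2
    linarith
  refine G.vel_congr B.met hx hx' fun t => ?_
  have := G.Z_congr B.met ho ho' e hv (t - r)
  rwa [sub_add_cancel] at this

theorem no_conj {x : E × E} (hx : x ∈ μ.OO) {t : ℝ} (ht : t ∈ Ioo 0 D) {u : E}
    (h0 : G.JJ t x (0, u) = 0) : u ∈ μ.Bs x := by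
  by_contra hB
  have h := B.met
  have hZ := G.Z_U t hx
  have hpos := G.nc_pos h hx h0 hB
  set ξ : E × E := (0, u) with hξ
  have hJ0 : G.JJ 0 x ξ = 0 := by rw [G.JJ_zero hx, hξ, map_zero]
  obtain ⟨C, hC⟩ := G.nc_lin_bound h hx ht.2
  have hd := fun s => G.hasDerivAt_JJ h s hx ξ
  have hF : HasDerivAt (fun s => G.PP s x ξ (G.JJ s x ξ) + C * ‖G.JJ s x ξ‖ ^ 2)
      (g (G.Z t x) (G.JD t x ξ) (G.JD t x ξ)) t := by
    have h1 := G.var h t hx ξ (hd t)
    have h2 := ((hd t).norm_sq).const_mul C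
    refine (h1.add h2).congr_deriv ?_
    rw [h.D2_apply (p := (G.Z t x, vel g (G.psi t x))) hZ, h0]
    simp
  obtain ⟨s, hs, hneg⟩ := nc_neg_left hF hpos (by simp [h0]) ht.1
  have hsp : s < D := hs.2.trans ht.2
  have hd' : 0 < D - s := by linarith only [hsp]
  obtain ⟨C₁, δ₁, hδ₁, p₁⟩ := G.nc_piece h hx hs.1.le hd (G.nc_cont_JD h hx ξ)
  obtain ⟨C₂, δ₂, hδ₂, p₂⟩ := G.nc_piece h hx hsp.le
    (η := fun τ => ((D - τ) / (D - s)) • G.JJ s x ξ)
    (η' := fun _ => (-1 / (D - s)) • G.JJ s x ξ)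
    (fun τ => by
      have := (((hasDerivAt_id τ).const_sub D).div_const
        (D - s)).smul_const (G.JJ s x ξ)
      simpa using this) continuous_const
  obtain ⟨ε, hε0, hε1, hε⟩ := nc_small (C := C₁ + C₂) hneg (lt_min hδ₁ hδ₂)
  obtain ⟨⟨n₁, n₂⟩, q₁⟩ := p₁ ε hε0 (hε1.trans (min_le_left _ _))
  obtain ⟨-, q₂⟩ := p₂ ε hε0 (hε1.trans (min_le_right _ _))
  have i1 : (∫ τ in (0 : ℝ)..s, D2 g (G.Z τ x, vel g (G.psi τ x)) (G.JJ τ x ξ, G.JD τ x ξ)
      (G.JJ τ x ξ, G.JD τ x ξ)) = G.PP s x ξ (G.JJ s x ξ) - G.PP 0 x ξ (G.JJ 0 x ξ) :=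
    intervalIntegral.integral_eq_sub_of_hasDerivAt (f := fun τ => G.PP τ x ξ (G.JJ τ x ξ))
      (fun τ _ => G.var h τ hx ξ (hd τ))
      ((G.nc_cont_DD h hx (continuous_iff_continuousAt.2 fun τ => (hd τ).continuousAt)
        (G.nc_cont_JD h hx ξ)).intervalIntegrable _ _)
  rw [hJ0, map_zero, sub_zero] at i1
  have i2 := hC s ⟨hs.1.le, hs.2.le⟩ (G.JJ s x ξ)
  rw [i1] at q₁
  simp only [div_self hd'.ne', one_smul, sub_self, zero_div, zero_smul, smul_zero, add_zero,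
    map_zero] at q₂
  have tri := h.dd_triangle n₁ n₂ (G.Z_U D hx)
  have e2 : dd μ g (G.Z 0 x + ε • G.JJ 0 x ξ) (G.Z D x) = D := by
    have hp : (0 : ℝ) ≤ D := B.pos.le
    rw [hJ0, smul_zero, add_zero, B.dd_Z hx (by rw [sub_zero, abs_of_nonneg hp]), sub_zero,
      abs_of_nonneg hp]
  have e1 : g (G.Z 0 x) (vel g (G.psi 0 x)) (G.JJ 0 x ξ) = 0 := by rw [hJ0, map_zero]
  rw [e1] at q₁
  rw [e2] at tri
  have i3 := mul_le_mul_of_nonneg_left i2 (by positivity : (0 : ℝ) ≤ ε ^ 2 / 2)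
  linarith only [hε, q₁, q₂, tri, i3, q₁, q₂, tri, i3, hε]

/-- The exponential map is an immersion on the open ball. -/
theorem ex_immersion {q u₀ u : E} (hq : q ∈ μ.M) (h0 : √(g q u₀ u₀) < D)
    (hu : fderiv ℝ (G.ex q) u₀ u = 0) : μ.P q u = 0 := by
  have h := B.met
  by_cases hh : μ.P q u₀ = 0
  · rw [← G.fderiv_ex_P hq, hh, (G.hasFDerivAt_ex_zero hq.1).fderiv, P_idem hq] at hu
    exact hu
  · have hx : ((q, u₀) : E × E) ∈ μ.OO := ⟨hq.1, hh⟩
    set x : E × E := (q, u₀) with hxd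
    have hs := h.spd_pos hx
    have hlt : spd g x < D := h0
    have e : u₀ = spd g x • vel g x := h.snd_eq hx
    have e1 : fderiv ℝ (G.ex q) u₀ = fderiv ℝ (G.ex x.1) (spd g x • vel g x) := by rw [← e]
    rw [e1, G.fderiv_ex h _ hx hs, div_self hs.ne', one_smul] at hu
    have hv : g (G.Z (spd g x) x) (vel g (G.psi (spd g x) x)) (vel g (G.psi (spd g x) x)) = 1 :=
      h.vel_unit (G.psi_mem h _ hx)
    have h1 := congrArg (g (G.Z (spd g x) x) (vel g (G.psi (spd g x) x))) hu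
    rw [map_add, map_smul, hv, G.al_inv h _ hx] at h1
    have h2 : g x.1 (vel g x) u = 0 := by simpa [al] using h1
    rw [h2, zero_smul, zero_add] at hu
    obtain ⟨a, hb⟩ := mem_Bs.1 (B.no_conj hx ⟨hs, hlt⟩ hu)
    rw [← h.P_right hq, hb, map_smul, h.P_right hq, h.g_vel_snd hx, smul_eq_mul] at h2
    have ha : a = 0 := (mul_eq_zero.1 h2).resolve_right hs.ne'
    rw [ha, zero_smul] at hb
    exact hb

theorem Log_local {q y u : E} (hq : q ∈ μ.U) (hy : y ∈ μ.U) {r : ℝ} (hu : √(g (μ.r q) u u) < r)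
    (hr : r ≤ D) (e : G.ex (μ.r q) u = μ.r y) :
    ∃ U : E × E → E, ContDiffAt ℝ ∞ U (q, y) ∧ ∀ᶠ p in 𝓝 (q, y), μ.P (μ.r p.1) (U p) = U p ∧
      √(g (μ.r p.1) (U p) (U p)) < r ∧ G.ex (μ.r p.1) (U p) = μ.r p.2 := by
  have h := B.met
  have hq' := r_mem hq
  have hy' := r_mem hy
  obtain ⟨i, hi⟩ := μ.cover _ hq'.1 hq'.2
  obtain ⟨j, hj⟩ := μ.cover _ hy'.1 hy'.2
  have ha := μ.χρ i _ hi hq'.2
  have hb := Dχ_Dρ hq' hi u
  set a := μ.ρ i (μ.r q) with had
  set b := fderiv ℝ (μ.ρ i) (μ.r q) (μ.P (μ.r q) u)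
  have e' : G.ex (μ.χ i a) (fderiv ℝ (μ.χ i) a b) = μ.r y := by rw [hb, ha, G.ex_P hq', e]
  have hX : ContDiff ℝ ∞ fun p => G.ex (μ.κ i p).1 (μ.κ i p).2 :=
    G.contDiffOn_ex.comp_contDiff (contDiff_κ i) fun p => (χ_M i _).1
  have hg : g (μ.χ i a) (fderiv ℝ (μ.χ i) a b) (fderiv ℝ (μ.χ i) a b) = g (μ.r q) u u := by
    rw [hb, ha, h.P_left hq', h.P_right hq']
  obtain ⟨V, h1, h2, h3⟩ := Log_inverse (F := fun p => μ.ρ j (G.ex (μ.κ i p).1 (μ.κ i p).2))
    (q := a) (u := b) ((contDiffAt_ρ (e'.symm ▸ hj)).comp (a, b) hX.contDiffAt) (by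
      have d1 := (hasFDerivAt_ρ (e'.symm ▸ hj)).comp b
        ((G.hasFDerivAt_ex (χ_M i a).1 _).comp b (fderiv ℝ (μ.χ i) a).hasFDerivAt)
      rw [show (fun v => μ.ρ j (G.ex (μ.κ i (a, v)).1 (μ.κ i (a, v)).2)) =
        μ.ρ j ∘ G.ex (μ.χ i a) ∘ fderiv ℝ (μ.χ i) a from rfl, d1.fderiv]
      intro hdet
      apply LinearMap.det_eq_zero_iff_ker_ne_bot.1 hdet
      rw [LinearMap.ker_eq_bot']
      intro w hw
      have hw1 : fderiv ℝ (μ.ρ j) (G.ex (μ.χ i a) (fderiv ℝ (μ.χ i) a b)) (fderiv ℝ (G.ex (μ.χ i a))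
        (fderiv ℝ (μ.χ i) a b) (fderiv ℝ (μ.χ i) a w)) = 0 := hw
      have hw2 := Dχ_Dρ (G.ex_mem (χ_M i a).1 _) (e'.symm ▸ hj) (fderiv ℝ (G.ex (μ.χ i a))
        (fderiv ℝ (μ.χ i) a b) (fderiv ℝ (μ.χ i) a w))
      rw [G.fderiv_ex_tan (χ_M i a).1, hw1, map_zero] at hw2
      have hw3 := B.ex_immersion (χ_M i a) (by rw [hg]; exact hu.trans_le hr) hw2.symm
      rw [P_χ] at hw3
      exact Dχ_inj i a (hw3.trans (map_zero _).symm))
  have e0 : μ.ρ j (G.ex (μ.κ i (a, b)).1 (μ.κ i (a, b)).2) = μ.ρ j (μ.r y) := congrArg _ e'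
  rw [e0] at h1 h2 h3
  have hT : ContDiffAt ℝ ∞ (fun p : E × E => (μ.ρ i (μ.r p.1), μ.ρ j (μ.r p.2))) (q, y) :=
    ((contDiffAt_ρ hi).comp (q, y) ((contDiffAt_r hq).comp (q, y) contDiffAt_fst)).prodMk
      ((contDiffAt_ρ hj).comp (q, y) ((contDiffAt_r hy).comp (q, y) contDiffAt_snd))
  have hK : ContDiffAt ℝ ∞ (fun p : E × E => μ.κ i (μ.ρ i (μ.r p.1),
      V (μ.ρ i (μ.r p.1), μ.ρ j (μ.r p.2)))) (q, y) :=
    (contDiff_κ i).contDiffAt.comp (q, y) (hT.fst.prodMk (h1.comp (q, y) hT))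
  have k0 : μ.κ i (μ.ρ i (μ.r q), V (μ.ρ i (μ.r q), μ.ρ j (μ.r y))) = μ.κ i (a, b) := by rw [h2]
  have hc := hK.continuousAt.tendsto
  rw [k0] at hc
  have k1 := hc.eventually (((h.distA_cont (S := μ.UU) continuousOn_fst continuousOn_snd
    fun _ hx => hx).continuousAt (μ.isOpen_UU.mem_nhds (κ_TM i (a, b)).1.1)).sqrt.eventually_lt
      (continuousAt_const (y := r)) (hg.symm ▸ hu :))
  have k2 := hc.eventually ((G.contDiffOn_ex.contDiffAt
    (μ.isOpen_UU.mem_nhds (κ_TM i (a, b)).1.1)).continuousAt.eventually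
      ((μ.W_open j).mem_nhds (e'.symm ▸ hj :)))
  refine ⟨fun p => (μ.κ i (μ.ρ i (μ.r p.1), V (μ.ρ i (μ.r p.1), μ.ρ j (μ.r p.2)))).2, hK.snd, ?_⟩
  filter_upwards [hT.continuousAt.eventually h3, k1, k2,
    continuousAt_fst.eventually (χρ_r (z := (q, y).1) hq hi),
    continuousAt_snd.eventually (χρ_r (z := (q, y).2) hy hj)] with p p1 p2 p3 p4 p5
  have p6 : (μ.κ i (μ.ρ i (μ.r p.1), V (μ.ρ i (μ.r p.1), μ.ρ j (μ.r p.2)))).1 = μ.r p.1 := p4.2.2
  have p7 := (κ_TM i (μ.ρ i (μ.r p.1), V (μ.ρ i (μ.r p.1), μ.ρ j (μ.r p.2)))).2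
  have p8 := μ.χρ j _ p3 (G.ex_mem (κ_TM i _).1.1 _).2
  rw [p1, p5.2.2] at p8
  rw [p6] at p2 p7 p8
  exact ⟨p7, p2, p8.symm⟩

theorem exists_ex {q y : E} (h : q ∈ μ.U ∧ y ∈ μ.U ∧ dd μ g q y < D) : ∃ u, μ.P (μ.r q) u = u ∧
    √(g (μ.r q) u u) < D ∧ G.ex (μ.r q) u = μ.r y := by
  obtain ⟨hq, hy, hd⟩ := h
  have hq' := r_mem hq
  obtain ⟨c, hc, hl⟩ := B.met.exists_len_lt hq hy hd
  obtain ⟨r, hr, hr'⟩ := exists_between hl
  have hcc := hc.smooth.continuous
  have key := (((Log_closed G B.met hq' r).preimage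
    (μ.smooth.continuousOn.comp_continuous hcc hc.mem)).inter isClosed_Icc
    ).Icc_subset_of_forall_mem_nhdsWithin (a := 0) (b := 1) ?_ ?_
  · obtain ⟨u, hu, e⟩ := key (right_mem_Icc.2 zero_le_one)
    refine ⟨μ.P (μ.r q) u, P_idem hq' u, ?_, ?_⟩
    · rw [B.met.P_left hq', B.met.P_right hq']
      exact hu.trans_lt hr'
    · rw [G.ex_P hq', e, Function.comp_apply, hc.stop]
  · refine ⟨0, ?_, ?_⟩
    · rw [map_zero, Real.sqrt_zero]
      exact ((dd_nonneg _ _).trans (dd_le_len hc)).trans hr.le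
    · rw [G.ex_zero hq'.1, hq'.2, Function.comp_apply, hc.start]
  · rintro t ⟨⟨u, hu, e⟩, ht⟩
    have h1 : √(g (μ.r q) u u) < r := by
      rw [← B.dd_ex hq'.1 (hu.trans hr'.le), e, dd_r_left hq, Function.comp_apply,
        dd_r_right _ (hc.mem t)]
      exact (Log_dd_le B.met hc (Ico_subset_Icc_self ht)).trans_lt hr
    obtain ⟨U, -, h4⟩ := B.Log_local hq (hc.mem t) h1 hr'.le e
    have h5 : Tendsto (fun s => ((q, c s) : E × E)) (𝓝 t) (𝓝 (q, c t)) :=
      tendsto_const_nhds.prodMk_nhds hcc.continuousAt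
    refine mem_nhdsWithin_of_mem_nhds ?_
    filter_upwards [h5.eventually h4] with s hs
    exact ⟨_, hs.2.1.le, hs.2.2⟩

theorem HR_near {z y : E} (hz : z ∈ μ.M) (hy : y ∈ μ.U) {r : ℝ} (h0 : 0 < r)
    (h1 : r < D) (h2 : r ≤ dd μ g z y) :
    ∃ x ∈ μ.TT, x.1 = z ∧ dd μ g (G.Z r x) y ≤ dd μ g z y - r := by
  have h := B.met
  have c2 : ContinuousOn (fun x : E × E => dd μ g (G.ex x.1 x.2) y) μ.UU :=
    h.continuousOn_dd.comp (f := fun x : E × E => (G.ex x.1 x.2, y))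
      (G.contDiffOn_ex.continuousOn.prodMk continuousOn_const) fun u hu => ⟨(G.ex_mem hu _).1, hy⟩
  obtain ⟨⟨z', u⟩, ⟨⟨hT, hu⟩, hz'⟩, hm⟩ := ((h.isCompact_ball r).inter_right (isClosed_eq continuous_fst
    (continuous_const (y := z)))).exists_isMinOn
    ⟨(z, 0), ⟨⟨hz, map_zero _⟩, by rw [spd, map_zero, Real.sqrt_zero]; exact h0.le⟩, rfl⟩
    (c2.mono fun x hx => hx.1.1.1.1)
  obtain rfl : z = z' := hz'.symm
  have key : dd μ g (G.ex z u) y ≤ dd μ g z y - r := by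
    refine le_of_forall_pos_le_add fun η hη => ?_
    obtain ⟨c, hc, hl⟩ := h.exists_len_lt hz.1 hy (lt_add_of_pos_right (dd μ g z y) hη)
    have c3 : Continuous fun t => dd μ g z (c t) :=
      h.continuousOn_dd.comp_continuous (f := fun t : ℝ => ((z, c t) : E × E))
        (continuous_const.prodMk hc.smooth.continuous) fun t => ⟨hz.1, hc.mem t⟩
    obtain ⟨t, ht, e⟩ := intermediate_value_Icc zero_le_one c3.continuousOn (show r ∈ _ from ⟨by
      rw [dd_congr rfl hc.start, dd_self hz.1]; exact h0.le, by rwa [dd_congr rfl hc.stop]⟩)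
    have e : dd μ g z (c t) = r := e
    obtain ⟨v, hb, hv, e2⟩ := B.exists_ex (q := z) (y := c t) ⟨hz.1, hc.mem t, e.trans_lt h1⟩
    rw [hz.2] at hb hv e2
    have h3 : √(g z v v) = r := by rw [← B.dd_ex hz.1 hv.le, e2, dd_r_right _ (hc.mem t), e]
    have h4 : dd μ g (G.ex z u) y ≤ dd μ g (G.ex z v) y :=
      hm (show (z, v) ∈ _ from ⟨⟨⟨hz, hb⟩, h3.le⟩, rfl⟩)
    have h5 := HR_split h hc ht
    rw [e2, dd_r_left (hc.mem t)] at h4
    linarith
  have h3 := h.dd_triangle hz.1 (G.ex_mem hz.1 u).1 hy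
  rw [B.dd_ex hz.1 (hu.trans h1.le)] at h3
  have h4 : spd g (z, u) = r := le_antisymm hu (by unfold spd; linarith)
  have h5 : (z, u) ∈ μ.TT := ⟨hz, hT.2, fun hc => by
    have hc : u = 0 := hc
    rw [spd, hc, map_zero, Real.sqrt_zero] at h4
    exact h0.ne h4⟩
  refine ⟨_, h5, rfl, ?_⟩
  rw [← h4, ← G.ex_eq_Z h (TT_OO h5), h4]
  exact key

theorem HR_step {x : E × E} (hx : x ∈ μ.TT) {y : E} (hy : y ∈ μ.U) {t s : ℝ}
    (ht : 0 < t) (h0 : 0 < s) (h1 : s < D) (h2 : s ≤ dd μ g x.1 y - t)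
    (h3 : dd μ g (G.Z t x) y ≤ dd μ g x.1 y - t) :
    dd μ g (G.Z (s + t) x) y ≤ dd μ g x.1 y - (s + t) := by
  have h := B.met
  have ho := TT_OO hx
  have hq := G.Z_mem t ho
  have h4 := h.dd_triangle hx.1.1 hq.1 hy
  have h5 := h.dd_Z_le G ho 0 t
  rw [G.Z_zero' hx, sub_zero, abs_of_pos ht] at h5
  obtain ⟨x', hx', e, h6⟩ := B.HR_near hq hy h0 h1 (by linarith)
  have h7 := h.dd_triangle hx.1.1 (G.Z_U s (TT_OO hx')) hy
  have hp := G.psi_TT h t ho
  have hv : vel g x' = vel g (G.psi t x) := by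
    by_contra hv
    have h8 := h.corner G hp hx' e hv ht h0
    rw [G.Z_add _ _ ho, neg_add_cancel, G.Z_zero' hx] at h8
    linarith
  have h8 : G.Z s x' = G.Z (s + t) x := by
    rw [← G.Z_vel h s (TT_OO hx'), hv, e, ← G.Z_add _ _ ho, ← G.Z_vel h s (TT_OO hp)]
    rfl
  rw [← h8]
  linarith

theorem link_ker {x : E × E} (hx : x ∈ μ.TT) {w : E} (hw : (x.1, w) ∈ μ.OO)
    (e : G.Z D (x.1, w) = G.Z D x) : G.JJ D x (0, w) = 0 := by
  have h := B.met
  have ho := TT_OO hx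
  have hx' : G.psi D x ∈ μ.OO := G.psi_mem h _ ho
  have hy := G.Z_U D ho
  have hback : G.psi (-D) (G.psi D x) = x := by
    rw [← G.psi_add _ _ ho, neg_add_cancel, G.psi_zero' hx]
  have key : ∀ u, g (G.Z D x) u (G.JJ D x (0, w)) = 0 := by
    intro u
    have hd := jac_line (G.psi D x).2 u
    have e0 : (G.Z D x, (G.psi D x).2 + (0 : ℝ) • u) = G.psi D x := by
      rw [zero_smul, add_zero]
      rfl
    have hq := Link_hasDerivAt_Z G h (-D) (z := G.Z D x) hd (by rw [e0]; exact hx')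
    rw [e0] at hq
    have hmem : ∀ᶠ τ in 𝓝 (0 : ℝ), (G.Z D x, (G.psi D x).2 + τ • u) ∈ μ.OO := by
      have hcont : ContinuousAt
          (fun τ : ℝ => ((G.Z D x, (G.psi D x).2 + τ • u) : E × E)) 0 := by fun_prop
      exact hcont.eventually (isOpen_OO.mem_nhds (by beta_reduce; rw [e0]; exact hx'))
    have hw' := Link_TT hx.1 hw
    have hor : g x.1 (G.JJ (-D) (G.psi D x) (0, u)) w = 0 := by
      rw [← h.P_right hx.1]
      refine B.orth (x := (x.1, μ.P x.1 w)) hw'.1 hq ?_ ?_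
      · change G.Z (-D) _ = x.1
        rw [e0, Geo.Z, hback]
      · filter_upwards [hmem] with τ hτ
        have h1 := B.dd_Z_zero hτ (t := -D) (by rw [abs_neg, abs_of_pos B.pos])
        rw [← hw'.2, G.Z_R h _ hw, e, dd_symm, h1, abs_neg, abs_of_pos B.pos]
    have a1 := G.al_psi h (-D) hx' (0, u)
    have a2 := G.om_psi h (-D) hx' (fderiv ℝ (G.psi D) x (0, w)) (0, u)
    rw [hback] at a1 a2
    rw [G.fderiv_psi_neg h _ ho, DR_fibre hx.1.1, h.om_fibre ho, om_skew, h.om_fibre hx',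
      G.fst_fderiv_psi h _ ho, G.fst_fderiv_psi h _ hx', h.P_left hx.1] at a2
    have a3 : g x.1 (vel g x) (G.JJ (-D) (G.psi D x) (0, u)) = 0 := by
      rw [← G.fst_fderiv_psi h _ hx']
      simpa [al] using a1
    have a4 : g (G.Z D x) (vel g (G.psi D x)) (G.JJ D x (0, w)) = 0 := by
      rw [G.al_inv h _ ho]
      simp [al]
    rw [h.symm _ _ _ hx.1.1] at hor
    have a5 : (G.psi D x).1 = G.Z D x := rfl
    rw [a5, a3, a4, hor] at a2
    have hs := (h.spd_pos hx').ne'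
    simpa [hs] using a2
  exact h.eq_zero_of_tan hy (G.JJ_tan h _ ho _) (key _)

theorem eq_of_dd {q y : E} (hq : q ∈ μ.M) (hy : y ∈ μ.M) (e0 : dd μ g q y ≤ 0) : q = y := by
  obtain ⟨u, hc, hu, e⟩ := B.exists_ex (q := q) (y := y) ⟨hq.1, hy.1, e0.trans_lt B.pos⟩
  rw [hq.2] at hc hu e
  rw [hy.2] at e
  have h4 := B.dd_ex hq.1 hu.le
  rw [e] at h4
  have h5 : g q u u = 0 :=
    le_antisymm (Real.sqrt_eq_zero'.1 (le_antisymm (by linarith) (Real.sqrt_nonneg _)))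
      (B.met.nonneg hq.1 u)
  rw [← e, B.met.eq_zero_of_tan hq.1 hc h5, G.ex_zero hq.1, hq.2]

theorem HR_far {z y : E} (hz : z ∈ μ.M) (hy : y ∈ μ.U) (hD : D ≤ dd μ g z y) :
    ∃ x ∈ μ.TT, x.1 = z ∧ dd μ g (G.Z D x) y ≤ dd μ g z y - D := by
  have hp := B.pos
  obtain ⟨x, hx, rfl, h1⟩ := B.HR_near hz hy (r := D / 2) (by linarith only [hp]) (by linarith) (by linarith)
  have h2 := B.HR_step hx hy (s := D / 2) (by linarith only [hp]) (by linarith) (by linarith) (by linarith only [hD]) h1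
  rw [show D / 2 + D / 2 = D by ring] at h2
  exact ⟨x, hx, rfl, h2⟩

/-- If no geodesic minimises beyond `D`, the diameter is at most `D`. -/
theorem diam (hc : ∀ x ∈ μ.OO, ∀ t, D < t → dd μ g x.1 (G.Z t x) < t) {z y : E} (hz : z ∈ μ.U)
    (hy : y ∈ μ.U) : dd μ g z y ≤ D := by
  have hp := B.pos
  rw [← dd_r_left hz]
  by_contra h3
  rw [not_le] at h3
  obtain ⟨x, hx, e, h2⟩ := B.HR_far (r_mem hz) hy h3.le
  rw [← e] at h2 h3
  obtain ⟨s, s0, s1, s2⟩ : ∃ s, 0 < s ∧ s < D ∧ s ≤ dd μ g x.1 y - D :=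
    ⟨Min.min (D / 2) (dd μ g x.1 y - D), lt_min (by linarith only [hp]) (sub_pos.2 h3),
      (min_le_left _ _).trans_lt (by linarith), min_le_right _ _⟩
  have h4 := B.HR_step hx hy hp s0 s1 s2 h2
  have h5 := B.met.dd_triangle hx.1.1 (G.Z_U (s + D) (TT_OO hx)) hy
  have h6 := hc x (TT_OO hx) (s + D) (by linarith)
  linarith

/-- Hopf-Rinow up to distance `D`. -/
theorem exists_min {z y : E} (hz : z ∈ μ.M) (hy : y ∈ μ.M) (h0 : 0 < dd μ g z y) (hD : dd μ g z y ≤ D) :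
    ∃ x ∈ μ.TT, x.1 = z ∧ G.Z (dd μ g z y) x = y := by
  have h := B.met
  rcases hD.lt_or_eq with hD | hD
  · obtain ⟨u, hc, hu, e⟩ := B.exists_ex (q := z) (y := y) ⟨hz.1, hy.1, hD⟩
    rw [hz.2] at hc hu e
    rw [hy.2] at e
    have h2 := B.dd_ex hz.1 hu.le
    rw [e] at h2
    have h1 : (z, u) ∈ μ.TT := ⟨hz, hc, fun k => by
      have k : u = 0 := k
      rw [h2, k, map_zero, Real.sqrt_zero] at h0
      exact h0.false⟩
    exact ⟨_, h1, rfl, by rw [h2, ← e, G.ex_eq_Z h (TT_OO h1)]; rfl⟩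
  · obtain ⟨x, hx, e, h2⟩ := B.HR_far hz hy.1 hD.ge
    exact ⟨x, hx, e, by rw [hD]; exact B.eq_of_dd (G.Z_mem _ (TT_OO hx)) hy (by linarith)⟩

end Bm

end Pool.Agent.Work.MP_8c604c_gt.P
end
end

-- merged part: Pool.Agent.Work.MP_8c604c_gt.P.Br
section
-- merged part: Pool.Agent.Work.MP_8c604c_gt.P.Semi
section
/-!
The distance is semiconcave at the end of a geodesic, uniformly; Berger's lemma; a geodesic loop through a cut point
closes smoothly.
-/

set_option maxSynthPendingDepth 3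
set_option linter.unusedSectionVars false

open Set Filter Topology MeasureTheory
open scoped ContDiff

noncomputable section
namespace Pool.Agent.Work.MP_8c604c_gt.P

open O O.Model

variable {E : Type} [NormedAddCommGroup E] [InnerProductSpace ℝ E] [FiniteDimensional ℝ E] {d : ℕ}
  {μ : Model E d} {g : Met E}

theorem semi (G : Geo μ g) (h : IsMetric μ g) {ρ : ℝ} (hρ : 0 < ρ) :
    ∃ C δ : ℝ, 0 < C ∧ 0 < δ ∧ ∀ x ∈ μ.TT, ∀ w : E, ‖w‖ ≤ δ → ∀ l, ρ ≤ l → x.1 + w ∈ μ.U ∧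
      dd μ g (G.Z (-l) x) (x.1 + w) ≤ l + g x.1 (vel g x) w + C * ‖w‖ ^ 2 := by
  have hK := h.isCompact_ball 1
  have hKU : {x ∈ μ.TM | spd g x ≤ 1} ⊆ μ.UU := fun x hx => hx.1.1.1
  obtain ⟨C₀, δ₀, hC₀, hδ₀, hT⟩ := taylor_two μ.isOpen_UU h.contDiffOn_Lg hK hKU
  obtain ⟨M, hM⟩ := hK.exists_bound_of_continuousOn (h.nc_cont_D2.mono hKU)
  have hq : 0 < 1 + 1 / ρ := by positivity
  refine ⟨ρ * ((|M| / 2 + C₀ * δ₀) * (1 + 1 / ρ) ^ 2), δ₀ / (1 + 1 / ρ), by positivity, by positivity,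
    fun x hx w hw l hl => ?_⟩
  have ho := TT_OO hx
  have hη : ∀ t, HasDerivAt (fun t : ℝ => ((t + ρ) / ρ) • w) ((1 / ρ) • w) t := fun t =>
    (((hasDerivAt_id t).add_const ρ).div_const ρ).smul_const w
  have key : ∀ t ∈ Icc (-ρ) 0, G.Z t x + ((t + ρ) / ρ) • w ∈ μ.U ∧
      Lg g (G.Z t x + ((t + ρ) / ρ) • w, vel g (G.psi t x) + (1 / ρ) • w) ≤ 1 / 2 +
        fderiv ℝ (Lg g) (G.Z t x, vel g (G.psi t x)) (((t + ρ) / ρ) • w, (1 / ρ) • w) +
        (|M| / 2 + C₀ * δ₀) * (1 + 1 / ρ) ^ 2 * ‖w‖ ^ 2 := by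
    intro t ht
    have hp := G.psi_TT h t ho
    have hu := h.vel_unit (TT_OO hp)
    have hm : ((G.Z t x, vel g (G.psi t x)) : E × E) ∈ {x ∈ μ.TM | spd g x ≤ 1} :=
      ⟨TT_TM (h.vel_mem_TT hp), (h.unit_mem hp.1.1 hu).2.1.le⟩
    set ξ : E × E := (((t + ρ) / ρ) • w, (1 / ρ) • w) with hξ
    have hn : ‖ξ‖ ≤ (1 + 1 / ρ) * ‖w‖ := by
      have h1 : 0 < 1 / ρ := by positivity
      rw [Prod.norm_def]
      apply max_le
      · rw [norm_smul, Real.norm_eq_abs, abs_of_nonneg (div_nonneg (by linarith only [ht, ht.1]) hρ.le)]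
        have : (t + ρ) / ρ ≤ 1 := (div_le_one hρ).2 (by linarith only [ht, ht.2])
        exact mul_le_mul_of_nonneg_right (by linarith only [h1, this]) (norm_nonneg _)
      · rw [norm_smul, Real.norm_eq_abs, abs_of_pos h1]
        exact mul_le_mul_of_nonneg_right (by linarith only []) (norm_nonneg _)
    have hn' : ‖ξ‖ ≤ δ₀ := hn.trans (by rwa [le_div_iff₀ hq, mul_comm] at hw)
    obtain ⟨h2, h3⟩ := hT _ hm 0 ξ 1 zero_le_one (by simpa using hn')
    rw [add_zero, one_smul] at h2 h3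
    refine ⟨h2, ?_⟩
    have e2 : Lg g (G.Z t x, vel g (G.psi t x)) = 1 / 2 := by
      show 1 / 2 * g (G.psi t x).1 (vel g (G.psi t x)) (vel g (G.psi t x)) = 1 / 2
      rw [hu, mul_one]
    rw [e2] at h3
    simp only [map_zero, zero_apply, mul_zero, add_zero, norm_zero, zero_add, one_mul, one_pow,
      mul_one] at h3
    have h4 : fderiv ℝ (fderiv ℝ (Lg g)) (G.Z t x, vel g (G.psi t x)) ξ ξ ≤ |M| * ‖ξ‖ ^ 2 := by
      refine (le_abs_self _).trans ?_
      rw [← Real.norm_eq_abs, sq, ← mul_assoc]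
      refine (ContinuousLinearMap.le_opNorm₂ _ _ _).trans ?_
      gcongr
      exact (hM _ hm).trans (le_abs_self M)
    have h5 : C₀ * ‖ξ‖ ^ 2 * ‖ξ‖ ≤ C₀ * ‖ξ‖ ^ 2 * δ₀ := by gcongr
    have h6 : ‖ξ‖ ^ 2 ≤ ((1 + 1 / ρ) * ‖w‖) ^ 2 := by gcongr
    have h7 := mul_le_mul_of_nonneg_left h6 (by positivity : 0 ≤ |M| / 2 + C₀ * δ₀)
    have e3 : ((G.Z t x, vel g (G.psi t x)) : E × E) + ξ =
      (G.Z t x + ((t + ρ) / ρ) • w, vel g (G.psi t x) + (1 / ρ) • w) := rfl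
    rw [e3] at h3
    linarith only [h3, h4, h5, h7]
  have hab : -ρ ≤ 0 := by linarith only [hρ]
  have k0 := (key 0 ⟨hab, le_rfl⟩).1
  have hc : ∀ t, HasDerivAt (fun s => G.Z s x + ((s + ρ) / ρ) • w) (vel g (G.psi t x) + (1 / ρ) • w) t :=
    fun t => (G.hasDerivAt_Z h t ho).add (hη t)
  have hcc : Continuous fun s => G.Z s x + ((s + ρ) / ρ) • w := (G.nc_cont_Z h ho).add (by fun_prop)
  have hcc' : Continuous fun t => vel g (G.psi t x) + (1 / ρ) • w :=
    (G.nc_cont_vel h ho).add continuous_const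
  have i1 := h.dd_le_curve hab (fun t _ => hc t) hcc'.continuousOn (fun t ht => (key t ht).1)
  have i2 := h.len_le_energy hab hcc.continuousOn hcc'.continuousOn (fun t ht => (key t ht).1)
  have c1 : Continuous fun t => fderiv ℝ (Lg g) (G.Z t x, vel g (G.psi t x))
      (((t + ρ) / ρ) • w, (1 / ρ) • w) :=
    (h.nc_cont_D1.comp_continuous (G.nc_cont_p h ho) (fun t => G.Z_U t ho)).clm_apply (by fun_prop)
  have c3 : ContinuousOn (fun t => Lg g (G.Z t x + ((t + ρ) / ρ) • w, vel g (G.psi t x) + (1 / ρ) • w))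
      (Icc (-ρ) 0) :=
    h.contDiffOn_Lg.continuousOn.comp (hcc.prodMk hcc').continuousOn (fun t ht => (key t ht).1)
  have i3 := intervalIntegral.integral_mono_on (μ := volume) hab
    (c3.mono (by rw [uIcc_of_le hab])).intervalIntegrable
    (Continuous.intervalIntegrable (by fun_prop) _ _) fun t ht => (key t ht).2
  have i4 := intervalIntegral.integral_eq_sub_of_hasDerivAt
    (f := fun s => g (G.Z s x) (vel g (G.psi s x)) (((s + ρ) / ρ) • w))
    (fun t _ => G.first_var h t ho (hη t)) (c1.intervalIntegrable (-ρ) 0)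
  rw [intervalIntegral.integral_add (Continuous.intervalIntegrable (by fun_prop) _ _)
      (Continuous.intervalIntegrable (by fun_prop) _ _),
    intervalIntegral.integral_add (Continuous.intervalIntegrable (by fun_prop) _ _)
      (Continuous.intervalIntegrable (by fun_prop) _ _), i4,
    intervalIntegral.integral_const, intervalIntegral.integral_const, smul_eq_mul, smul_eq_mul] at i3
  simp only [zero_add, div_self hρ.ne', one_smul, neg_add_cancel, zero_div, zero_smul, add_zero, map_zero,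
    G.Z_zero' hx, G.psi_zero' hx] at i1 i3 k0
  have i5 := h.dd_triangle (G.Z_U (-l) ho) (G.Z_U (-ρ) ho) k0
  have i6 := h.dd_Z_le G ho (-l) (-ρ)
  rw [abs_of_nonneg (by linarith only [hl])] at i6
  exact ⟨k0, by linarith only [i2, i1, i3, i5, i6]⟩

theorem neg_TT {x : E × E} (hx : x ∈ μ.TT) : (x.1, -x.2) ∈ μ.TT :=
  ⟨hx.1, by rw [map_neg, hx.2.1], neg_ne_zero.2 hx.2.2⟩

theorem vel_neg (g : Met E) (x : E × E) : vel g (x.1, -x.2) = -vel g x := by
  simp [vel, spd]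

theorem Z_neg (G : Geo μ g) (t : ℝ) {x : E × E} (hx : x ∈ μ.OO) : G.Z t (x.1, -x.2) = G.Z (-t) x :=
  (congrArg Prod.fst (G.psi_neg t hx) :)

namespace Bm
variable {G : Geo μ g} {D : ℝ} (B : Bm g G D)
include B

/-- Berger's lemma at a point of maximal distance. -/
theorem berger (hD : ∀ z ∈ μ.U, ∀ y ∈ μ.U, dd μ g z y ≤ D) {x : E × E} (hx : x ∈ μ.TT) :
    ∃ b, (x.1, b) ∈ μ.TT ∧ G.Z D (x.1, b) = G.Z D x ∧ g x.1 b (vel g x) ≤ 0 := by
  have h := B.met
  have hp := B.pos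
  have ho := TT_OO hx
  have hy := G.Z_mem D ho
  obtain ⟨C, δ, -, hδ, hs⟩ := semi G h (half_pos hp)
  have hzy : dd μ g x.1 (G.Z D x) = D := by rw [B.dd_Z_zero ho (abs_of_pos hp).le, abs_of_pos hp]
  have d1 : HasDerivAt (fun t => G.Z (-t) x) (-vel g x) 0 := by
    have := (G.hasDerivAt_Z h (-0) ho).scomp 0 (hasDerivAt_neg (0 : ℝ))
    rwa [neg_zero, G.psi_zero' hx, neg_smul, one_smul] at this
  have t1 : Tendsto (fun t => G.Z (-t) x) (𝓝[>] 0) (𝓝 x.1) := by
    have := d1.continuousAt.tendsto.mono_left (nhdsWithin_le_nhds (s := Ioi 0))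
    rwa [neg_zero, G.Z_zero' hx] at this
  have t2 : Tendsto (fun t : ℝ => t⁻¹ • (x.1 - G.Z (-t) x)) (𝓝[>] 0) (𝓝 (vel g x)) := by
    have := d1.tendsto_slope_zero_right.neg
    simp only [zero_add, neg_zero, G.Z_zero' hx, neg_neg] at this
    refine this.congr fun t => ?_
    rw [← smul_neg, neg_sub]
  have ev : ∀ᶠ t in 𝓝[>] (0 : ℝ), ∃ p ∈ {x ∈ μ.TM | spd g x ≤ 1}, p.1 = G.Z (-t) x ∧ g p.1 p.2 p.2 = 1 ∧
      G.Z (dd μ g p.1 (G.Z D x)) p = G.Z D x ∧
      g p.1 p.2 (t⁻¹ • (x.1 - G.Z (-t) x)) ≤ C * t * ‖t⁻¹ • (x.1 - G.Z (-t) x)‖ ^ 2 := by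
    have t3 : Tendsto (fun t => ‖x.1 - G.Z (-t) x‖) (𝓝[>] 0) (𝓝 0) := by
      simpa using (t1.const_sub x.1).norm
    filter_upwards [Ioo_mem_nhdsGT (half_pos hp), t3.eventually (ge_mem_nhds hδ)] with t ht hw
    have hz := G.Z_mem (-t) ho
    have a1 := h.dd_triangle hx.1.1 hz.1 hy.1
    have a2 := h.dd_Z_le G ho 0 (-t)
    rw [G.Z_zero' hx, sub_zero, abs_neg, abs_of_pos ht.1] at a2
    have a3 := hD _ hz.1 _ hy.1
    obtain ⟨p, hp', e1, e2⟩ := B.exists_min hz hy (by linarith only [hp, hzy, a1, a2, ht, ht.2]) a3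
    have hpo := TT_OO hp'
    have hu := h.vel_unit hpo
    obtain ⟨-, a4⟩ := hs _ (neg_TT hp') _ hw (dd μ g (G.Z (-t) x) (G.Z D x)) (by linarith only [hzy, a1, a2, ht, ht.2])
    rw [Z_neg G _ hpo, neg_neg, e2, vel_neg, e1, add_sub_cancel, dd_symm, hzy, map_neg, neg_apply] at a4
    refine ⟨(p.1, vel g p), ⟨TT_TM (h.vel_mem_TT hp'), (h.unit_mem hp'.1.1 hu).2.1.le⟩, e1, hu, ?_, ?_⟩
    · rw [G.Z_vel h _ hpo, e1, e2]
    · rw [map_smul, norm_smul, norm_inv, Real.norm_eq_abs, abs_of_pos ht.1, smul_eq_mul, e1,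
        show C * t * (t⁻¹ * ‖x.1 - G.Z (-t) x‖) ^ 2 = t⁻¹ * (C * ‖x.1 - G.Z (-t) x‖ ^ 2) by
          field_simp]
      exact mul_le_mul_of_nonneg_left (by linarith) (inv_pos.2 ht.1).le
  obtain ⟨u, hu⟩ := exists_seq_tendsto (𝓝[>] (0 : ℝ))
  obtain ⟨n₀, hn⟩ := eventually_atTop.1 (hu.eventually ev)
  choose p p0 p1 p2 p3 p4 using fun n : ℕ => hn (n + n₀) (Nat.le_add_left _ _)
  obtain ⟨q, hq, φ, hφ, hl⟩ := (h.isCompact_ball 1).tendsto_subseq p0
  have hv : Tendsto (fun n => u (φ n + n₀)) atTop (𝓝[>] 0) :=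
    hu.comp ((tendsto_add_atTop_nat n₀).comp hφ.tendsto_atTop)
  have l1 : Tendsto (fun n => (p (φ n)).1) atTop (𝓝 q.1) := (continuous_fst.tendsto q).comp hl
  have l2 : Tendsto (fun n => (p (φ n)).2) atTop (𝓝 q.2) := (continuous_snd.tendsto q).comp hl
  have e1 : q.1 = x.1 := tendsto_nhds_unique l1 ((t1.comp hv).congr fun n => (p1 _).symm)
  have lg : Tendsto (fun n => g (p (φ n)).1) atTop (𝓝 (g q.1)) :=
    (h.contDiffAt hq.1.1.1).continuousAt.tendsto.comp l1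
  have app : ∀ {a : ℕ → E} {a' : E}, Tendsto a atTop (𝓝 a') →
      Tendsto (fun n => g (p (φ n)).1 (p (φ n)).2 (a n)) atTop (𝓝 (g q.1 q.2 a')) := fun ha =>
    (isBoundedBilinearMap_apply.continuous.tendsto _).comp
      (((isBoundedBilinearMap_apply.continuous.tendsto _).comp (lg.prodMk_nhds l2)).prodMk_nhds ha)
  have e2 : g q.1 q.2 q.2 = 1 :=
    tendsto_nhds_unique (app l2) (tendsto_const_nhds.congr fun n => (p2 _).symm)
  have hqo : q ∈ μ.OO := (h.unit_mem hq.1.1.1 e2).1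
  have l3 : Tendsto (fun n => dd μ g (p (φ n)).1 (G.Z D x)) atTop (𝓝 D) := by
    have := (h.continuousOn_dd.continuousAt (x := (q.1, G.Z D x))
      (((μ.isOpen.preimage continuous_fst).inter (μ.isOpen.preimage continuous_snd)).mem_nhds
        ⟨hq.1.1.1, hy.1⟩)).tendsto.comp (l1.prodMk_nhds tendsto_const_nhds)
    rwa [e1, hzy] at this
  have e3 : G.Z D q = G.Z D x := tendsto_nhds_unique
    (((G.contDiffOn_Z h).continuousOn.continuousAt (x := (D, q))
      ((isOpen_OO.preimage continuous_snd).mem_nhds hqo)).tendsto.comp (l3.prodMk_nhds hl))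
    (tendsto_const_nhds.congr fun n => (p3 _).symm)
  have e4 : g q.1 q.2 (vel g x) ≤ C * 0 * ‖vel g x‖ ^ 2 :=
    le_of_tendsto_of_tendsto' (app (t2.comp hv))
      (((hv.mono_right nhdsWithin_le_nhds).const_mul C).mul ((t2.comp hv).norm.pow 2)) fun n => p4 _
  rw [mul_zero, zero_mul] at e4
  rw [← e1]
  exact ⟨q.2, mem_TT hq.1 hqo, e3, e4⟩

/-- A geodesic that meets itself at the times `-D` and `D` closes smoothly. -/
theorem psi_close {x : E × E} (hx : x ∈ μ.OO) (e : G.Z (-D) x = G.Z D x) :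
    vel g (G.psi (-D) x) = vel g (G.psi D x) := by
  have h := B.met
  have hp := B.pos
  by_contra hv
  have h1 := h.corner G (G.psi_TT h D hx) (G.psi_TT h (-D) hx) e hv (half_pos hp) (half_pos hp)
  rw [G.Z_add _ _ hx, G.Z_add _ _ hx, B.dd_Z hx (by rw [abs_le]; constructor <;> linarith only [hp]),
    abs_of_neg (by linarith only [hp])] at h1
  linarith only [h1]

theorem per_of_close {x : E × E} (hx : x ∈ μ.OO) (e : G.Z (-D) x = G.Z D x) (t : ℝ) :
    G.Z (t + 2 * D) x = G.Z t x := by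
  have := G.Z_congr B.met hx hx e (B.psi_close hx e) (t + D)
  rw [show t + D + -D = t by ring, show t + D + D = t + 2 * D by ring] at this
  exact this.symm

end Bm

end Pool.Agent.Work.MP_8c604c_gt.P
end
end

-- merged part: Pool.Agent.Work.MP_8c604c_gt.P.Key
section
/-!
The second order inequality at a pair of geodesics with the same end points.
-/

set_option maxSynthPendingDepth 3
set_option linter.unusedSectionVars false

open Set Filter Topology MeasureTheory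
open scoped ContDiff

noncomputable section
namespace Pool.Agent.Work.MP_8c604c_gt.P

open O O.Model

theorem second_nonneg {φ ψ : ℝ → ℝ} {m : ℝ} (h0 : ∀ᶠ s in 𝓝 (0 : ℝ), φ 0 ≤ φ s)
    (h1 : ∀ᶠ s in 𝓝 (0 : ℝ), HasDerivAt φ (ψ s) s) (h2 : HasDerivAt ψ m 0) : ψ 0 = 0 ∧ 0 ≤ m := by
  have e0 : ψ 0 = 0 := IsLocalMin.hasDerivAt_eq_zero h0 h1.self_of_nhds
  refine ⟨e0, not_lt.1 fun hm => ?_⟩
  have h3 : ∀ᶠ s in 𝓝[>] (0 : ℝ), s⁻¹ • (ψ (0 + s) - ψ 0) < 0 :=
    h2.tendsto_slope_zero_right.eventually (gt_mem_nhds hm)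
  obtain ⟨ε, hε, h4⟩ := mem_nhdsGT_iff_exists_Ioc_subset.1
    (h3.and ((h0.and h1).filter_mono nhdsWithin_le_nhds))
  have hd : ∀ s ∈ Icc (0 : ℝ) ε, HasDerivAt φ (ψ s) s := fun s hs => by
    rcases hs.1.eq_or_lt with rfl | h
    · exact h1.self_of_nhds
    · exact (h4 ⟨h, hs.2⟩).2.2
  obtain ⟨c, hc, e⟩ := exists_hasDerivAt_eq_slope φ ψ hε
    (fun s hs => (hd s hs).continuousAt.continuousWithinAt) fun s hs => hd s (Ioo_subset_Icc_self hs)
  have h5 := (h4 ⟨hc.1, hc.2.le⟩).1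
  have h6 := (h4 ⟨hε, le_rfl⟩).2.1
  rw [zero_add, e0, sub_zero, smul_eq_mul, e] at h5
  have h7 : 0 ≤ (φ ε - φ 0) / (ε - 0) := div_nonneg (by linarith only [h6]) (by linarith [hc.1, hc.2])
  exact absurd h5 (not_lt.2 (mul_nonneg (inv_pos.2 hc.1).le h7))

variable {E : Type} [NormedAddCommGroup E] [InnerProductSpace ℝ E] [FiniteDimensional ℝ E] {d : ℕ}
  {μ : Model E d} {g : Met E}

theorem second_form {P P' : ℝ → E →L[ℝ] ℝ} {Δ Δ' : ℝ → E} {P'' : E →L[ℝ] ℝ} {Δ'' : E} {C : ℝ}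
    (h0 : ∀ᶠ s in 𝓝 (0 : ℝ), 0 ≤ P s (Δ s) + C * ‖Δ s‖ ^ 2) (e0 : Δ 0 = 0)
    (hP : ∀ᶠ s in 𝓝 (0 : ℝ), HasDerivAt P (P' s) s) (hΔ : ∀ᶠ s in 𝓝 (0 : ℝ), HasDerivAt Δ (Δ' s) s)
    (hP' : HasDerivAt P' P'' 0) (hΔ' : HasDerivAt Δ' Δ'' 0) :
    P 0 (Δ' 0) = 0 ∧ 0 ≤ 2 * P' 0 (Δ' 0) + P 0 Δ'' + 2 * C * ‖Δ' 0‖ ^ 2 := by
  have k := second_nonneg (φ := fun s => P s (Δ s) + C * ‖Δ s‖ ^ 2)
    (ψ := fun s => P' s (Δ s) + P s (Δ' s) + C * (2 * inner ℝ (Δ s) (Δ' s))) (by simpa [e0] using h0)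
    ((hP.and hΔ).mono fun s hs => (hs.1.clm_apply hs.2).add (hs.2.norm_sq.const_mul C))
    (((hP'.clm_apply hΔ.self_of_nhds).add (hP.self_of_nhds.clm_apply hΔ')).add
      (((hΔ.self_of_nhds.inner ℝ hΔ').const_mul 2).const_mul C))
  simp only [e0, map_zero, inner_zero_left, mul_zero, add_zero, zero_add, real_inner_self_eq_norm_sq] at k
  exact ⟨k.1, by linarith only [k, k.2]⟩

/-- The momentum at time `D`. -/
def mom (G : Geo μ g) (D : ℝ) (x : E × E) : E →L[ℝ] ℝ := g (G.Z D x) (vel g (G.psi D x))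

/-- Fields from the fibre at time `D`. -/
def AA (G : Geo μ g) (D : ℝ) (x : E × E) : E →L[ℝ] E := (G.JJ D x).comp (ContinuousLinearMap.inr ℝ E E)

/-- The variation of the momentum. -/
def PA (G : Geo μ g) (D : ℝ) (x : E × E) : E →L[ℝ] E →L[ℝ] ℝ :=
  (G.PP D x).comp (ContinuousLinearMap.inr ℝ E E)

/-- Second derivative of the end point along a line. -/
def acc (G : Geo μ g) (D : ℝ) (x : E × E) (u : E) : E := deriv (fun s : ℝ => AA G D (x.1, x.2 + s • u) u) 0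

section
variable (G : Geo μ g) (h : IsMetric μ g) (D : ℝ)
include h

theorem contDiffOn_AA : ContDiffOn ℝ ∞ (AA G D) μ.OO :=
  ((G.contDiffOn_JJ h).comp (f := fun x : E × E => (D, x)) (by fun_prop) fun _ hx => hx).clm_comp
    contDiffOn_const

theorem contDiffOn_PA : ContDiffOn ℝ ∞ (PA G D) μ.OO :=
  ((G.contDiffOn_PP h).comp (f := fun x : E × E => (D, x)) (by fun_prop) fun _ hx => hx).clm_comp
    contDiffOn_const

theorem contDiffOn_mom : ContDiffOn ℝ ∞ (mom G D) μ.OO :=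
  (G.jacA_mom h).comp (f := fun x : E × E => (D, x)) (by fun_prop) fun _ hx => hx

theorem continuousOn_Z : ContinuousOn (G.Z D) μ.OO :=
  (G.contDiffOn_Z h).continuousOn.comp (f := fun x : E × E => (D, x)) (by fun_prop) fun _ hx => hx

theorem mom_AA {x : E × E} (hx : x ∈ μ.OO) (u : E) : mom G D x (AA G D x u) = 0 :=
  (G.al_inv h D hx (0, u)).trans (map_zero (g x.1 (vel g x)))

theorem PA_symm {x : E × E} (hx : x ∈ μ.OO) (u w : E) :
    PA G D x u (AA G D x w) = PA G D x w (AA G D x u) := by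
  have := G.om_inv h D hx (0, u) (0, w)
  rw [h.om_fibre hx] at this
  simp only [map_zero, mul_zero, sub_zero] at this
  exact sub_eq_zero.1 this

omit h in
theorem line_OO {x : E × E} (hx : x ∈ μ.OO) (u : E) : ∀ᶠ s in 𝓝 (0 : ℝ), (x.1, x.2 + s • u) ∈ μ.OO :=
  (show ContinuousAt (fun s : ℝ => ((x.1, x.2 + s • u) : E × E)) 0 by fun_prop).eventually
    (isOpen_OO.mem_nhds (by simpa using hx))

omit h in
theorem line_deriv (x : E × E) (u : E) (s : ℝ) :
    HasDerivAt (fun s : ℝ => ((x.1, x.2 + s • u) : E × E)) (0, u) s :=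
  (hasDerivAt_const s x.1).prodMk (by simpa using ((hasDerivAt_id s).smul_const u).const_add x.2)

theorem line_Z {x : E × E} {u : E} {s : ℝ} (hs : (x.1, x.2 + s • u) ∈ μ.OO) :
    HasDerivAt (fun s : ℝ => G.Z D (x.1, x.2 + s • u)) (AA G D (x.1, x.2 + s • u) u) s :=
  HasFDerivAt.comp_hasDerivAt (l := G.Z D) s (G.jac_dZ h D hs).hasFDerivAt (line_deriv x u s)

theorem line_mom {x : E × E} {u : E} {s : ℝ} (hs : (x.1, x.2 + s • u) ∈ μ.OO) :
    HasDerivAt (fun s : ℝ => mom G D (x.1, x.2 + s • u)) (PA G D (x.1, x.2 + s • u) u) s :=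
  HasFDerivAt.comp_hasDerivAt (l := fun y => g (G.Z D y) (vel g (G.psi D y))) s
    (G.jac_dP h D hs).hasFDerivAt (line_deriv x u s)

omit h in
theorem line_diff {Y : Type} [NormedAddCommGroup Y] [NormedSpace ℝ Y] {F : E × E → Y}
    (hF : ContDiffOn ℝ ∞ F μ.OO) {x : E × E} (hx : x ∈ μ.OO) (u : E) :
    DifferentiableAt ℝ (fun s : ℝ => F (x.1, x.2 + s • u)) 0 :=
  DifferentiableAt.comp 0 ((hF.contDiffAt (isOpen_OO.mem_nhds (by simpa using hx))).differentiableAt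
    (by simp)) (line_deriv x u 0).differentiableAt

theorem line_AA {x : E × E} (hx : x ∈ μ.OO) (u : E) :
    HasDerivAt (fun s : ℝ => AA G D (x.1, x.2 + s • u) u) (acc G D x u) 0 :=
  ((line_diff (contDiffOn_AA G h D) hx u).clm_apply (differentiableAt_const u)).hasDerivAt

theorem gauss2 {x : E × E} (hx : x ∈ μ.OO) (u : E) :
    PA G D x u (AA G D x u) + mom G D x (acc G D x u) = 0 := by
  have h1 := (line_mom G h D (line_OO hx u).self_of_nhds).clm_apply (line_AA G h D hx u)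
  have h2 := h1.unique ((hasDerivAt_const (0 : ℝ) (0 : ℝ)).congr_of_eventuallyEq
    ((line_OO hx u).mono fun s hs => mom_AA G h D hs u))
  simpa using h2

omit h in
theorem acc_zero (x : E × E) : acc G D x 0 = 0 := by simp [acc]

end

namespace Bm
variable {G : Geo μ g} {D : ℝ} (B : Bm g G D)
include B

theorem key : ∃ C : ℝ, 0 < C ∧ ∀ x ∈ μ.OO, ∀ x' ∈ μ.OO, x.1 ∈ μ.M → x'.1 = x.1 → G.Z D x' = G.Z D x →
    ∀ κ u, mom G D x (AA G D x' u) = 0 ∧ 0 ≤ 2 * PA G D x κ (AA G D x' u) - PA G D x κ (AA G D x κ) +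
      mom G D x (acc G D x' u) + 2 * C * ‖AA G D x' u - AA G D x κ‖ ^ 2 := by
  have h := B.met
  have hp := B.pos
  obtain ⟨C, δ, hC, hδ, hs⟩ := semi G h hp
  refine ⟨C, hC, fun x hx x' hx' hM e1 e κ u => ?_⟩
  have o1 := line_OO hx κ
  have o2 := line_OO hx' u
  have hΔ : ∀ᶠ s in 𝓝 (0 : ℝ), HasDerivAt (fun s : ℝ => G.Z D (x'.1, x'.2 + s • u) - G.Z D (x.1, x.2 + s • κ))
      (AA G D (x'.1, x'.2 + s • u) u - AA G D (x.1, x.2 + s • κ) κ) s :=
    (o1.and o2).mono fun s hs => (line_Z G h D hs.2).sub (line_Z G h D hs.1)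
  have e0 : G.Z D (x'.1, x'.2 + (0 : ℝ) • u) - G.Z D (x.1, x.2 + (0 : ℝ) • κ) = 0 := by simp [e]
  have hn := hΔ.self_of_nhds.continuousAt.norm.eventually_lt (continuousAt_const (y := δ))
    (by rw [e0, norm_zero]; exact hδ)
  have k := second_form (C := C) ?_ e0 (o1.mono fun s hs => line_mom G h D hs) hΔ
    ((line_diff (contDiffOn_PA G h D) hx κ).clm_apply (differentiableAt_const κ)).hasDerivAt
    ((line_AA G h D hx' u).sub (line_AA G h D hx κ))
  · simp only [zero_smul, add_zero, map_sub, Prod.mk.eta, mom_AA G h D hx, sub_zero] at k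
    exact ⟨k.1, by linarith [k.2, gauss2 G h D hx κ]⟩
  · filter_upwards [o1, o2, hn] with s h1 h2 h3
    obtain ⟨-, h4⟩ := hs _ (G.psi_TT h D h1) _ h3.le D le_rfl
    have h5 := B.min _ h2
    have h6 : (G.psi D (x.1, x.2 + s • κ)).1 = G.Z D (x.1, x.2 + s • κ) := rfl
    rw [G.Z_add _ _ h1, neg_add_cancel, G.Z_zero h1, h6, add_sub_cancel, hM.2] at h4
    rw [e1] at h5 h4 ⊢
    unfold mom
    linarith

end Bm

end Pool.Agent.Work.MP_8c604c_gt.P
end
end

-- merged part: Pool.Agent.Work.MP_8c604c_gt.P.Rank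
section
/-!
The multiplicity of the conjugate point at time `D`: constant along links, and without jumps along closed geodesics.
-/

set_option maxSynthPendingDepth 3
set_option linter.unusedSectionVars false

open Set Filter Topology MeasureTheory Module
open scoped ContDiff

noncomputable section
namespace Pool.Agent.Work.MP_8c604c_gt.P

open O O.Model

theorem dim_le {V : Type} [AddCommGroup V] [Module ℝ V] [FiniteDimensional ℝ V] {K S : Submodule ℝ V}
    {γ A : V →ₗ[ℝ] V} (hγ : ∀ κ ∈ K, γ κ ∈ S) (hA : ∀ u, A u ∈ S)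
    (hi : ∀ κ ∈ K, ∀ u, γ κ = A u → κ = 0) :
    finrank ℝ K + finrank ℝ V ≤ finrank ℝ S + finrank ℝ (LinearMap.ker A) := by
  have h1 : finrank ℝ (K.map γ) = finrank ℝ K := by
    rw [← LinearMap.range_domRestrict]
    exact LinearMap.finrank_range_of_inj ((injective_iff_map_eq_zero _).2 fun κ e =>
      Subtype.ext (hi κ κ.2 0 (e.trans (map_zero A).symm)))
  have h2 := Submodule.finrank_sup_add_finrank_inf_eq (K.map γ) (LinearMap.range A)
  have h3 : K.map γ ⊓ LinearMap.range A = ⊥ := (Submodule.eq_bot_iff _).2 fun _ ⟨⟨κ, k, e⟩, u, e'⟩ => by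
    rw [← e, hi κ k u (e.trans e'.symm), map_zero]
  have h4 : finrank ℝ (K.map γ ⊔ LinearMap.range A : Submodule ℝ V) ≤ finrank ℝ S :=
    Submodule.finrank_mono (sup_le (fun _ ⟨κ, k, e⟩ => e ▸ hγ κ k) fun _ ⟨u, e⟩ => e ▸ hA u)
  have h5 := A.finrank_range_add_finrank_ker
  rw [h3, finrank_bot, h1] at h2
  omega

theorem lin_zero {a b : ℝ} (h : ∀ t : ℝ, 0 ≤ t * a + b) : a = 0 := by
  by_contra ha
  have := h (-(b + 1) / a)
  rw [div_mul_cancel₀ _ ha] at this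
  linarith

variable {E : Type} [NormedAddCommGroup E] [InnerProductSpace ℝ E] [FiniteDimensional ℝ E] {d : ℕ}
  {μ : Model E d} {g : Met E}

/-- The dimension of the kernel. -/
def kd (G : Geo μ g) (D : ℝ) (x : E × E) : ℕ := finrank ℝ (LinearMap.ker (AA G D x : E →ₗ[ℝ] E))

/-- The tangent part of the kernel. -/
def WT (G : Geo μ g) (D : ℝ) (x : E × E) : Submodule ℝ E :=
  LinearMap.ker (AA G D x : E →ₗ[ℝ] E) ⊓ μ.Tan x.1

/-- The end velocity attached to a kernel vector. -/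
def gam (G : Geo μ g) (D : ℝ) (x : E × E) : E →L[ℝ] E :=
  (G.JD D x).comp (ContinuousLinearMap.inr ℝ E E) + (g x.1 (vel g x)).smulRight (vel g (G.psi D x))

theorem gam_apply (G : Geo μ g) (D : ℝ) (x : E × E) (κ : E) :
    gam G D x κ = G.JD D x (0, κ) + g x.1 (vel g x) κ • vel g (G.psi D x) := rfl

section
variable (G : Geo μ g) (h : IsMetric μ g) (D : ℝ)
include h

theorem WT_dim {x : E × E} (hx : x ∈ μ.TT) : finrank ℝ (WT G D x) + finrank ℝ E = d + kd G D x := by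
  have h1 := Link_rk (LinearMap.ker (AA G D x : E →ₗ[ℝ] E))
    ((μ.Q x.1 : E →ₗ[ℝ] E).codRestrict (LinearMap.ker (μ.P x.1 : E →ₗ[ℝ] E)) fun u => P_Q hx.1 u)
    fun y => ⟨y, G.JJ_Bs h D (TT_OO hx) (mem_Bs_of_P y.2), Subtype.ext (Q_of_P y.2)⟩
  have h2 : LinearMap.ker ((μ.Q x.1 : E →ₗ[ℝ] E).codRestrict (LinearMap.ker (μ.P x.1 : E →ₗ[ℝ] E))
      fun u => P_Q hx.1 u) = μ.Tan x.1 := by
    rw [LinearMap.ker_codRestrict]
    exact Submodule.ext fun u => Q_eq_zero.trans mem_Tan.symm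
  have h3 := finrank_ker_P hx.1
  rw [h2] at h1
  unfold kd WT
  omega

theorem AA_P {z w : E} (hz : z ∈ μ.M) (hw : (z, w) ∈ μ.OO) : AA G D (z, μ.P z w) = AA G D (z, w) := by
  ext1 u
  have := G.JJ_R h D hw (0, u)
  rw [DR_fibre hz.1, (Link_TT hz hw).2] at this
  exact (G.JJ_P h _ (Link_TT hz hw).1 u).symm.trans this

theorem kd_usc {x : E × E} (hx : x ∈ μ.OO) : ∀ᶠ y in 𝓝 x, kd G D y ≤ kd G D x := by
  have h1 := ((contDiffOn_AA G h D).continuousOn.continuousAt (isOpen_OO.mem_nhds hx)).eventually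
    ((isOpen_setOfPred_nat_le_rank (finrank ℝ (LinearMap.range (AA G D x : E →ₗ[ℝ] E)))).mem_nhds
      (finrank_eq_rank ℝ _).le)
  filter_upwards [h1] with y hy
  have h2 : finrank ℝ (LinearMap.range (AA G D x : E →ₗ[ℝ] E)) ≤
      finrank ℝ (LinearMap.range (AA G D y : E →ₗ[ℝ] E)) := by
    have h3 : (_ : Cardinal) ≤ Module.rank ℝ _ := hy
    rwa [← finrank_eq_rank, Nat.cast_le] at h3
  have h3 := (AA G D x : E →ₗ[ℝ] E).finrank_range_add_finrank_ker
  have h4 := (AA G D y : E →ₗ[ℝ] E).finrank_range_add_finrank_ker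
  unfold kd
  omega

theorem gam_tan {x : E × E} (hx : x ∈ μ.OO) {κ : E} (hκ : AA G D x κ = 0) :
    μ.P (G.Z D x) (gam G D x κ) = gam G D x κ := by
  rw [gam_apply, map_add, map_smul, G.JD_tan h D hx (ξ := (0, κ)) hκ]
  exact congrArg (fun v => _ + _ • v) (P_vel (G.psi_TT h D hx))

theorem PA_ker {x : E × E} (hx : x ∈ μ.OO) {κ : E} (hκ : AA G D x κ = 0) (η : E) :
    PA G D x κ η = g (G.Z D x) (G.JD D x (0, κ)) η := by
  have := G.PP_apply h D hx (0, κ) η
  rwa [show G.JJ D x (0, κ) = 0 from hκ, map_zero, zero_apply, zero_apply, zero_add] at this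

theorem g_gam {x : E × E} (hx : x ∈ μ.OO) {κ : E} (hκ : AA G D x κ = 0) (η : E) :
    g (G.Z D x) (gam G D x κ) η = PA G D x κ η + g x.1 (vel g x) κ * mom G D x η := by
  rw [gam_apply, map_add, map_smul, PA_ker G h D hx hκ]
  rfl

theorem mom_JD {x : E × E} (hx : x ∈ μ.OO) {κ : E} (hκ : AA G D x κ = 0) :
    mom G D x (G.JD D x (0, κ)) = 0 := by
  have h1 := ((G.jac_dP h D hx).hasFDerivAt.clm_apply (G.jac_dV h D hx).hasFDerivAt).unique
    ((hasFDerivAt_const (1 : ℝ) x).congr_of_eventuallyEq (eventually_of_mem (isOpen_OO.mem_nhds hx)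
      fun y hy => h.vel_unit (G.psi_mem h D hy)))
  have h2 : mom G D x (G.JD D x (0, κ)) + PA G D x κ (vel g (G.psi D x)) = 0 :=
    congrArg (fun L => L (0, κ)) h1
  rw [PA_ker G h D hx hκ, h.symm _ _ _ (G.Z_U D hx)] at h2
  unfold mom at h2 ⊢
  linarith only [h2]

theorem gam_pos {x : E × E} (hx : x ∈ μ.TT) {κ : E} (hκ : κ ∈ WT G D x) (h0 : κ ≠ 0) :
    0 < g (G.Z D x) (gam G D x κ) (gam G D x κ) := by
  have ho := TT_OO hx
  have hy := G.Z_U D ho
  refine (h.nonneg hy _).lt_of_ne' fun e => h0 ?_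
  have h1 := h.eq_zero_of_tan hy (gam_tan G h D ho hκ.1) e
  have h2 := congrArg (mom G D x) h1
  have h3 : mom G D x (vel g (G.psi D x)) = 1 := h.vel_unit (G.psi_mem h D ho)
  rw [gam_apply, map_add, map_smul, mom_JD G h D ho hκ.1, h3, map_zero, smul_eq_mul, mul_one, zero_add] at h2
  rw [gam_apply, h2, zero_smul, add_zero] at h1
  refine h.Bs_zero hx (by_contra fun k => ?_) (mem_Tan.1 hκ.2) ?_
  · have := G.nc_pos h ho (u := κ) hκ.1 k
    rw [h1, map_zero] at this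
    exact this.false
  · rwa [h.g_vel ho, mul_eq_zero, or_iff_right (inv_ne_zero (h.spd_pos ho).ne')] at h2

/-- A two sided bound prevents the kernel from growing in the limit. -/
theorem gap {x₀ : E × E} (hx : x₀ ∈ μ.TT) (c : ℝ) : ∀ᶠ x in 𝓝 x₀, x ∈ μ.TT →
    (∀ u, |PA G D x u (AA G D x u)| ≤ c * ‖AA G D x u‖ ^ 2) → kd G D x₀ ≤ kd G D x := by
  have := FiniteDimensional.proper_real E
  have ho := TT_OO hx
  have hn := isOpen_OO.mem_nhds ho
  let γ : E × E → E →L[ℝ] E := fun x => (μ.P (G.Z D x)).comp (gam G D x₀)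
  have cγ : ContinuousAt γ x₀ := ((contDiffAt_P (G.Z_U D ho)).continuousAt.comp
    ((continuousOn_Z G h D).continuousAt hn)).clm_comp continuousAt_const
  have cA := (contDiffOn_AA G h D).continuousOn.continuousAt hn
  have cP := (contDiffOn_PA G h D).continuousOn.continuousAt hn
  have cm := (contDiffOn_mom G h D).continuousOn.continuousAt hn
  have hK : IsCompact (Metric.sphere (0 : E) 1 ∩ WT G D x₀) :=
    (isCompact_sphere _ _).inter_right (Submodule.closed_of_finiteDimensional _)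
  have ev := hK.eventually_forall_of_forall_eventually (x₀ := x₀) (P := fun x κ => ∃ m : ℝ, 0 < m ∧
      c * (m ^ 2 * ‖AA G D x κ‖ ^ 2 + ‖γ x κ‖ ^ 2) <
        2 * m * (PA G D x κ (γ x κ) + g x₀.1 (vel g x₀) κ * mom G D x (γ x κ))) fun κ hκ => by
    have h1 := gam_pos G h D hx hκ.2 (ne_zero_of_mem_unit_sphere ⟨κ, hκ.1⟩)
    have h2 : γ x₀ κ = gam G D x₀ κ := gam_tan G h D ho hκ.2.1
    have h3 : AA G D x₀ κ = 0 := hκ.2.1
    rw [g_gam G h D ho h3] at h1
    have f1 : ContinuousAt (fun p : (E × E) × E => γ p.1 p.2) (x₀, κ) :=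
      (cγ.comp_of_eq continuousAt_fst rfl).clm_apply continuousAt_snd
    have f2 : ContinuousAt (fun p : (E × E) × E => AA G D p.1 p.2) (x₀, κ) :=
      (cA.comp_of_eq continuousAt_fst rfl).clm_apply continuousAt_snd
    have f3 : ContinuousAt (fun p : (E × E) × E => PA G D p.1 p.2 (γ p.1 p.2) +
        g x₀.1 (vel g x₀) p.2 * mom G D p.1 (γ p.1 p.2)) (x₀, κ) :=
      (((cP.comp_of_eq continuousAt_fst rfl).clm_apply continuousAt_snd).clm_apply f1).add
        ((continuousAt_const.clm_apply continuousAt_snd).mul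
          ((cm.comp_of_eq continuousAt_fst rfl).clm_apply f1))
    obtain ⟨m, m0, hm⟩ : ∃ m : ℝ, 0 < m ∧ c * ‖gam G D x₀ κ‖ ^ 2 < 2 * m * (PA G D x₀ κ (gam G D x₀ κ) +
        g x₀.1 (vel g x₀) κ * mom G D x₀ (gam G D x₀ κ)) :=
      ⟨(|c * ‖gam G D x₀ κ‖ ^ 2| + 1) / _, div_pos (by positivity) h1, by
        rw [mul_assoc, div_mul_cancel₀ _ h1.ne']
        linarith only [le_abs_self (c * ‖gam G D x₀ κ‖ ^ 2), abs_nonneg (c * ‖gam G D x₀ κ‖ ^ 2)]⟩
    exact (((((f2.norm.pow 2).const_mul (m ^ 2)).add (f1.norm.pow 2)).const_mul c).eventually_lt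
      (f3.const_mul (2 * m)) (by simpa [h2, h3] using hm)).mono fun p hp => ⟨m, m0, hp⟩
  filter_upwards [ev] with x hx1 hT hb
  have hxo := TT_OO hT
  have h1 := dim_le (K := WT G D x₀) (S := μ.Tan (G.Z D x)) (γ := (γ x : E →ₗ[ℝ] E))
    (A := (AA G D x : E →ₗ[ℝ] E)) (fun κ _ => mem_Tan.2 (P_idem (G.Z_mem D hxo) _))
    (fun u => mem_Tan.2 (G.JJ_tan h D hxo _)) fun κ hκ u e => by_contra fun h0 => by
      obtain ⟨m, m0, hm⟩ := hx1 (‖κ‖⁻¹ • κ) ⟨by simp [norm_smul, h0], Submodule.smul_mem _ _ hκ⟩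
      have e' : γ x (‖κ‖⁻¹ • κ) = AA G D x (‖κ‖⁻¹ • u) := by
        rw [map_smul, map_smul]
        exact congrArg _ e
      rw [e', mom_AA G h D hxo, mul_zero, add_zero] at hm
      generalize ‖κ‖⁻¹ • κ = a at hm
      generalize ‖κ‖⁻¹ • u = b at hm
      have k1 := (abs_le.1 (hb (m • a + b))).2
      have k2 := (abs_le.1 (hb (m • a - b))).1
      have k3 := parallelogram_law_with_norm ℝ (m • AA G D x a) (AA G D x b)
      simp only [map_add, map_sub, map_smul, add_apply, sub_apply, smul_apply, smul_eq_mul,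
        PA_symm G h D hxo b a] at k1 k2
      rw [norm_smul, Real.norm_eq_abs, abs_of_pos m0] at k3
      have k4 : c * ‖m • AA G D x a + AA G D x b‖ ^ 2 + c * ‖m • AA G D x a - AA G D x b‖ ^ 2 =
          2 * (c * (m ^ 2 * ‖AA G D x a‖ ^ 2 + ‖AA G D x b‖ ^ 2)) := by linear_combination c * k3
      linarith only [hm, k1, k2, k4]
  rw [finrank_Tan (G.Z_mem D hxo), WT_dim G h D hx] at h1
  exact Nat.le_of_add_le_add_left h1

end

namespace Bm
variable {G : Geo μ g} {D : ℝ} (B : Bm g G D)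
include B

/-- The multiplicity is the same for all geodesics with the same end points. -/
theorem kd_link {x x' : E × E} (hx : x ∈ μ.TT) (hx' : x' ∈ μ.OO) (e1 : x'.1 = x.1)
    (e : G.Z D x' = G.Z D x) : kd G D x ≤ kd G D x' := by
  have h := B.met
  have ho := TT_OO hx
  obtain ⟨C, -, hC⟩ := B.key
  have h1 := dim_le (K := WT G D x) (S := μ.Tan (G.Z D x)) (γ := (gam G D x : E →ₗ[ℝ] E))
    (A := (AA G D x' : E →ₗ[ℝ] E)) (fun κ hκ => mem_Tan.2 (gam_tan G h D ho hκ.1))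
    (fun u => mem_Tan.2 (e ▸ G.JJ_tan h D hx' _)) fun κ hκ u e2 => by_contra fun h0 => by
      have k0 : AA G D x κ = 0 := hκ.1
      have k1 := gam_pos G h D hx hκ h0
      have k2 : 2 * PA G D x κ (AA G D x' u) = 0 := lin_zero
          (b := mom G D x (acc G D x' u) + 2 * C * ‖AA G D x' u‖ ^ 2) fun t => by
        have := (hC x ho x' hx' hx.1 e1 e (t • κ) u).2
        simp only [map_smul, k0, smul_zero, map_zero, sub_zero, smul_apply, smul_eq_mul] at this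
        linarith only [this]
      rw [g_gam G h D ho k0, show gam G D x κ = AA G D x' u from e2, (hC x ho x' hx' hx.1 e1 e κ u).1] at k1
      linarith
  rw [finrank_Tan (G.Z_mem D ho), WT_dim G h D hx] at h1
  exact Nat.le_of_add_le_add_left h1

/-- The two sided bound along closed geodesics. -/
theorem two_sided : ∃ c : ℝ, ∀ x ∈ μ.TT, G.Z (-D) x = G.Z D x →
    ∀ u, |PA G D x u (AA G D x u)| ≤ c * ‖AA G D x u‖ ^ 2 := by
  have h := B.met
  obtain ⟨C, -, hC⟩ := B.key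
  refine ⟨2 * C, fun x hx e u => abs_le.2 ⟨?_, ?_⟩⟩
  · have ho := TT_OO hx
    have e1 : G.Z D (x.1, -x.2) = G.Z D x := (Z_neg G D ho).trans e
    have e2 : mom G D (x.1, -x.2) = -mom G D x := by
      rw [mom, e1, G.psi_neg D ho, vel_neg, B.psi_close ho e, map_neg, mom]
    have := (hC _ (TT_OO (neg_TT hx)) x ho hx.1 rfl e1.symm 0 u).2
    simp only [map_zero, zero_apply, mul_zero, sub_zero, zero_add, e2, neg_apply] at this
    linarith [gauss2 G h D ho u]
  · have := (hC x (TT_OO hx) x (TT_OO hx) hx.1 rfl rfl u 0).2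
    simp only [map_zero, mul_zero, zero_sub, acc_zero, add_zero, norm_neg] at this
    linarith

end Bm

end Pool.Agent.Work.MP_8c604c_gt.P
end
end

-- merged part: Pool.Agent.Work.MP_8c604c_gt.P.Per
section
/-!
If all geodesics minimise up to the diameter `D`, they are periodic with period `2 D`.
-/

set_option maxSynthPendingDepth 3
set_option linter.unusedSectionVars false

open Set Filter Topology MeasureTheory Module
open scoped ContDiff

noncomputable section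
namespace Pool.Agent.Work.MP_8c604c_gt.P

open O O.Model

variable {E : Type} [NormedAddCommGroup E] [InnerProductSpace ℝ E] [FiniteDimensional ℝ E] {d : ℕ}
  {μ : Model E d} {g : Met E}

theorem isOpen_kd (G : Geo μ g) (h : IsMetric μ g) (D : ℝ) (k : ℕ) :
    IsOpen {x | x ∈ μ.OO ∧ kd G D x ≤ k} :=
  isOpen_iff_mem_nhds.2 fun _ hx => inter_mem (isOpen_OO.mem_nhds hx.1)
    ((kd_usc G h D hx.1).mono fun _ hy => hy.trans hx.2)

theorem seg_OO {z a b : E} (hz : z ∈ μ.M) (ha : (z, a) ∈ μ.TT) (hb : (z, b) ∈ μ.TT)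
    (hab : ∀ c : ℝ, b ≠ c • a) {s : ℝ} : (z, a + s • (b - a)) ∈ μ.OO := by
  refine ⟨hz.1, fun e => ?_⟩
  have h1 : μ.P z a = a := ha.2.1
  have h2 : μ.P z b = b := hb.2.1
  rw [map_add, map_smul, map_sub, h1, h2] at e
  by_cases hs : s = 0
  · exact ha.2.2 (by simpa [hs] using e)
  · refine hab (1 - s⁻¹) ?_
    rw [← sub_eq_zero, ← smul_zero s⁻¹, ← e]
    match_scalars <;> field_simp
    ring

namespace Bm
variable {G : Geo μ g} {D : ℝ} (B : Bm g G D)
include B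

theorem close_of_min (hD : ∀ z ∈ μ.U, ∀ y ∈ μ.U, dd μ g z y ≤ D) {x : E × E} (hx : x ∈ μ.TT)
    (hk : ∀ y ∈ μ.TT, kd G D x ≤ kd G D y) : G.Z (-D) x = G.Z D x := by
  have h := B.met
  obtain ⟨z, v⟩ := x
  have hz : z ∈ μ.M := hx.1
  have ho := TT_OO hx
  have hZ : ContinuousOn (fun w => G.Z D (z, w)) {w | (z, w) ∈ μ.OO} :=
    (continuousOn_Z G h D).comp (f := fun w : E => (z, w)) (by fun_prop) fun w hw => hw
  have hP : ∀ w, (z, w) ∈ μ.OO → G.Z D (z, μ.P z w) = G.Z D (z, w) := fun w hw => by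
    rw [← (Link_TT hz hw).2, G.Z_R h _ hw]
  have hkd : ∀ w, (z, w) ∈ μ.OO → kd G D (z, μ.P z w) = kd G D (z, w) := fun w hw => by
    rw [kd, AA_P G h D hz hw, kd]
  have hker : ∀ w w', (z, w) ∈ μ.OO → (z, w') ∈ μ.OO → G.Z D (z, w') = G.Z D (z, w) →
      AA G D (z, w) w' = 0 := fun w w' hw hw' e => by
    rw [← AA_P G h D hz hw]
    exact B.link_ker (Link_TT hz hw).1 hw' (e.trans (hP w hw).symm)
  have hin : ∀ w, (z, w) ∈ μ.OO → G.Z D (z, w) = G.Z D (z, v) → kd G D (z, w) ≤ kd G D (z, v) :=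
    fun w hw e => hkd w hw ▸ B.kd_link (Link_TT hz hw).1 ho rfl ((hP w hw).trans e).symm
  have hO : IsOpen {w | (z, w) ∈ μ.OO ∧ kd G D (z, w) ≤ kd G D (z, v)} :=
    (isOpen_kd G h D _).preimage (f := fun w : E => (z, w)) (by fun_prop)
  have F : MP_8c604c_gt.B.Leaf {w | (z, w) ∈ μ.OO ∧ kd G D (z, w) ≤ kd G D (z, v)} (fun w => AA G D (z, w))
      (fun w w' => G.Z D (z, w') = G.Z D (z, w)) (kd G D (z, v)) := by
    refine ⟨hO, (contDiffOn_AA G h D).comp (f := fun w : E => (z, w)) (by fun_prop) fun w hw => hw.1,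
      fun w hw => le_antisymm hw.2 ((hk _ (Link_TT hz hw.1).1).trans_eq (hkd w hw.1)), fun _ _ _ _ e => e.symm,
      fun _ _ _ _ _ _ e e' => e'.trans e, fun w _ => rfl, fun w hw => ?_,
      fun w hw w' hw' e => hker w w' hw.1 hw'.1 e, fun w hw w' hw' hc => ?_⟩
    · refine Link_const (F := fun s => G.Z D (z, w s)) ?_
      filter_upwards [hw] with s ⟨h1, v, h2, h3⟩
      exact (Link_hasDerivAt_Z G h D h2 h1.1).congr_deriv h3
    · have := (hZ.continuousAt ((isOpen_OO.preimage (by fun_prop)).mem_nhds hw'.1)).continuousWithinAt.mem_closure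
        (t := {G.Z D (z, w)}) hc fun y hy => hy.2
      rwa [closure_singleton] at this
  have seg : ∀ a κ, G.Z D (z, a) = G.Z D (z, v) → AA G D (z, v) κ = 0 →
      (∀ s : ℝ, (z, a + s • κ) ∈ μ.OO) → G.Z D (z, a + κ) = G.Z D (z, v) := fun a κ ha hκ hs => by
    have hc : Continuous fun s : ℝ => G.Z D (z, a + s • κ) :=
      hZ.comp_continuous (f := fun s : ℝ => a + s • κ) (by fun_prop) hs
    have h2 := IsClopen.eq_univ (s := {s : ℝ | G.Z D (z, a + s • κ) = G.Z D (z, v)})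
      ⟨isClosed_eq hc continuous_const, isOpen_iff_mem_nhds.2 fun t ht => ?_⟩ ⟨0, by simpa using ha⟩
    · simpa using (h2.ge (mem_univ 1) :)
    have m : a + t • κ ∈ {w | (z, w) ∈ μ.OO ∧ kd G D (z, w) ≤ kd G D (z, v)} := ⟨hs t, hin _ (hs t) ht⟩
    have h3 := F.line m ((F.ker ⟨ho, le_rfl⟩ m ht κ).1 hκ)
    have h4 : Tendsto (fun s : ℝ => s - t) (𝓝 t) (𝓝 0) :=
      (continuous_sub_right t).tendsto' t 0 (sub_self t)
    filter_upwards [h4.eventually h3] with s a'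
    rw [add_assoc, ← add_smul, add_sub_cancel] at a'
    exact a'.trans ht
  obtain ⟨b, hb, e, hneg⟩ := B.berger hD hx
  have hn := neg_TT hx
  rw [← Z_neg G D ho]
  by_cases hc : ∃ c : ℝ, b = c • v
  · obtain ⟨c, rfl⟩ := hc
    have h1 : g z v (vel g (z, v)) = spd g (z, v) := (h.symm _ _ _ hz.1).trans (h.g_vel_snd ho)
    rw [map_smul, smul_apply, h1, smul_eq_mul] at hneg
    have h2 : c ≠ 0 := fun k => hb.2.2 (by simp [k])
    have h3 : 0 < -c := neg_pos.2 (lt_of_le_of_ne (nonpos_of_mul_nonpos_left hneg (h.spd_pos ho)) h2)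
    rw [← e, ← G.Z_sc D h3 (TT_OO hn)]
    simp [sc]
  · push Not at hc
    have h1 : AA G D (z, v) v = 0 := hker v v ho ho rfl
    have h2 : AA G D (z, v) b = 0 := hker v b ho (TT_OO hb) e
    have h3 := seg b (-v - b) e (by rw [map_sub, map_neg, h1, h2, neg_zero, sub_zero]) fun s =>
      seg_OO hz hb hn fun c k => hc (-c⁻¹) ?_
    · rwa [add_sub_cancel] at h3
    have h4 : c ≠ 0 := fun k' => hn.2.2 (by simpa [k'] using k)
    have k : -v = c • b := k
    rw [neg_smul, ← smul_neg, k, inv_smul_smul₀ h4]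

theorem per (hD : ∀ z ∈ μ.U, ∀ y ∈ μ.U, dd μ g z y ≤ D) {x : E × E} (hx : x ∈ μ.OO) (t : ℝ) :
    G.Z (t + 2 * D) x = G.Z t x := by
  have h := B.met
  obtain ⟨x₀, h0, hm⟩ : ∃ x₀ ∈ μ.TT, ∀ w ∈ μ.TT, kd G D x₀ ≤ kd G D w := by
    obtain ⟨_, ⟨x₀, h0, rfl⟩, hm⟩ := wellFounded_lt.has_min (kd G D '' μ.TT) ⟨_, _, R_mem_TT hx, rfl⟩
    exact ⟨x₀, h0, fun w hw => not_lt.1 (hm _ ⟨w, hw, rfl⟩)⟩
  obtain ⟨c, hc⟩ := B.two_sided
  have hR : ContinuousOn μ.R μ.OO := contDiffOn_R.continuousOn.mono fun _ hy => hy.1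
  have key := μ.isPreconnected_TT.subset_of_closure_inter_subset
    (hR.isOpen_inter_preimage isOpen_OO (isOpen_kd G h D (kd G D x₀)))
    ⟨x₀, h0, TT_OO h0, by rw [mem_preimage, R_of_TT h0]; exact ⟨TT_OO h0, le_rfl⟩⟩ fun y ⟨y1, y2⟩ => by
      have h1 : Tendsto μ.R (𝓝 y) (𝓝 y) := by
        have := (hR.continuousAt (isOpen_OO.mem_nhds (TT_OO y2))).tendsto
        rwa [R_of_TT y2] at this
      obtain ⟨y', a1, a2⟩ := ((mem_closure_iff_frequently.1 y1).and_eventually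
        (h1.eventually (gap G h D y2 c))).exists
      have a3 := R_mem_TT a1.1
      rw [mem_inter_iff, mem_preimage, R_of_TT y2]
      exact ⟨TT_OO y2, TT_OO y2, (a2 a3 (hc _ a3 (B.close_of_min hD a3 fun w hw =>
        a1.2.2.trans (hm w hw)))).trans a1.2.2⟩
  have h2 := (key (R_mem_TT hx)).2
  rw [mem_preimage, R_R hx.1] at h2
  have h3 := B.close_of_min hD (R_mem_TT hx) fun w hw => h2.2.trans (hm w hw)
  rw [G.Z_R h _ hx, G.Z_R h _ hx] at h3
  exact B.per_of_close hx h3 t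

end Bm

end Pool.Agent.Work.MP_8c604c_gt.P
end
end

-- merged part: Pool.Agent.Work.MP_8c604c_gt.P.Br
section
/-!
From constant cut distance to periodicity in the statement layer.
-/

set_option maxSynthPendingDepth 3
set_option linter.unusedSectionVars false

open Set Filter Topology MeasureTheory
open scoped ContDiff

noncomputable section
namespace Pool.Agent.Work.MP_8c604c_gt.P

open O.Model OM.St

variable {E : Type} [NormedAddCommGroup E] [InnerProductSpace ℝ E] [FiniteDimensional ℝ E] {d : ℕ}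
  {μ : O.Model E d} {g : Met E}

theorem tan_P {p u : E} (hp : p ∈ μ.M) : Tan μ.M p u ↔ μ.P p u = u := by
  constructor
  · rintro ⟨c, hc, hm, rfl, rfl⟩
    exact tan_of_curve (hc.differentiable (by simp) 0).hasDerivAt (.of_forall hm)
  · intro h
    obtain ⟨i, a, rfl⟩ := exists_chart hp
    obtain ⟨b, rfl⟩ := (O.Model.tan_iff i a u).1 h
    refine ⟨fun s => μ.χ i (a + s • b), (μ.χ_smooth i).comp (by fun_prop), fun s => χ_M i _, by simp, ?_⟩
    exact (O.jac_curve (hasFDerivAt_χ i a).differentiableAt (O.jac_line a b) (by simp)).deriv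

theorem geo_down (hg : IsMetric μ.M g) {z : ℝ → E} (hz : O.IsUnitGeodesic μ (μ.up g) z) :
    IsUnitGeodesic μ.M g z :=
  ⟨hz.smooth, hz.mem, fun t η hη => O.el_down hg.smooth hg.symm hz t ((tan_P (hz.mem t)).1 hη), fun t => by
    have tn := tan_of_curve (hz.smooth.differentiable (by simp) t).hasDerivAt (.of_forall hz.mem)
    rw [← O.up_tan (hz.mem t) tn tn, hz.unit]⟩

theorem el_up (hg : IsMetric μ.M g) {z : ℝ → E} (hz : IsUnitGeodesic μ.M g z) (t : ℝ) (η : E) :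
    HasDerivAt (fun s => μ.up g (z s) (deriv z s) η)
      (1 / 2 * fderiv ℝ (μ.up g) (z t) η (deriv z t) (deriv z t)) t := by
  have d1 : ∀ s, HasDerivAt z (deriv z s) s := fun s => (hz.smooth.differentiable (by simp) s).hasDerivAt
  have tn : ∀ s, μ.P (z s) (deriv z s) = deriv z s := fun s => tan_of_curve (d1 s) (.of_forall hz.mem)
  have d2 := ((contDiff_infty_iff_deriv.1 hz.smooth).2.differentiable (by simp) t).hasDerivAt
  have hM := hz.mem t
  have dg := ((hg.smooth _ hM).differentiableAt (by simp)).hasFDerivAt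
  have a1 := (dg.comp_hasDerivAt t (d1 t)).clm_apply d2
  have a2 := ((hasFDerivAt_P hM.1).comp_hasDerivAt t (d1 t)).clm_apply (hasDerivAt_const t η)
  have a3 := (a1.clm_apply (hasDerivAt_const t (μ.P (z t) η))).unique
    (hz.el t _ ((tan_P hM).2 (P_idem hM η)))
  have h0 := fun v => (hasFDerivAt_P hM.1).clm_apply (hasFDerivAt_const v (z t))
  have dg' : HasFDerivAt g (fderiv ℝ g (z t)) (μ.r (z t)) := hM.2.symm ▸ dg
  have b1 := ((dg'.comp (z t) (hasFDerivAt_r hM.1)).clm_apply (h0 (deriv z t))).clm_apply (h0 (deriv z t))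
  have du := (((O.contDiffOn_up hg.smooth).contDiffAt (μ.isOpen.mem_nhds hM.1)).differentiableAt
    (by simp)).hasFDerivAt
  have b2 := congrArg (fun L => L η) (((du.clm_apply (hasFDerivAt_const (deriv z t) _)).clm_apply
    (hasFDerivAt_const (deriv z t) _)).unique b1)
  refine ((a1.clm_apply a2).congr_deriv ?_).congr_of_eventuallyEq (.of_forall fun s => by
    simp only [Function.comp_apply, O.up_apply, (hz.mem s).2, tn])
  simp [hM.2, tn] at a3 b2 ⊢
  rw [hg.symm _ hM (fderiv ℝ μ.P (z t) η (deriv z t)), fderiv_P_symm hM.1 η] at b2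
  linarith only [a3, b2]

theorem len_up {γ : ℝ → E} {y y' : E} (hγ : Joins μ.M γ y y') : O.len (μ.up g) γ = len g γ :=
  intervalIntegral.integral_congr fun s _ => by
    have tn := tan_of_curve (hγ.smooth.differentiable one_ne_zero s).hasDerivAt (.of_forall hγ.mem)
    simp only [O.up_tan (hγ.mem s) tn tn]

theorem dd_le {γ : ℝ → E} {y y' : E} (hγ : Joins μ.M γ y y') : O.dd μ (μ.up g) y y' ≤ len g γ :=
  (O.dd_le_len ⟨hγ.smooth, fun s => (hγ.mem s).1, congrArg _ hγ.start, congrArg _ hγ.stop⟩).trans_eq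
    (len_up hγ)

theorem per_min (hg : IsMetric μ.M g) {D : ℝ} (hD : 0 < D)
    (hmin : ∀ c, IsUnitGeodesic μ.M g c → ∀ γ, Joins μ.M γ (c 0) (c D) → D ≤ len g γ)
    (hcut : ∀ c, IsUnitGeodesic μ.M g c → ∀ t, D < t → ∃ γ, Joins μ.M γ (c 0) (c t) ∧ len g γ < t)
    {c : ℝ → E} (hc : IsUnitGeodesic μ.M g c) : (∀ t, c (t + 2 * D) = c t) ∧
      ∀ t ∈ Icc 0 (2 * D / 2), ∀ γ, Joins μ.M γ (c 0) (c t) → t ≤ len g γ := by
  have h : O.IsMetric μ (μ.up g) :=
    O.isMetric_up hg.smooth hg.symm fun p hp u hu => hg.pos p hp u ((tan_P hp).2 hu)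
  obtain ⟨G⟩ := h.exists_geo
  have geo := fun x hx => geo_down hg (G.isUnitGeodesic_Z h (x := x) hx)
  have B : Bm (μ.up g) G D := ⟨h, hD, fun x hx => by
    obtain ⟨c₀, h0⟩ := h.exists_joins hx.1 (G.Z_U D hx)
    refine le_csInf ⟨_, c₀, h0, rfl⟩ ?_
    rintro _ ⟨γ, hγ, rfl⟩
    refine (hmin _ (geo x hx) (μ.r ∘ γ) ⟨O.contDiff_r_comp (by simp) hγ.smooth hγ.mem,
      fun s => r_mem (hγ.mem s), hγ.start.trans (G.Z_zero hx).symm,
      hγ.stop.trans (G.Z_mem D hx).2⟩).trans_eq ?_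
    refine intervalIntegral.integral_congr fun s _ => ?_
    simp only [((hasFDerivAt_r (hγ.mem s)).comp_hasDerivAt s
      (hγ.smooth.differentiable one_ne_zero s).hasDerivAt).deriv]
    rfl⟩
  have hd : ∀ z ∈ μ.U, ∀ y ∈ μ.U, O.dd μ (μ.up g) z y ≤ D := fun z hz y hy => B.diam (fun x hx t ht => by
    obtain ⟨γ, h1, h2⟩ := hcut _ (geo x hx) t ht
    have h3 := dd_le (g := g) h1
    rw [G.Z_zero hx, O.dd_r_left hx.1] at h3
    exact h3.trans_lt h2) hz hy
  have tn := tan_of_curve (hc.smooth.differentiable (by simp) 0).hasDerivAt (.of_forall hc.mem)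
  obtain ⟨ho, h1, -⟩ := h.unit_mem (hc.mem 0).1 ((O.up_tan (hc.mem 0) tn tn).trans (hc.unit 0))
  have e : ∀ t, c t = G.Z t (c 0, deriv c 0) := fun t => by
    have := G.uniq c (-|t| - 1) (|t| + 1) 0 ⟨by linarith only [abs_nonneg t], by linarith [abs_nonneg t]⟩
      hc.smooth.contDiffOn (fun s _ => hc.mem s) (fun s _ => el_up hg hc s) t
      ⟨by linarith [neg_abs_le t], by linarith [le_abs_self t]⟩
    rw [this, O.Geo.Z, O.Geo.psi, h1, sub_zero, div_one]
  refine ⟨fun t => by rw [e, e t, B.per hd ho], fun t ht γ hγ => ?_⟩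
  have h2 := B.dist_dd_Z ho ht.1 (by linarith [ht.2])
  rw [← e, ← e, sub_zero] at h2
  exact h2.trans (dd_le hγ)

open U

theorem cut_rig {S : Set E} (hS : ∃ m, ∃ μ : O.Model E m, μ.M = S) (H : DRig S) (hg : IsMetric S g) {D : ℝ}
    (hD : 0 < D) (hmin : ∀ c, IsUnitGeodesic S g c → ∀ γ, Joins S γ (c 0) (c D) → D ≤ len g γ)
    (hcut : ∀ c, IsUnitGeodesic S g c → ∀ t, D < t → ∃ γ, Joins S γ (c 0) (c t) ∧ len g γ < t) :
    ∃ (Ψ : E → E) (c : ℝ), Set.BijOn Ψ S S ∧ 0 < c ∧ PullsBack S g Ψ c := by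
  obtain ⟨m, μ, rfl⟩ := hS
  exact H g hg (2 * D) (by positivity) (fun c hc => (per_min hg hD hmin hcut hc).1)
    fun c hc => (per_min hg hD hmin hcut hc).2

end Pool.Agent.Work.MP_8c604c_gt.P
end
end
end
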