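import Pool.Agent.Work.MP_8c604c_gt.OZ.Fin
import Pool.Agent.Work.MP_8c604c_gt.OS.St2
import Pool.Agent.Work.MP_8c604c_gt.P.Br
import Pool.Agent.Work.MP_8c604c_gt.OC.Vol
import Pool.Agent.Work.MP_8c604c_gt.P.Mod
import Pool.Agent.Work.MP_8c604c_gt.O.Rig
import Pool.Agent.Work.MP_8c604c_gt.OM.S2
import Pool.Agent.Work.MP_8c604c_gt.U.CP
import Pool.Agent.Work.MP_8c604c_gt.U.HP

-- merged part: Pool.Agent.Work.MP_8c604c_gt.OZ.Out
section
/-!
The output of the topology (owner helper4).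
-/

noncomputable section

namespace Pool.Agent.Work.MP_8c604c_gt.OT

open Set Pool.Agent.Work.MP_849ab0_ag.G T

variable {V : Type} [NormedAddCommGroup V] [InnerProductSpace ℝ V] [FiniteDimensional ℝ V]
  {X : Mf V}

theorem countLe (Q : MT X) (C : Ch X) : CountLe X C := by
  intro D w S L h e
  obtain ⟨σ, dσ, hσ, -⟩ := exists_sig (Fin 16)
  obtain ⟨s, hs, k⟩ := D.toTD0.Cn_orient Q D.cΦ D.neΦ h e
  have k' := D.toTD0.Φ_sig Q D.cΦ D.neΦ k (by simpa using dσ) hσ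
  have := D.deg_le Q (N := s * ∑ x ∈ S,
    (SignType.sign ((L x).comp (e : (Fin 16 → ℂ) →L[ℝ] RN 16 × RN 16)).det : ℤ)) hσ
    (by rw [k']; push_cast; rfl)
  rw [abs_mul, show |s| = 1 by rcases hs with rfl | rfl <;> rfl, one_mul] at this
  have r := (Int.cast_le (R := ℝ)).2 this
  push_cast at r
  exact r

end Pool.Agent.Work.MP_8c604c_gt.OT
end
end

-- merged part: Pool.Agent.Work.MP_8c604c_gt.OC.Top
section
/-!
Assembly of the Blaschke theorem for the Cayley plane.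
-/

set_option maxSynthPendingDepth 3

open Set Filter Topology Real
open scoped ContDiff

noncomputable section
namespace Pool.Agent.Work.MP_8c604c_gt.OM

open O.Model

theorem goal : Goal := fun g hg L hL hper hmin => by
  have h0 : 0 < √2 * π := by positivity
  obtain ⟨Q⟩ := exists_MT model.mf model_M
  obtain ⟨G, B⟩ := exists_bl hg hL hper hmin
  obtain ⟨G₀, B₀⟩ := exists_bl isMetric_g0 h0 g0_per g0_min
  obtain ⟨k, v⟩ := B.hvol Q (OT.countLe Q _)
  obtain ⟨k₀, v₀⟩ := B₀.hvol Q (OT.countLe Q _)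
  obtain ⟨Ψ, h1, h2⟩ := O.Bl.isometric B₀ B k₀ k v₀ v
  refine ⟨Ψ, (π / (√2 * π)) ^ 2 / (π / L) ^ 2, model_M ▸ h1, by positivity, fun p hp => ?_⟩
  have hp' : p ∈ model.M := model_M ▸ hp
  obtain ⟨h3, h4⟩ := h2 p hp'
  refine ⟨h3, fun u w hu hw => ?_⟩
  have key : ∀ u, Tan p u → model.P (Ψ p) (fderiv ℝ Ψ p u) = fderiv ℝ Ψ p u := by
    rintro _ ⟨c, hc, hm, rfl, rfl⟩
    exact tan_of_curve (c := fun s => Ψ (c s)) ((h3.differentiableAt (by simp)).hasFDerivAt.comp_hasDerivAt 0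
      (hc.differentiable (by simp) 0).hasDerivAt) (.of_forall fun s => h1.mapsTo (model_M ▸ hm s))
  have h5 := h4 u w ((tan_P hp').1 hu) ((tan_P hp').1 hw)
  simp only [Pi.smul_apply, smul_apply, smul_eq_mul] at h5
  rw [O.up_tan (h1.mapsTo hp') (key u hu) (key w hw), O.up_tan hp' ((tan_P hp').1 hu) ((tan_P hp').1 hw),
    g0_apply] at h5
  rw [div_mul_eq_mul_div, ← h5, mul_div_cancel_left₀ _ (by positivity)]

end Pool.Agent.Work.MP_8c604c_gt.OM
end
end

-- merged part: Pool.Agent.Work.MP_8c604c_gt.OC.Br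
section
/-!
Bridge from the statement on Hermitian matrices to the statement layer `OM/S2`.
-/

set_option maxSynthPendingDepth 3

open scoped ContDiff

noncomputable section
namespace Pool.Agent.Work.MP_8c604c_gt.OM.St

variable {V W : Type} [NormedAddCommGroup V] [InnerProductSpace ℝ V]
  [NormedAddCommGroup W] [InnerProductSpace ℝ W]

/-- the rigidity statement for a subset -/
def Rig (S : Set V) : Prop :=
  ∀ (g : Met V), IsMetric S g → ∀ L : ℝ, 0 < L → (∀ c, IsUnitGeodesic S g c → ∀ t, c (t + L) = c t) →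
    (∀ c, IsUnitGeodesic S g c → ∀ t ∈ Set.Icc 0 (L / 2), ∀ γ, Joins S γ (c 0) (c t) → t ≤ len g γ) →
    ∃ (Ψ : V → V) (c : ℝ), Set.BijOn Ψ S S ∧ 0 < c ∧ PullsBack S g Ψ c

/-- restriction of a family of forms -/
def resM (i : W →L[ℝ] V) (g : Met V) : Met W := fun p =>
  ((ContinuousLinearMap.compL ℝ W V ℝ).flip i).comp ((g (i p)).comp i)

theorem resM_apply (i : W →L[ℝ] V) (g : Met V) (p u w : W) :
    resM i g p u w = g (i p) (i u) (i w) := rfl

theorem deriv_clm (i : W →L[ℝ] V) {c : ℝ → W} (hc : Differentiable ℝ c) (t : ℝ) :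
    deriv (fun s => i (c s)) t = i (deriv c t) :=
  (i.hasFDerivAt.comp_hasDerivAt t (hc t).hasDerivAt).deriv

theorem Tan.map {S : Set V} {T : Set W} (i : W →L[ℝ] V) (h : ∀ x ∈ T, i x ∈ S) {p u : W}
    (hu : Tan T p u) : Tan S (i p) (i u) := by
  obtain ⟨c, h1, h2, rfl, rfl⟩ := hu
  exact ⟨fun s => i (c s), i.contDiff.comp h1, fun t => h _ (h2 t), rfl,
    deriv_clm i (h1.differentiable (by simp)) 0⟩

theorem Tan.fix {S : Set V} (e : V →L[ℝ] V) (h : ∀ x ∈ S, e x = x) {p u : V}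
    (hu : Tan S p u) : e u = u := by
  obtain ⟨c, h1, h2, rfl, rfl⟩ := hu
  rw [← deriv_clm e (h1.differentiable (by simp)) 0]
  exact congrArg (deriv · 0) (funext fun s => h _ (h2 s))

theorem fderiv_resM (i : W →L[ℝ] V) {g : Met V} {p : W} (hg : DifferentiableAt ℝ g (i p)) (η u : W) :
    fderiv ℝ (resM i g) p η u u = fderiv ℝ g (i p) (i η) (i u) (i u) := by
  have h1 : HasFDerivAt (fun q => g (i q)) ((fderiv ℝ g (i p)).comp i) p :=
    hg.hasFDerivAt.comp p i.hasFDerivAt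
  have h2 := (hasFDerivAt_const ((ContinuousLinearMap.compL ℝ W V ℝ).flip i) p).clm_comp
    (h1.clm_comp (hasFDerivAt_const i p))
  have h3 : fderiv ℝ (resM i g) p = _ := h2.fderiv
  rw [h3]
  simp

theorem Rig.of_emb {S : Set V} {T : Set W} (j : W →ₗᵢ[ℝ] V) (π : V →L[ℝ] W) (hπ : ∀ x, π (j x) = x)
    (hT : ∀ x, x ∈ T ↔ j x ∈ S) (hS : ∀ y ∈ S, j (π y) = y) (H : Rig T) : Rig S := by
  intro g hg L hL hper hmin
  set i : W →L[ℝ] V := j.toContinuousLinearMap with hi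
  have ij : ∀ x, i x = j x := fun _ => rfl
  have h1 : ∀ x ∈ T, i x ∈ S := fun x hx => (hT x).1 hx
  have h2 : ∀ y ∈ S, π y ∈ T := fun y hy => (hT _).2 (by rwa [hS y hy])
  have h3 : ∀ {p u}, Tan S p u → i (π u) = u := fun hu => Tan.fix (i.comp π) hS hu
  have geo : ∀ c, IsUnitGeodesic T (resM i g) c → IsUnitGeodesic S g fun s => i (c s) := by
    intro c hc
    have hd := deriv_clm i (hc.smooth.differentiable (by simp))
    refine ⟨i.contDiff.comp hc.smooth, fun t => h1 _ (hc.mem t), fun t η hη => ?_, fun t => ?_⟩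
    · have k := hη.map π h2
      rw [ij, hπ] at k
      have k2 := hc.el t _ k
      rw [fderiv_resM i ((hg.smooth _ (h1 _ (hc.mem t))).differentiableAt (by simp))] at k2
      simp only [resM_apply, h3 hη] at k2
      simpa only [hd] using k2
    · rw [hd]
      exact hc.unit t
  obtain ⟨Ψ, c, hb, hc, hp⟩ := H (resM i g)
    ⟨fun p hp => contDiffAt_const.clm_comp
        (((hg.smooth _ (h1 p hp)).comp p i.contDiff.contDiffAt).clm_comp contDiffAt_const),
      fun p hp u w => hg.symm _ (h1 p hp) _ _,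
      fun p hp u hu h0 => hg.pos _ (h1 p hp) _ (hu.map i h1) fun e => h0 (j.injective (by simpa [← ij] using e))⟩
    L hL (fun c hc t => j.injective (hper _ (geo c hc) t))
    (fun c hc t ht γ hγ => by
      have k := hmin _ (geo c hc) t ht (fun s => i (γ s))
        ⟨i.contDiff.comp hγ.smooth, fun s => h1 _ (hγ.mem s), congrArg i hγ.start, congrArg i hγ.stop⟩
      simpa only [len, resM_apply, deriv_clm i (hγ.smooth.differentiable (by simp))] using k)
  refine ⟨fun y => i (Ψ (π y)), c, ⟨fun y hy => h1 _ (hb.mapsTo (h2 y hy)), fun y hy z hz e => ?_,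
    fun y hy => ?_⟩, hc, fun p hp' => ?_⟩
  · rw [← hS y hy, ← hS z hz, hb.injOn (h2 y hy) (h2 z hz) (j.injective e)]
  · obtain ⟨x, hx, e⟩ := hb.surjOn (h2 y hy)
    exact ⟨i x, h1 x hx, by simp only [ij, hπ, e, hS y hy]⟩
  · obtain ⟨k1, k2⟩ := hp _ (h2 p hp')
    refine ⟨i.contDiff.contDiffAt.comp p (k1.comp p π.contDiff.contDiffAt), fun u w hu hw => ?_⟩
    have k3 : fderiv ℝ (fun y => i (Ψ (π y))) p = i.comp ((fderiv ℝ Ψ (π p)).comp π) :=
      (i.hasFDerivAt.comp p ((k1.differentiableAt (by simp)).hasFDerivAt.comp p π.hasFDerivAt)).fderiv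
    have k4 := k2 _ _ (hu.map π h2) (hw.map π h2)
    rw [resM_apply, ← j.inner_map_map, ← ij, ← ij, h3 hu, h3 hw] at k4
    rw [k3]
    exact k4

theorem rig_J : Rig OM.CaP := fun g hg L hL hper hmin =>
  OM.goal g ⟨hg.smooth, hg.symm, hg.pos⟩ L hL
    (fun c hc => hper c ⟨hc.smooth, hc.mem, hc.el, hc.unit⟩)
    fun c hc t ht γ hγ => hmin c ⟨hc.smooth, hc.mem, hc.el, hc.unit⟩ t ht γ
      ⟨hγ.smooth, hγ.mem, hγ.start, hγ.stop⟩

/-- the inclusion of the Hermitian matrices -/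
def io : OM.J →ₗᵢ[ℝ] Mat := OM.herm.subtypeₗᵢ

theorem exists_linv [FiniteDimensional ℝ V] (j : W →ₗᵢ[ℝ] V) : ∃ π : V →L[ℝ] W, ∀ x, π (j x) = x := by
  obtain ⟨π, hπ⟩ := j.toLinearMap.exists_leftInverse_of_injective
    (LinearMap.ker_eq_bot.2 j.injective)
  exact ⟨π.toContinuousLinearMap, fun x => LinearMap.congr_fun hπ x⟩

theorem rig_CaP : Rig CaP := by
  obtain ⟨π, k⟩ := exists_linv io
  refine Rig.of_emb io π k (fun x => ⟨fun h => ⟨x.2, h⟩, fun h => h.2⟩) (fun y hy => ?_) rig_J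
  exact congrArg io (k ⟨y, hy.1⟩)

end Pool.Agent.Work.MP_8c604c_gt.OM.St
end
end

-- merged part: Pool.Agent.Work.MP_8c604c_gt.U.Main
section
/-!
The three families together.
-/

noncomputable section
namespace Pool.Agent.Work.MP_8c604c_gt.U

open OM.St

theorem rigO : DRig (KP 8 2) := by
  have h : KP 8 2 = CaP := Set.ext fun X =>
    ⟨fun h => h.2, fun h => ⟨fun _ _ => ⟨fun k => absurd k (by norm_num), fun k => absurd k (by norm_num)⟩, h⟩⟩
  rw [h]
  exact rig_CaP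

theorem rig_all {d n : ℕ} (h : ((d = 2 ∨ d = 4) ∧ 2 ≤ n) ∨ (d = 8 ∧ n = 2)) : DRig (KP d n) := by
  rcases h with ⟨rfl | rfl, hn⟩ | ⟨rfl, rfl⟩
  exacts [rigC hn, rigH hn, rigO]

end Pool.Agent.Work.MP_8c604c_gt.U
end
end

-- merged part: Pool.Agent.Work.MP_8c604c_gt.P.Fin
section
/-!
The projective spaces as fixed sets of retractions.
-/

noncomputable section
namespace Pool.Agent.Work.MP_8c604c_gt.P

open OM.St U

theorem model_KP {d n : ℕ} (h : ((d = 2 ∨ d = 4) ∧ 2 ≤ n) ∨ (d = 8 ∧ n = 2)) :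
    ∃ m, ∃ μ : O.Model (MatN n) m, μ.M = KP d n := by
  rcases h with ⟨rfl | rfl, hn⟩ | ⟨rfl, rfl⟩
  · exact model_KG embC hn
  · exact model_KG embH hn
  · obtain ⟨π, k⟩ := exists_linv io
    obtain ⟨ν, h⟩ := push_model OM.model io.toContinuousLinearMap π k
    refine ⟨_, ν, h.trans ?_⟩
    rw [OM.model_M]
    exact Set.ext fun X => ⟨fun ⟨x, h, e⟩ => e ▸ ⟨fun _ _ => ⟨fun k => absurd k (by norm_num),
      fun k => absurd k (by norm_num)⟩, x.2, h⟩, fun h => ⟨⟨X, h.2.1⟩, h.2.2, rfl⟩⟩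

end Pool.Agent.Work.MP_8c604c_gt.P
end
end
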